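import Mathlib
import Pool.Agent.H4R2.AE.Conc

set_option autoImplicit false
set_option linter.unusedSectionVars false
open MeasureTheory
open Pool.Agent.H4R2.AE.Conc

namespace Pool.Agent.U868.KI

section
variable {ι : Type} [Fintype ι] [DecidableEq ι] {μ : Measure ℝ} [IsProbabilityMeasure μ]

/-- the Efron-Stein inequality for square integrable functions -/
theorem efron2 (G : (ι → ℝ) → ℝ) (hG : Measurable G) (hL : MemLp G 2 (PP ι μ)) :
    ∫ ω, G ω ^ 2 ∂(PP ι μ) - (∫ ω, G ω ∂(PP ι μ)) ^ 2 ≤ (1 / 2) * ∑ j, Inf2 μ G j := by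
  have gm : ∀ S : Finset ι, Measurable fun θ => G (sel S θ) := fun S => hG.comp (meas_sel S)
  have gl : ∀ S : Finset ι, MemLp (fun θ => G (sel S θ)) 2 (QQ ι μ) := fun S =>
    hL.comp_measurePreserving (mp_sel μ S)
  have ig : ∀ S T : Finset ι, Integrable (fun θ => G (sel S θ) * G (sel T θ)) (QQ ι μ) :=
    fun S T => (gl S).integrable_mul (gl T)
  have main : ∀ S : Finset ι, ∫ θ, (G (sel ∅ θ) * G (sel ∅ θ) - G (sel ∅ θ) * G (sel S θ))
      ∂(QQ ι μ) ≤ (1 / 2) * ∑ j ∈ S, Inf2 μ G j := by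
    intro S
    induction S using Finset.induction_on with
    | empty => simp
    | insert j S hj ih =>
      rw [Finset.sum_insert hj, mul_add]
      have iS : Integrable (fun θ => G (sel ∅ θ) * G (sel ∅ θ) - G (sel ∅ θ) * G (sel S θ))
          (QQ ι μ) := (ig _ _).sub (ig _ _)
      have i1 : Integrable (fun θ => G (sel ∅ θ) * (G (sel S θ) - G (sel (insert j S) θ)))
          (QQ ι μ) := by
        refine ((ig ∅ S).sub (ig ∅ (insert j S))).congr ?_
        exact Filter.Eventually.of_forall fun θ => by simp only [Pi.sub_apply]; ring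
      have e1 : ∫ θ, (G (sel ∅ θ) * G (sel ∅ θ) - G (sel ∅ θ) * G (sel (insert j S) θ)) ∂(QQ ι μ)
          = ∫ θ, (G (sel ∅ θ) * G (sel ∅ θ) - G (sel ∅ θ) * G (sel S θ)) ∂(QQ ι μ) +
            ∫ θ, G (sel ∅ θ) * (G (sel S θ) - G (sel (insert j S) θ)) ∂(QQ ι μ) := by
        rw [← integral_add iS i1]
        apply integral_congr_ae
        exact Filter.Eventually.of_forall fun θ => by ring
      -- the swapped integral
      have e2 : ∫ θ, G (sel ∅ θ) * (G (sel S θ) - G (sel (insert j S) θ)) ∂(QQ ι μ) =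
          ∫ θ, G (sel {j} θ) * (G (sel (insert j S) θ) - G (sel S θ)) ∂(QQ ι μ) := by
        rw [← int_mp (mp_sw μ {j})
          (g := fun θ => G (sel ∅ θ) * (G (sel S θ) - G (sel (insert j S) θ)))
          ((gm ∅).mul ((gm S).sub (gm (insert j S))))]
        apply integral_congr_ae
        refine Filter.Eventually.of_forall fun θ => ?_
        simp only [sel_empty_sw, sel_sw_single hj, sel_insert_sw_single hj]
      have i2 : Integrable (fun θ => G (sel {j} θ) * (G (sel (insert j S) θ) - G (sel S θ)))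
          (QQ ι μ) := by
        refine ((ig {j} (insert j S)).sub (ig {j} S)).congr ?_
        exact Filter.Eventually.of_forall fun θ => by simp only [Pi.sub_apply]; ring
      have sqi : ∀ A C : Finset ι, Integrable (fun θ => (G (sel A θ) - G (sel C θ)) ^ 2)
          (QQ ι μ) := by
        intro A C
        refine (((ig A A).sub ((ig A C).const_mul 2)).add (ig C C)).congr ?_
        exact Filter.Eventually.of_forall fun θ => by
          simp only [Pi.sub_apply, Pi.add_apply]; ring
      have e3 : ∫ θ, (G (sel S θ) - G (sel (insert j S) θ)) ^ 2 ∂(QQ ι μ) = Inf2 μ G j := by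
        unfold Inf2
        rw [← int_mp (mp_sw μ S) (g := fun θ => (G (sel ∅ θ) - G (sel {j} θ)) ^ 2)
          (((gm ∅).sub (gm {j})).pow_const 2)]
        apply integral_congr_ae
        refine Filter.Eventually.of_forall fun θ => ?_
        simp only [sel_empty_sw, sel_single_sw hj]
      have e4 : 2 * ∫ θ, G (sel ∅ θ) * (G (sel S θ) - G (sel (insert j S) θ)) ∂(QQ ι μ) ≤
          (1 / 2) * Inf2 μ G j + (1 / 2) * Inf2 μ G j := by
        calc 2 * ∫ θ, G (sel ∅ θ) * (G (sel S θ) - G (sel (insert j S) θ)) ∂(QQ ι μ)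
            = ∫ θ, G (sel ∅ θ) * (G (sel S θ) - G (sel (insert j S) θ)) ∂(QQ ι μ) +
              ∫ θ, G (sel {j} θ) * (G (sel (insert j S) θ) - G (sel S θ)) ∂(QQ ι μ) := by
                rw [← e2]; ring
          _ = ∫ θ, (G (sel ∅ θ) * (G (sel S θ) - G (sel (insert j S) θ)) +
              G (sel {j} θ) * (G (sel (insert j S) θ) - G (sel S θ))) ∂(QQ ι μ) :=
                (integral_add i1 i2).symm
          _ ≤ ∫ θ, ((1 / 2) * (G (sel ∅ θ) - G (sel {j} θ)) ^ 2 +
              (1 / 2) * (G (sel S θ) - G (sel (insert j S) θ)) ^ 2) ∂(QQ ι μ) := by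
                apply integral_mono (i1.add i2) (((sqi _ _).const_mul _).add
                  ((sqi _ _).const_mul _))
                intro θ
                simp only [Pi.add_apply]
                nlinarith [sq_nonneg ((G (sel ∅ θ) - G (sel {j} θ)) -
                  (G (sel S θ) - G (sel (insert j S) θ)))]
          _ = (1 / 2) * Inf2 μ G j + (1 / 2) * Inf2 μ G j := by
                rw [integral_add ((sqi _ _).const_mul _) ((sqi _ _).const_mul _),
                  integral_const_mul, integral_const_mul, e3]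
                rfl
      rw [e1]
      linarith
  have h1 := main Finset.univ
  have h2 : ∫ θ, (G (sel ∅ θ) * G (sel ∅ θ) - G (sel ∅ θ) * G (sel Finset.univ θ)) ∂(QQ ι μ) =
      ∫ ω, G ω ^ 2 ∂(PP ι μ) - (∫ ω, G ω ∂(PP ι μ)) ^ 2 := by
    rw [integral_sub (ig _ _) (ig _ _), indep μ G G hG hG, sq (∫ ω, G ω ∂(PP ι μ))]
    congr 1
    rw [← int_mp (mp_sel μ ∅) (g := fun ω => G ω ^ 2) (hG.pow_const 2)]
    apply integral_congr_ae
    exact Filter.Eventually.of_forall fun θ => by ring
  rw [h2] at h1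
  exact h1

/-- one-sided form -/
theorem efron_pos (G : (ι → ℝ) → ℝ) (hG : Measurable G) (hL : MemLp G 2 (PP ι μ)) :
    ∫ ω, G ω ^ 2 ∂(PP ι μ) - (∫ ω, G ω ∂(PP ι μ)) ^ 2 ≤
      ∫ θ, ∑ j, (max (G (sel ∅ θ) - G (sel {j} θ)) 0) ^ 2 ∂(QQ ι μ) := by
  have gm : ∀ S : Finset ι, Measurable fun θ => G (sel S θ) := fun S => hG.comp (meas_sel S)
  have gl : ∀ S : Finset ι, MemLp (fun θ => G (sel S θ)) 2 (QQ ι μ) := fun S =>
    hL.comp_measurePreserving (mp_sel μ S)
  have dl : ∀ S T : Finset ι, Integrable (fun θ => (G (sel S θ) - G (sel T θ)) ^ 2) (QQ ι μ) :=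
    fun S T => ((gl S).sub (gl T)).integrable_sq
  have pm : ∀ S T : Finset ι, Measurable fun θ : ι → ℝ × ℝ => (max (G (sel S θ) - G (sel T θ)) 0) ^ 2 :=
    fun S T => (((gm S).sub (gm T)).max measurable_const).pow_const 2
  have pl : ∀ S T : Finset ι, Integrable (fun θ => (max (G (sel S θ) - G (sel T θ)) 0) ^ 2) (QQ ι μ) := by
    intro S T
    refine (dl S T).mono' (pm S T).aestronglyMeasurable (Filter.Eventually.of_forall fun θ => ?_)
    rw [Real.norm_of_nonneg (by positivity)]
    rcases le_total (G (sel S θ) - G (sel T θ)) 0 with h | h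
    · rw [max_eq_right h, zero_pow two_ne_zero]; exact sq_nonneg _
    · rw [max_eq_left h]
  refine (efron2 G hG hL).trans (le_of_eq ?_)
  rw [integral_finsetSum _ fun j _ => pl ∅ {j}, Finset.mul_sum]
  refine Finset.sum_congr rfl fun j _ => ?_
  have e1 : Inf2 μ G j = ∫ θ, (max (G (sel ∅ θ) - G (sel {j} θ)) 0) ^ 2 ∂(QQ ι μ) +
      ∫ θ, (max (G (sel {j} θ) - G (sel ∅ θ)) 0) ^ 2 ∂(QQ ι μ) := by
    rw [Inf2, ← integral_add (pl _ _) (pl _ _)]
    refine integral_congr_ae (Filter.Eventually.of_forall fun θ => ?_)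
    simp only
    rcases le_total (G (sel ∅ θ)) (G (sel {j} θ)) with h | h
    · rw [max_eq_right (by linarith), max_eq_left (by linarith)]; ring
    · rw [max_eq_left (by linarith), max_eq_right (by linarith)]; ring
  have e2 : ∫ θ, (max (G (sel {j} θ) - G (sel ∅ θ)) 0) ^ 2 ∂(QQ ι μ) =
      ∫ θ, (max (G (sel ∅ θ) - G (sel {j} θ)) 0) ^ 2 ∂(QQ ι μ) := by
    rw [← int_mp (mp_sw μ {j}) (g := fun θ => (max (G (sel {j} θ) - G (sel ∅ θ)) 0) ^ 2) (pm _ _)]
    refine integral_congr_ae (Filter.Eventually.of_forall fun θ => ?_)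
    have h1 : sel {j} (sw {j} θ) = sel ∅ θ := by
      funext i
      by_cases hi : i = j
      · subst hi; simp [sel, sw]
      · simp [sel, sw, hi]
    simp only [sel_empty_sw, h1]
  rw [e1, e2]; ring

end
end Pool.Agent.U868.KI
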