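import Mathlib

set_option autoImplicit false
set_option linter.unusedSectionVars false
open MeasureTheory ProbabilityTheory Filter

namespace Pool.Agent.U868.KI

theorem int_pow (m : ℕ) : Integrable (fun t : ℝ => t ^ m) (gaussianReal 0 1) := by
  have h := (memLp_id_gaussianReal (μ := 0) (v := 1) (m : NNReal))
  have h2 := h.integrable_norm_pow' 
  refine (integrable_norm_iff (by fun_prop)).1 ?_
  refine h2.congr (Eventually.of_forall fun t => ?_)
  simp

theorem pdf_deriv (t : ℝ) :
    HasDerivAt (gaussianPDFReal 0 1) (-(t * gaussianPDFReal 0 1 t)) t := by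
  have h : gaussianPDFReal 0 1 = fun x : ℝ =>
      (Real.sqrt (2 * Real.pi * ((1 : NNReal) : ℝ)))⁻¹ *
        Real.exp (-(x - 0) ^ 2 / (2 * ((1 : NNReal) : ℝ))) := by
    rw [gaussianPDFReal_def]
  rw [h]
  have h1 : HasDerivAt (fun x : ℝ => -(x - 0) ^ 2 / (2 * ((1 : NNReal) : ℝ))) (-t) t := by
    have := (((hasDerivAt_id t).sub_const (0:ℝ)).pow 2).neg.div_const (2 * ((1 : NNReal) : ℝ))
    refine this.congr_deriv ?_
    simp only [id, sub_zero, NNReal.coe_one, mul_one]
    norm_num
    ring
  have h2 := (h1.exp).const_mul (Real.sqrt (2 * Real.pi * ((1 : NNReal) : ℝ)))⁻¹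
  refine h2.congr_deriv ?_
  ring

theorem integrable_gauss_iff (f : ℝ → ℝ) (hf : Integrable f (gaussianReal 0 1)) :
    Integrable fun t => f t * gaussianPDFReal 0 1 t := by
  rw [gaussianReal_of_var_ne_zero 0 (by norm_num : (1 : NNReal) ≠ 0),
    integrable_withDensity_iff_integrable_smul' (measurable_gaussianPDF 0 1)
      (Eventually.of_forall fun _ => gaussianPDF_lt_top)] at hf
  refine hf.congr (Eventually.of_forall fun t => ?_)
  simp only [smul_eq_mul, toReal_gaussianPDF]
  ring

theorem mom_rec (m : ℕ) :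
    ∫ t, t ^ (m + 1) ∂(gaussianReal 0 1) = m * ∫ t, t ^ (m - 1) ∂(gaussianReal 0 1) := by
  have j1 := integrable_gauss_iff _ (int_pow (m + 1))
  have j2 := (integrable_gauss_iff _ (int_pow (m - 1))).const_mul (m : ℝ)
  have j3 := integrable_gauss_iff _ (int_pow m)
  have key := integral_mul_deriv_eq_deriv_mul_of_integrable (u := fun t : ℝ => t ^ m)
    (u' := fun t : ℝ => (m : ℝ) * t ^ (m - 1))
    (v := gaussianPDFReal 0 1) (v' := fun t => -(t * gaussianPDFReal 0 1 t))
    (fun x _ => hasDerivAt_pow m x) (fun x _ => pdf_deriv x)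
    (j1.neg.congr (Eventually.of_forall fun t => by simp only [Pi.neg_apply, Pi.mul_apply]; ring))
    (j2.congr (Eventually.of_forall fun t => by simp only [Pi.mul_apply]; ring))
    (j3.congr (Eventually.of_forall fun t => by simp only [Pi.mul_apply]))
  rw [← integral_const_mul, integral_gaussianReal_eq_integral_smul (by norm_num),
    integral_gaussianReal_eq_integral_smul (by norm_num)]
  have e1 : ∫ x, gaussianPDFReal 0 1 x • x ^ (m + 1) =
      -∫ x, (x ^ m) * -(x * gaussianPDFReal 0 1 x) := by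
    rw [← integral_neg]
    congr 1; ext x; simp only [smul_eq_mul]; ring
  have e2 : ∫ x, gaussianPDFReal 0 1 x • ((m : ℝ) * x ^ (m - 1)) =
      ∫ x, ((m : ℝ) * x ^ (m - 1)) * gaussianPDFReal 0 1 x := by
    congr 1; ext x; simp only [smul_eq_mul]; ring
  rw [e1, e2, key, neg_neg]

section multi
variable {ι : Type} [Fintype ι] [DecidableEq ι]

/-- product of standard Gaussian measures -/
noncomputable abbrev gam (ι : Type) [Fintype ι] : Measure (ι → ℝ) :=
  Measure.pi fun _ : ι => gaussianReal 0 1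

theorem int_monomial (s : ι →₀ ℕ) :
    Integrable (fun ω : ι → ℝ => ∏ i, ω i ^ s i) (gam ι) :=
  Integrable.fintype_prod (f := fun i (t : ℝ) => t ^ s i) fun i => int_pow (s i)

theorem int_eval (P : MvPolynomial ι ℝ) :
    Integrable (fun ω : ι → ℝ => MvPolynomial.eval ω P) (gam ι) := by
  have : (fun ω : ι → ℝ => MvPolynomial.eval ω P) =
      fun ω => ∑ s ∈ P.support, P.coeff s * ∏ i, ω i ^ s i := by
    ext ω; exact MvPolynomial.eval_eq' _ _
  rw [this]
  exact integrable_finsetSum _ fun s _ => (int_monomial s).const_mul _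

/-- Gaussian expectation of a polynomial -/
noncomputable def EE : MvPolynomial ι ℝ →ₗ[ℝ] ℝ where
  toFun P := ∫ ω, MvPolynomial.eval ω P ∂(gam ι)
  map_add' P Q := by
    simp only [map_add]
    exact integral_add (int_eval P) (int_eval Q)
  map_smul' c P := by
    simp only [MvPolynomial.smul_eval, RingHom.id_apply, smul_eq_mul]
    exact integral_const_mul _ _

theorem EE_apply (P : MvPolynomial ι ℝ) : EE P = ∫ ω, MvPolynomial.eval ω P ∂(gam ι) := rfl

theorem EE_C (c : ℝ) : EE (MvPolynomial.C c : MvPolynomial ι ℝ) = c := by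
  rw [EE_apply]; simp

theorem EE_monomial (s : ι →₀ ℕ) (c : ℝ) :
    EE (MvPolynomial.monomial s c) = c * ∏ i, ∫ t, t ^ s i ∂(gaussianReal 0 1) := by
  rw [EE_apply]
  have : (fun ω : ι → ℝ => MvPolynomial.eval ω (MvPolynomial.monomial s c)) =
      fun ω => c * ∏ i, ω i ^ s i := by
    ext ω
    rw [MvPolynomial.eval_monomial, Finsupp.prod_fintype _ _ (fun i => pow_zero _)]
  rw [this, integral_const_mul]
  congr 1
  exact integral_fintype_prod_eq_prod (f := fun i (t : ℝ) => t ^ s i)

/-- Gaussian integration by parts -/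
theorem EE_stein (i : ι) (P : MvPolynomial ι ℝ) :
    EE (MvPolynomial.X i * P) = EE (MvPolynomial.pderiv i P) := by
  induction P using MvPolynomial.induction_on' with
  | monomial s c =>
    rw [MvPolynomial.pderiv_monomial, EE_monomial, MvPolynomial.X, MvPolynomial.monomial_mul,
      EE_monomial]
    rw [← Finset.mul_prod_erase _ _ (Finset.mem_univ i), ← Finset.mul_prod_erase _ _ (Finset.mem_univ i)]
    have h1 : ∀ j ∈ Finset.univ.erase i, (∫ t, t ^ ((Finsupp.single i 1 + s : ι →₀ ℕ) j) ∂(gaussianReal 0 1)) =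
        ∫ t, t ^ ((s - Finsupp.single i 1 : ι →₀ ℕ) j) ∂(gaussianReal 0 1) := by
      intro j hj
      have hji : j ≠ i := Finset.ne_of_mem_erase hj
      simp [Finsupp.single_apply, hji.symm, hji]
    rw [Finset.prod_congr rfl h1]
    have h2 : (Finsupp.single i 1 + s : ι →₀ ℕ) i = s i + 1 := by simp [add_comm]
    have h3 : (s - Finsupp.single i 1 : ι →₀ ℕ) i = s i - 1 := by simp
    rw [h2, h3, mom_rec]
    ring
  | add P Q hP hQ => rw [mul_add, map_add, map_add, map_add, hP, hQ]

end multi
end Pool.Agent.U868.KI
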