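import Mathlib
import Pool.Agent.U868.KI.A

set_option autoImplicit false
set_option linter.unusedSectionVars false
open MeasureTheory ProbabilityTheory Filter
open scoped Matrix Kronecker

namespace Pool.Agent.U868.KI

/-- all ways to single out one element of a list -/
def splits {α : Type} : List α → List (List α × α × List α)
  | [] => []
  | b :: L => ([], b, L) :: (splits L).map fun t => (b :: t.1, t.2.1, t.2.2)

theorem length_splits {α : Type} (L : List α) : ∀ t ∈ splits L, t.1.length + 1 + t.2.2.length = L.length := by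
  induction L with
  | nil => intro t ht; simp [splits] at ht
  | cons b L ih =>
    intro t ht
    simp only [splits, List.mem_cons, List.mem_map] at ht
    rcases ht with rfl | ⟨s, hs, rfl⟩
    · simp; omega
    · have := ih s hs
      simp only [List.length_cons]; omega

theorem mem_splits {α : Type} (L : List α) : ∀ t ∈ splits L,
    (∀ e ∈ t.1, e ∈ L) ∧ t.2.1 ∈ L ∧ ∀ e ∈ t.2.2, e ∈ L := by
  induction L with
  | nil => intro t ht; simp [splits] at ht
  | cons b L ih =>
    intro t ht
    simp only [splits, List.mem_cons, List.mem_map] at ht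
    rcases ht with rfl | ⟨s, hs, rfl⟩
    · refine ⟨by simp, by simp, fun e he => List.mem_cons_of_mem _ he⟩
    · obtain ⟨h1, h2, h3⟩ := ih s hs
      refine ⟨fun e he => ?_, List.mem_cons_of_mem _ h2, fun e he => List.mem_cons_of_mem _ (h3 e he)⟩
      rcases List.mem_cons.1 he with rfl | he
      · simp
      · exact List.mem_cons_of_mem _ (h1 e he)

/-- Leibniz rule for a product of a list -/
theorem leibniz {R : Type} [Ring R] (D : R → R) (h1 : D 1 = 0)
    (hm : ∀ x y, D (x * y) = D x * y + x * D y) {α : Type} (f : α → R) (L : List α) :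
    D (L.map f).prod =
      ((splits L).map fun t => (t.1.map f).prod * D (f t.2.1) * (t.2.2.map f).prod).sum := by
  induction L with
  | nil => simp [splits, h1]
  | cons b L ih =>
    rw [List.map_cons, List.prod_cons, hm, ih]
    simp only [splits, List.map_cons, List.map_nil, List.prod_nil, one_mul, List.sum_cons,
      List.map_map]
    congr 1
    rw [← List.sum_map_mul_left]
    congr 1
    refine List.map_congr_left fun t _ => ?_
    simp only [Function.comp, List.map_cons, List.prod_cons]
    noncomm_ring

/-- moments of independent standard Gaussians -/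
noncomputable def mu {E : Type} [Fintype E] [DecidableEq E] (l : List E) : ℝ :=
  EE ((l.map fun z => (MvPolynomial.X z : MvPolynomial E ℝ)).prod)

theorem mu_nil {E : Type} [Fintype E] [DecidableEq E] : mu ([] : List E) = 1 := by
  unfold mu
  have := EE_C (ι := E) 1
  simpa using this

theorem mu_cons {E : Type} [Fintype E] [DecidableEq E] (z : E) (l : List E) :
    mu (z :: l) = ((splits l).map fun t => if t.2.1 = z then mu (t.1 ++ t.2.2) else 0).sum := by
  unfold mu
  rw [List.map_cons, List.prod_cons, EE_stein,
    leibniz (fun P => MvPolynomial.pderiv z P) (by simp) (fun x y => by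
      rw [Derivation.leibniz]; simp only [smul_eq_mul]; ring)]
  rw [map_list_sum, List.map_map]
  congr 1
  refine List.map_congr_left fun t _ => ?_
  simp only [Function.comp, MvPolynomial.pderiv_X]
  by_cases h : t.2.1 = z
  · subst h
    simp
  · rw [if_neg h, Pi.single_eq_of_ne h]
    simp

section key
variable {ι : Type} [Fintype ι] [DecidableEq ι]

/-- the Gaussian matrix `∑ X_i a_i` -/
noncomputable def Wp {κ : Type} (a : ι → Matrix κ κ ℝ) : Matrix κ κ (MvPolynomial ι ℝ) :=
  Matrix.of fun x y => ∑ i, MvPolynomial.X i * MvPolynomial.C (a i x y)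

/-- elements of the products: deterministic matrices and Gaussian families with a label -/
abbrev Elt (E ι κ : Type) : Type := Matrix κ κ ℝ ⊕ (E × (ι → Matrix κ κ ℝ))

/-- the matrix of an element -/
noncomputable def val {E κ : Type} : Elt E ι κ → Matrix κ κ (MvPolynomial ι ℝ)
  | Sum.inl D => D.map MvPolynomial.C
  | Sum.inr p => Wp p.2

/-- label of an element -/
def lab {E κ : Type} : Elt E ι κ → Option E
  | Sum.inl _ => none
  | Sum.inr p => some p.1

/-- the labels of a list -/
def zs {E κ : Type} (L : List (Elt E ι κ)) : List E := L.filterMap lab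

theorem zs_splits {E κ : Type} (L : List (Elt E ι κ)) (F : List E → E → List E → ℝ) :
    ((splits L).map fun t => match lab t.2.1 with
      | none => 0
      | some c => F (zs t.1) c (zs t.2.2)).sum =
    ((splits (zs L)).map fun s => F s.1 s.2.1 s.2.2).sum := by
  induction L generalizing F with
  | nil => simp [splits, zs]
  | cons b L ih =>
    cases hb : lab b with
    | none =>
      have h1 : zs (b :: L) = zs L := by simp [zs, hb]
      rw [h1, ← ih]
      simp only [splits, List.map_cons, hb, List.sum_cons, zero_add, List.map_map]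
      congr 1
      refine List.map_congr_left fun t _ => ?_
      simp only [Function.comp]
      have h2 : zs (b :: t.1) = zs t.1 := by simp [zs, hb]
      rw [h2]
    | some c =>
      have h1 : zs (b :: L) = c :: zs L := by simp [zs, hb]
      rw [h1]
      have h3 := ih (fun l1 d l2 => F (c :: l1) d l2)
      simp only [splits, List.map_cons, hb, List.sum_cons, List.map_map]
      congr 1
      · have h4 := h3
        refine Eq.trans ?_ (h4.trans ?_)
        · congr 1
          refine List.map_congr_left fun t _ => ?_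
          simp only [Function.comp]
          have h2 : zs (b :: t.1) = c :: zs t.1 := by simp [zs, hb]
          rw [h2]
        · congr 1

variable {κ : Type} [Fintype κ] [DecidableEq κ]

/-- product of a list -/
noncomputable def prodL {E : Type} (L : List (Elt E ι κ)) : Matrix κ κ (MvPolynomial ι ℝ) :=
  (L.map val).prod

/-- expectation of a matrix element -/
noncomputable def EF (u v : κ → ℝ) (P : Matrix κ κ (MvPolynomial ι ℝ)) : ℝ :=
  ∑ x, ∑ y, u x * EE (P x y) * v y

theorem EF_add (u v : κ → ℝ) (P Q : Matrix κ κ (MvPolynomial ι ℝ)) :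
    EF u v (P + Q) = EF u v P + EF u v Q := by
  unfold EF
  simp only [Matrix.add_apply, map_add, mul_add, add_mul, Finset.sum_add_distrib]

theorem EF_zero (u v : κ → ℝ) : EF u v (0 : Matrix κ κ (MvPolynomial ι ℝ)) = 0 := by
  simp [EF]

theorem EF_sum (u v : κ → ℝ) (l : List (Matrix κ κ (MvPolynomial ι ℝ))) :
    EF u v l.sum = (l.map (EF u v)).sum := by
  induction l with
  | nil => simp [EF_zero]
  | cons a l ih => simp [EF_add, ih]

/-- entrywise derivative -/
noncomputable def dP (i : ι) (P : Matrix κ κ (MvPolynomial ι ℝ)) : Matrix κ κ (MvPolynomial ι ℝ) :=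
  P.map fun p : MvPolynomial ι ℝ => MvPolynomial.pderiv i p

theorem dP_mul (i : ι) (P Q : Matrix κ κ (MvPolynomial ι ℝ)) :
    dP i (P * Q) = dP i P * Q + P * dP i Q := by
  refine Matrix.ext fun x y => ?_
  simp only [dP, Matrix.map_apply, Matrix.mul_apply, Matrix.add_apply]
  rw [map_sum, ← Finset.sum_add_distrib]
  refine Finset.sum_congr rfl fun w _ => ?_
  rw [Derivation.leibniz]; simp only [smul_eq_mul]; ring

theorem dP_one (i : ι) : dP i (1 : Matrix κ κ (MvPolynomial ι ℝ)) = 0 := by
  refine Matrix.ext fun x y => ?_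
  simp only [dP, Matrix.map_apply, Matrix.one_apply]
  split_ifs <;> simp

theorem dP_C (i : ι) (D : Matrix κ κ ℝ) :
    dP i (D.map (MvPolynomial.C : ℝ → MvPolynomial ι ℝ)) = 0 := by
  refine Matrix.ext fun x y => ?_
  simp [dP]

theorem dP_Wp (i : ι) (a : ι → Matrix κ κ ℝ) : dP i (Wp a) = (a i).map MvPolynomial.C := by
  refine Matrix.ext fun x y => ?_
  simp only [dP, Wp, Matrix.map_apply, Matrix.of_apply, map_sum]
  rw [Finset.sum_eq_single i]
  · rw [Derivation.leibniz]; simp
  · intro j _ hj
    rw [Derivation.leibniz]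
    simp [MvPolynomial.pderiv_X_of_ne hj]
  · simp

theorem EF_Wp (u v : κ → ℝ) (a : ι → Matrix κ κ ℝ) (P : Matrix κ κ (MvPolynomial ι ℝ)) :
    EF u v (Wp a * P) = ∑ i, EF (u ᵥ* a i) v (dP i P) := by
  unfold EF
  have h1 : ∀ x y, EE ((Wp a * P) x y) = ∑ i, ∑ w, a i x w * EE (dP i P w y) := by
    intro x y
    simp only [Matrix.mul_apply, Wp, Matrix.of_apply, Finset.sum_mul, map_sum, dP, Matrix.map_apply]
    rw [Finset.sum_comm]
    refine Finset.sum_congr rfl fun i _ => Finset.sum_congr rfl fun w _ => ?_
    have e : MvPolynomial.X i * MvPolynomial.C (a i x w) * P w y =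
        a i x w • (MvPolynomial.X i * P w y) := by
      rw [← MvPolynomial.C_mul']; ring
    rw [e, map_smul, EE_stein, smul_eq_mul]
  simp only [h1, Matrix.vecMul, dotProduct]
  have h2 : ∀ x y, u x * (∑ i, ∑ w, a i x w * EE (dP i P w y)) * v y =
      ∑ i, ∑ w, u x * a i x w * EE (dP i P w y) * v y := by
    intro x y
    rw [Finset.mul_sum, Finset.sum_mul]
    refine Finset.sum_congr rfl fun i _ => ?_
    rw [Finset.mul_sum, Finset.sum_mul]
    refine Finset.sum_congr rfl fun w _ => ?_
    ring
  simp only [h2]
  have h3 : ∀ i w y, (∑ x, u x * a i x w) * EE (dP i P w y) * v y =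
      ∑ x, u x * a i x w * EE (dP i P w y) * v y := by
    intro i w y
    rw [Finset.sum_mul, Finset.sum_mul]
  simp only [h3]
  -- both sides: sums over x y i w
  calc ∑ x, ∑ y, ∑ i, ∑ w, u x * a i x w * EE (dP i P w y) * v y
      = ∑ x, ∑ i, ∑ w, ∑ y, u x * a i x w * EE (dP i P w y) * v y := by
        refine Finset.sum_congr rfl fun x _ => ?_
        rw [Finset.sum_comm]
        refine Finset.sum_congr rfl fun i _ => ?_
        rw [Finset.sum_comm]
    _ = ∑ i, ∑ x, ∑ w, ∑ y, u x * a i x w * EE (dP i P w y) * v y := Finset.sum_comm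
    _ = ∑ i, ∑ w, ∑ y, ∑ x, u x * a i x w * EE (dP i P w y) * v y := by
        refine Finset.sum_congr rfl fun i _ => ?_
        rw [Finset.sum_comm]
        refine Finset.sum_congr rfl fun w _ => ?_
        rw [Finset.sum_comm]

theorem EF_C (u v : κ → ℝ) (D : Matrix κ κ ℝ) (P : Matrix κ κ (MvPolynomial ι ℝ)) :
    EF u v ((D.map MvPolynomial.C : Matrix κ κ (MvPolynomial ι ℝ)) * P) = EF (u ᵥ* D) v P := by
  unfold EF
  have h1 : ∀ x y, EE (((D.map MvPolynomial.C : Matrix κ κ (MvPolynomial ι ℝ)) * P) x y) =
      ∑ w, D x w * EE (P w y) := by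
    intro x y
    simp only [Matrix.mul_apply, Matrix.map_apply, map_sum]
    refine Finset.sum_congr rfl fun w _ => ?_
    rw [MvPolynomial.C_mul', map_smul, smul_eq_mul]
  simp only [h1, Matrix.vecMul, dotProduct, Finset.mul_sum, Finset.sum_mul]
  calc ∑ x, ∑ y, ∑ w, u x * (D x w * EE (P w y)) * v y
      = ∑ x, ∑ w, ∑ y, u x * (D x w * EE (P w y)) * v y := by
        refine Finset.sum_congr rfl fun x _ => ?_
        rw [Finset.sum_comm]
    _ = ∑ w, ∑ x, ∑ y, u x * (D x w * EE (P w y)) * v y := Finset.sum_comm
    _ = ∑ w, ∑ y, ∑ x, u x * D x w * EE (P w y) * v y := by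
        refine Finset.sum_congr rfl fun w _ => ?_
        rw [Finset.sum_comm]
        refine Finset.sum_congr rfl fun y _ => Finset.sum_congr rfl fun x _ => ?_
        ring

end key
end Pool.Agent.U868.KI
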