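import Mathlib
import Pool.Agent.U868.KI.B

set_option autoImplicit false
set_option linter.unusedSectionVars false
open MeasureTheory ProbabilityTheory Filter
open scoped Matrix Kronecker

namespace Pool.Agent.U868.KI

/-- squared norm -/
def sq {κ : Type} [Fintype κ] (u : κ → ℝ) : ℝ := ∑ x, u x ^ 2

theorem sq_nonneg' {κ : Type} [Fintype κ] (u : κ → ℝ) : 0 ≤ sq u :=
  Finset.sum_nonneg fun _ _ => sq_nonneg _

section key
variable {ι : Type} [Fintype ι] [DecidableEq ι]

/-- block diagonal copies -/
def liftM {κ : Type} {R : Type} [Zero R] (P : Matrix κ κ R) :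
    Matrix (κ × Option ι) (κ × Option ι) R :=
  Matrix.of fun p q => if p.2 = q.2 then P p.1 q.1 else 0

section
variable {κ : Type} [Fintype κ] [DecidableEq κ] {R : Type} [CommRing R]

theorem liftM_mul (P Q : Matrix κ κ R) :
    (liftM (P * Q) : Matrix (κ × Option ι) (κ × Option ι) R) = liftM P * liftM Q := by
  refine Matrix.ext fun p q => ?_
  simp only [liftM, Matrix.of_apply, Matrix.mul_apply, Fintype.sum_prod_type]
  by_cases h : p.2 = q.2
  · rw [if_pos h]
    refine Finset.sum_congr rfl fun w _ => ?_
    rw [Finset.sum_eq_single p.2]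
    · simp [h]
    · intro o _ ho
      simp [Ne.symm ho]
    · simp
  · rw [if_neg h]
    symm
    refine Finset.sum_eq_zero fun w _ => Finset.sum_eq_zero fun o _ => ?_
    by_cases h1 : p.2 = o
    · subst h1; simp [h]
    · simp [h1]

theorem liftM_one : (liftM (1 : Matrix κ κ R) : Matrix (κ × Option ι) (κ × Option ι) R) = 1 := by
  refine Matrix.ext fun p q => ?_
  simp only [liftM, Matrix.of_apply, Matrix.one_apply, Prod.ext_iff]
  by_cases h : p.2 = q.2 <;> by_cases h1 : p.1 = q.1 <;> simp [h, h1]
end

/-- lifting of an element -/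
def liftE {E κ : Type} : Elt E ι κ → Elt E ι (κ × Option ι)
  | Sum.inl D => Sum.inl (liftM D)
  | Sum.inr p => Sum.inr (p.1, fun i => liftM (p.2 i))

theorem lab_liftE {E κ : Type} (e : Elt E ι κ) : lab (liftE e) = lab e := by
  cases e <;> rfl

theorem zs_liftE {E κ : Type} (L : List (Elt E ι κ)) : zs (L.map liftE) = zs L := by
  unfold zs
  rw [List.filterMap_map]
  congr 1
  funext e
  exact lab_liftE e

variable {κ : Type} [Fintype κ] [DecidableEq κ]

theorem val_liftE {E : Type} (e : Elt E ι κ) : val (liftE e) = liftM (val e) := by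
  cases e with
  | inl D =>
    refine Matrix.ext fun p q => ?_
    simp only [liftE, val, liftM, Matrix.map_apply, Matrix.of_apply]
    split_ifs <;> simp
  | inr a =>
    refine Matrix.ext fun p q => ?_
    simp only [liftE, val, liftM, Wp, Matrix.of_apply]
    split_ifs <;> simp

theorem prodL_liftE {E : Type} (L : List (Elt E ι κ)) : prodL (L.map liftE) = liftM (prodL L) := by
  induction L with
  | nil => simp [prodL, liftM_one]
  | cons e L ih =>
    have h1 : prodL ((e :: L).map liftE) = val (liftE e) * prodL (L.map liftE) := by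
      simp [prodL]
    have h2 : prodL (e :: L) = val e * prodL L := by simp [prodL]
    rw [h1, h2, ih, val_liftE, liftM_mul]

/-- creation matrix -/
def crM (b : ι → Matrix κ κ ℝ) : Matrix (κ × Option ι) (κ × Option ι) ℝ :=
  Matrix.of fun p q => match p.2, q.2 with
    | some i, none => b i p.1 q.1
    | _, _ => 0

/-- lifted left vector -/
def uL (w : ι → κ → ℝ) : κ × Option ι → ℝ := fun p => match p.2 with
  | some i => w i p.1
  | none => 0

/-- lifted right vector -/
def vL (v : κ → ℝ) : κ × Option ι → ℝ := fun p => match p.2 with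
  | some _ => 0
  | none => v p.1

theorem sq_uL (w : ι → κ → ℝ) : sq (uL w) = ∑ i, sq (w i) := by
  unfold sq uL
  rw [Fintype.sum_prod_type, Finset.sum_comm]
  rw [Fintype.sum_option]
  simp

theorem sq_vL (v : κ → ℝ) : sq (vL (ι := ι) v) = sq v := by
  unfold sq vL
  rw [Fintype.sum_prod_type, Finset.sum_comm]
  rw [Fintype.sum_option]
  simp

theorem entry (P Q : Matrix κ κ (MvPolynomial ι ℝ)) (b : ι → Matrix κ κ ℝ) (x y : κ) (i : ι) :
    (liftM P * (((crM b).map MvPolynomial.C :
      Matrix (κ × Option ι) (κ × Option ι) (MvPolynomial ι ℝ)) * liftM Q) :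
      Matrix (κ × Option ι) (κ × Option ι) (MvPolynomial ι ℝ)) (x, some i) (y, none) =
      (P * (((b i).map MvPolynomial.C : Matrix κ κ (MvPolynomial ι ℝ)) * Q)) x y := by
  simp only [liftM, crM, Matrix.mul_apply, Matrix.of_apply, Matrix.map_apply,
    Fintype.sum_prod_type, Fintype.sum_option]
  refine Finset.sum_congr rfl fun w _ => ?_
  simp

theorem EF_lift (P Q : Matrix κ κ (MvPolynomial ι ℝ)) (b : ι → Matrix κ κ ℝ)
    (w : ι → κ → ℝ) (v : κ → ℝ) :
    EF (uL w) (vL v) (liftM P * (((crM b).map MvPolynomial.C :
      Matrix (κ × Option ι) (κ × Option ι) (MvPolynomial ι ℝ)) * liftM Q)) =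
      ∑ i, EF (w i) v (P * (((b i).map MvPolynomial.C : Matrix κ κ (MvPolynomial ι ℝ)) * Q)) := by
  unfold EF
  rw [Fintype.sum_prod_type, Finset.sum_comm, Fintype.sum_option]
  simp only [Fintype.sum_prod_type, Fintype.sum_option, entry]
  simp [uL, vL]

variable {E : Type}

/-- contraction conditions for a family -/
structure GoodFam (S : ι → E → Prop) (z : E) (a : ι → Matrix κ κ ℝ) : Prop where
  row : ∀ u : κ → ℝ, ∑ i, sq (u ᵥ* a i) ≤ sq u
  col : ∀ u : κ → ℝ, ∑ i, sq (a i *ᵥ u) ≤ sq u
  supp : ∀ i, a i ≠ 0 → S i z

/-- contraction conditions for an element -/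
def Good (S : ι → E → Prop) : Elt E ι κ → Prop
  | Sum.inl D => ∀ u : κ → ℝ, sq (u ᵥ* D) ≤ sq u
  | Sum.inr p => GoodFam S p.1 p.2

theorem sq_prod {κ' : Type} [Fintype κ'] (f : κ × κ' → ℝ) : sq f = ∑ o, sq fun x => f (x, o) := by
  unfold sq
  rw [Fintype.sum_prod_type, Finset.sum_comm]

theorem vecMul_liftM (D : Matrix κ κ ℝ) (f : κ × Option ι → ℝ) (o : Option ι) (y : κ) :
    (f ᵥ* liftM D) (y, o) = ((fun x => f (x, o)) ᵥ* D) y := by
  simp only [Matrix.vecMul, dotProduct, liftM, Matrix.of_apply, Fintype.sum_prod_type]
  refine Finset.sum_congr rfl fun x _ => ?_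
  rw [Finset.sum_eq_single o]
  · simp
  · intro o' _ ho; simp [ho]
  · simp

theorem mulVec_liftM (D : Matrix κ κ ℝ) (f : κ × Option ι → ℝ) (o : Option ι) (y : κ) :
    (liftM D *ᵥ f) (y, o) = (D *ᵥ (fun x => f (x, o))) y := by
  simp only [Matrix.mulVec, dotProduct, liftM, Matrix.of_apply, Fintype.sum_prod_type]
  refine Finset.sum_congr rfl fun x _ => ?_
  rw [Finset.sum_eq_single o]
  · simp
  · intro o' _ ho; simp [Ne.symm ho]
  · simp

theorem good_liftE (S : ι → E → Prop) (e : Elt E ι κ) (h : Good S e) : Good S (liftE e) := by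
  cases e with
  | inl D =>
    intro f
    rw [sq_prod, sq_prod f]
    refine Finset.sum_le_sum fun o _ => ?_
    have := h fun x => f (x, o)
    refine le_trans (le_of_eq ?_) this
    congr 1
    funext y
    exact vecMul_liftM D f o y
  | inr a =>
    have h' : GoodFam S a.1 a.2 := h
    refine ⟨fun f => ?_, fun f => ?_, fun i hi => h'.supp i fun h0 => hi ?_⟩
    · rw [sq_prod f]
      simp only [sq_prod (κ := κ) (κ' := Option ι)]
      rw [Finset.sum_comm]
      refine Finset.sum_le_sum fun o _ => ?_
      refine le_trans (le_of_eq ?_) (h'.row fun x => f (x, o))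
      refine Finset.sum_congr rfl fun i _ => ?_
      congr 1
      funext y
      exact vecMul_liftM _ f o y
    · rw [sq_prod f]
      simp only [sq_prod (κ := κ) (κ' := Option ι)]
      rw [Finset.sum_comm]
      refine Finset.sum_le_sum fun o _ => ?_
      refine le_trans (le_of_eq ?_) (h'.col fun x => f (x, o))
      refine Finset.sum_congr rfl fun i _ => ?_
      congr 1
      funext y
      exact mulVec_liftM _ f o y
    · simp only [liftM]
      refine Matrix.ext fun p q => ?_
      simp [h0]

theorem good_crM (S : ι → E → Prop) (b : ι → Matrix κ κ ℝ)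
    (hc : ∀ u : κ → ℝ, ∑ i, sq (b i *ᵥ u) ≤ sq u) : Good S (Sum.inl (crM b) : Elt E ι (κ × Option ι)) := by
  intro f
  -- the vector g = Σ_i b_iᵀ f_i
  set g : κ → ℝ := fun y => ∑ i, ∑ x, f (x, some i) * b i x y with hg
  have h1 : f ᵥ* crM b = vL g := by
    funext p
    obtain ⟨y, o⟩ := p
    simp only [Matrix.vecMul, dotProduct, crM, Matrix.of_apply, Fintype.sum_prod_type, vL]
    cases o with
    | none =>
      simp only [Fintype.sum_option, mul_zero, zero_add, hg]
      exact Finset.sum_comm
    | some j => simp
  rw [h1, sq_vL]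
  have h2 : sq g = ∑ p : κ × ι, f (p.1, some p.2) * (b p.2 *ᵥ g) p.1 := by
    have : sq g = ∑ y, (∑ i, ∑ x, f (x, some i) * b i x y) * g y := by
      unfold sq
      refine Finset.sum_congr rfl fun y _ => ?_
      rw [pow_two]
    rw [this, Fintype.sum_prod_type]
    simp only [Finset.sum_mul, Matrix.mulVec, dotProduct, Finset.mul_sum]
    rw [Finset.sum_comm' (s := Finset.univ) (t := fun _ => Finset.univ) (t' := Finset.univ)
      (s' := fun _ => Finset.univ) (by simp)]
    calc ∑ i, ∑ y, ∑ x, f (x, some i) * b i x y * g y
        = ∑ i, ∑ x, ∑ y, f (x, some i) * b i x y * g y := by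
          refine Finset.sum_congr rfl fun i _ => ?_
          rw [Finset.sum_comm]
      _ = ∑ x, ∑ i, ∑ y, f (x, some i) * b i x y * g y := Finset.sum_comm
      _ = ∑ x, ∑ i, ∑ y, f (x, some i) * (b i x y * g y) := by
          refine Finset.sum_congr rfl fun x _ => Finset.sum_congr rfl fun i _ =>
            Finset.sum_congr rfl fun y _ => by ring
  have h3 : (sq g) ^ 2 ≤ (∑ p : κ × ι, f (p.1, some p.2) ^ 2) *
      ∑ p : κ × ι, (b p.2 *ᵥ g) p.1 ^ 2 := by
    conv_lhs => rw [h2]
    exact Finset.sum_mul_sq_le_sq_mul_sq _ _ _
  have h4 : ∑ p : κ × ι, (b p.2 *ᵥ g) p.1 ^ 2 ≤ sq g := by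
    rw [Fintype.sum_prod_type, Finset.sum_comm]
    exact hc g
  have h5 : ∑ p : κ × ι, f (p.1, some p.2) ^ 2 ≤ sq f := by
    rw [Fintype.sum_prod_type, sq, Fintype.sum_prod_type]
    refine Finset.sum_le_sum fun x _ => ?_
    rw [Fintype.sum_option]
    have := sq_nonneg (f (x, none))
    linarith
  have h0 := sq_nonneg' g
  have h6 := sq_nonneg' f
  by_contra hlt
  push Not at hlt
  have h7 : (sq g) ^ 2 ≤ sq f * sq g := by
    refine h3.trans ?_
    exact mul_le_mul h5 h4 (Finset.sum_nonneg fun _ _ => sq_nonneg _) h6
  nlinarith

theorem dP_prodL (i : ι) (L : List (Elt E ι κ)) : dP i (prodL L) = ((splits L).map fun t =>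
    prodL t.1 * dP i (val t.2.1) * prodL t.2.2).sum := by
  unfold prodL
  exact leibniz (R := Matrix κ κ (MvPolynomial ι ℝ)) (dP i) (dP_one i) (dP_mul i) val L

/-- **Key inequality.** -/
theorem key [Fintype E] [DecidableEq E] (S : ι → E → Prop)
    (hS : ∀ i z z', S i z → S i z' → z = z') (n : ℕ) :
    ∀ (κ : Type) [Fintype κ] [DecidableEq κ] (L : List (Elt E ι κ)), L.length = n →
      (∀ e ∈ L, Good S e) → ∀ (u v : κ → ℝ) (A B : ℝ), 0 ≤ A → 0 ≤ B → sq u ≤ A ^ 2 → sq v ≤ B ^ 2 →
      |EF u v (prodL L)| ≤ A * B * mu (zs L) := by
  induction n with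
  | zero =>
    intro κ _ _ L hL _ u v A B hA hB hu hv
    have : L = [] := List.length_eq_zero_iff.1 hL
    subst this
    have h1 : EF u v (prodL ([] : List (Elt E ι κ))) = ∑ x, u x * v x := by
      unfold EF prodL
      simp only [List.map_nil, List.prod_nil, Matrix.one_apply]
      refine Finset.sum_congr rfl fun x _ => ?_
      rw [Finset.sum_eq_single x]
      · have := EE_C (ι := ι) 1
        simp only [map_one] at this
        simp [this]
      · intro y _ hy
        simp [Ne.symm hy]
      · simp
    have h2 : zs ([] : List (Elt E ι κ)) = [] := rfl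
    rw [h1, h2, mu_nil, mul_one]
    refine abs_le_of_sq_le_sq ?_ (by positivity)
    calc (∑ x, u x * v x) ^ 2 ≤ (∑ x, u x ^ 2) * ∑ x, v x ^ 2 := Finset.sum_mul_sq_le_sq_mul_sq _ _ _
      _ ≤ A ^ 2 * B ^ 2 := mul_le_mul hu hv (sq_nonneg' v) (by positivity)
      _ = (A * B) ^ 2 := by ring
  | succ n ih =>
    intro κ _ _ L hL hG u v A B hA hB hu hv
    cases L with
    | nil => simp at hL
    | cons e L =>
      have hL' : L.length = n := by simpa using hL
      have hGe : Good S e := hG e (by simp)
      have hGL : ∀ e' ∈ L, Good S e' := fun e' he' => hG e' (List.mem_cons_of_mem _ he')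
      have hp : prodL (e :: L) = val e * prodL L := by simp [prodL]
      rw [hp]
      cases e with
      | inl D =>
        have h1 : val (Sum.inl D : Elt E ι κ) = D.map MvPolynomial.C := rfl
        rw [h1, EF_C]
        have h2 : zs (Sum.inl D :: L : List (Elt E ι κ)) = zs L := List.filterMap_cons_none rfl
        rw [h2]
        exact ih κ L hL' hGL _ v A B hA hB ((hGe u).trans hu) hv
      | inr p =>
        obtain ⟨z, a⟩ := p
        have hGa : GoodFam S z a := hGe
        have h1 : val (Sum.inr (z, a) : Elt E ι κ) = Wp a := rfl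
        have h2 : zs (Sum.inr (z, a) :: L : List (Elt E ι κ)) = z :: zs L :=
          List.filterMap_cons_some rfl
        rw [h1, h2, EF_Wp, mu_cons]
        -- Leibniz
        have h3 := fun i => dP_prodL i L
        have h4 : ∑ i, EF (u ᵥ* a i) v (dP i (prodL L)) =
            ((splits L).map fun t => ∑ i, EF (u ᵥ* a i) v
              (prodL t.1 * dP i (val t.2.1) * prodL t.2.2)).sum := by
          have : ∀ i, EF (u ᵥ* a i) v (dP i (prodL L)) = ((splits L).map fun t =>
              EF (u ᵥ* a i) v (prodL t.1 * dP i (val t.2.1) * prodL t.2.2)).sum := by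
            intro i
            rw [h3, EF_sum, List.map_map]
            rfl
          simp only [this]
          induction (splits L) with
          | nil => simp
          | cons t l ihl => simp only [List.map_cons, List.sum_cons, Finset.sum_add_distrib, ihl]
        rw [h4]
        -- bound of each term
        have h5 : ∀ t ∈ splits L, |∑ i, EF (u ᵥ* a i) v
            (prodL t.1 * dP i (val t.2.1) * prodL t.2.2)| ≤ A * B * (match lab t.2.1 with
              | none => 0
              | some c => if c = z then mu (zs t.1 ++ zs t.2.2) else 0) := by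
          intro t ht
          obtain ⟨m1, m2, m3⟩ := mem_splits L t ht
          have hlen := length_splits L t ht
          obtain ⟨L1, c, L2⟩ := t
          simp only at m1 m2 m3 hlen ⊢
          have hGc := hGL c m2
          cases c with
          | inl D =>
            have : ∀ i, dP i (val (Sum.inl D : Elt E ι κ)) = 0 := fun i => dP_C i D
            simp [this, lab, EF_zero]
          | inr q =>
            obtain ⟨c, b⟩ := q
            have hGb : GoodFam S c b := hGc
            have e1 : ∀ i, dP i (val (Sum.inr (c, b) : Elt E ι κ)) = (b i).map MvPolynomial.C :=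
              fun i => dP_Wp i b
            simp only [e1, lab]
            by_cases hcz : c = z
            · rw [if_pos hcz]
              have e2 : ∑ i, EF (u ᵥ* a i) v (prodL L1 * (b i).map MvPolynomial.C * prodL L2) =
                  EF (uL fun i => u ᵥ* a i) (vL v)
                    (prodL (L1.map liftE ++ (Sum.inl (crM b) : Elt E ι (κ × Option ι)) :: L2.map liftE)) := by
                have e3 : prodL (L1.map liftE ++ (Sum.inl (crM b) : Elt E ι (κ × Option ι)) ::
                    L2.map liftE) = liftM (prodL L1) * ((crM b).map MvPolynomial.C *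
                      liftM (prodL L2)) := by
                  rw [← prodL_liftE, ← prodL_liftE]
                  simp [prodL, val]
                rw [e3, EF_lift]
                refine Finset.sum_congr rfl fun i _ => ?_
                rw [Matrix.mul_assoc]
              rw [e2]
              have e4 := ih (κ × Option ι)
                (L1.map liftE ++ (Sum.inl (crM b) : Elt E ι (κ × Option ι)) :: L2.map liftE)
                (by simp only [List.length_append, List.length_cons, List.length_map]; omega)
                (by
                  intro e' he'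
                  rw [List.mem_append, List.mem_cons, List.mem_map, List.mem_map] at he'
                  rcases he' with ⟨e, he, rfl⟩ | rfl | ⟨e, he, rfl⟩
                  · exact good_liftE S e (hGL e (m1 e he))
                  · exact good_crM S b hGb.col
                  · exact good_liftE S e (hGL e (m3 e he)))
                (uL fun i => u ᵥ* a i) (vL v) A B hA hB
                (by rw [sq_uL]; exact (hGa.row u).trans hu) (by rw [sq_vL]; exact hv)
              have e5 : zs (L1.map liftE ++ (Sum.inl (crM b) : Elt E ι (κ × Option ι)) ::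
                  L2.map liftE) = zs L1 ++ zs L2 := by
                have : zs (L1.map liftE ++ (Sum.inl (crM b) : Elt E ι (κ × Option ι)) ::
                  L2.map liftE) = zs (L1.map liftE) ++ zs (L2.map liftE) := by
                  unfold zs
                  rw [List.filterMap_append]
                  congr 1
                rw [this, zs_liftE, zs_liftE]
              rw [e5] at e4
              exact e4
            · rw [if_neg hcz, mul_zero]
              have : ∀ i, EF (u ᵥ* a i) v (prodL L1 * (b i).map MvPolynomial.C * prodL L2) = 0 := by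
                intro i
                by_cases hai : a i = 0
                · rw [hai]
                  simp [EF]
                · have hbi : b i = 0 := by
                    by_contra hbi
                    exact hcz (hS i c z (hGb.supp i hbi) (hGa.supp i hai))
                  rw [hbi]
                  simp [EF]
              simp [this]
        have h6 : ∀ l : List (List (Elt E ι κ) × Elt E ι κ × List (Elt E ι κ)),
            (∀ t ∈ l, |∑ i, EF (u ᵥ* a i) v
            (prodL t.1 * dP i (val t.2.1) * prodL t.2.2)| ≤ A * B * (match lab t.2.1 with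
              | none => 0
              | some c => if c = z then mu (zs t.1 ++ zs t.2.2) else 0)) →
            |(l.map fun t => ∑ i, EF (u ᵥ* a i) v
              (prodL t.1 * dP i (val t.2.1) * prodL t.2.2)).sum| ≤
              A * B * (l.map fun t => (match lab t.2.1 with
              | none => 0
              | some c => if c = z then mu (zs t.1 ++ zs t.2.2) else 0)).sum := by
          intro l
          induction l with
          | nil => intro _; simp
          | cons t l ihl =>
            intro ht
            simp only [List.map_cons, List.sum_cons, mul_add]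
            refine (abs_add_le _ _).trans (add_le_add (ht t (by simp)) ?_)
            exact ihl fun t' ht' => ht t' (List.mem_cons_of_mem _ ht')
        refine (h6 _ h5).trans (le_of_eq ?_)
        congr 1
        exact zs_splits L (fun l1 c l2 => if c = z then mu (l1 ++ l2) else 0)

end key
end Pool.Agent.U868.KI
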