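import Mathlib
import Pool.Agent.U868.KI.K

set_option autoImplicit false
set_option linter.unusedSectionVars false
open MeasureTheory ProbabilityTheory Filter
open scoped Matrix

namespace Pool.Agent.U868.KI

section walk
variable {ι : Type} [Fintype ι] [DecidableEq ι]
variable {E : Type} [Fintype E] [DecidableEq E]
variable {κ : Type} [Fintype κ] [DecidableEq κ]
variable {V : Type} [Fintype V] [DecidableEq V]

/-- the block matrix -/
noncomputable def Hb (a : V → V → ι → Matrix κ κ ℝ) : Matrix (V × κ) (V × κ) (MvPolynomial ι ℝ) :=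
  Matrix.of fun p q => Wp (a p.1 q.1) p.2 q.2

/-- the scalar comparison matrix -/
noncomputable def YY (z : V → V → E) : Matrix V V (MvPolynomial E ℝ) :=
  Matrix.of fun v w => MvPolynomial.X (z v w)

/-- blocks of the powers -/
noncomputable def blk (a : V → V → ι → Matrix κ κ ℝ) (m : ℕ) (v w : V) :
    Matrix κ κ (MvPolynomial ι ℝ) :=
  Matrix.of fun x y => (Hb a ^ m) (v, x) (w, y)

theorem blk_zero (a : V → V → ι → Matrix κ κ ℝ) (v w : V) :
    blk a 0 v w = if v = w then 1 else 0 := by
  refine Matrix.ext fun x y => ?_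
  simp only [blk, Matrix.of_apply, pow_zero, Matrix.one_apply, Prod.ext_iff]
  by_cases h : v = w <;> simp [h, Matrix.one_apply]

theorem blk_succ (a : V → V → ι → Matrix κ κ ℝ) (m : ℕ) (v w : V) :
    blk a (m + 1) v w = ∑ t, Wp (a v t) * blk a m t w := by
  refine Matrix.ext fun x y => ?_
  simp only [blk, Matrix.of_apply, pow_succ', Matrix.mul_apply, Fintype.sum_prod_type,
    Matrix.sum_apply]
  refine Finset.sum_congr rfl fun t _ => Finset.sum_congr rfl fun s _ => ?_
  rfl

theorem EF_fsum {T : Type} [Fintype T] (u v : κ → ℝ) (f : T → Matrix κ κ (MvPolynomial ι ℝ)) :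
    EF u v (∑ t, f t) = ∑ t, EF u v (f t) := by
  classical
  induction (Finset.univ : Finset T) using Finset.induction_on with
  | empty => simp [EF_zero]
  | insert a s ha ih => rw [Finset.sum_insert ha, Finset.sum_insert ha, EF_add, ih]

theorem walk (S : ι → E → Prop) (hS : ∀ i z z', S i z → S i z' → z = z')
    (a : V → V → ι → Matrix κ κ ℝ) (z : V → V → E) (ha : ∀ v w, GoodFam S (z v w) (a v w)) (m : ℕ) :
    ∀ (L : List (Elt E ι κ)), (∀ e ∈ L, Good S e) → ∀ (v w : V) (u u' : κ → ℝ) (A B : ℝ),
      0 ≤ A → 0 ≤ B → sq u ≤ A ^ 2 → sq u' ≤ B ^ 2 →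
      |EF u u' (prodL L * blk a m v w)| ≤
        A * B * EE (((zs L).map fun z => (MvPolynomial.X z : MvPolynomial E ℝ)).prod * (YY z ^ m) v w) := by
  induction m with
  | zero =>
    intro L hL v w u u' A B hA hB hu hu'
    rw [blk_zero, pow_zero, Matrix.one_apply]
    by_cases h : v = w
    · rw [if_pos h, if_pos h, mul_one, mul_one]
      exact key S hS L.length κ L rfl hL u u' A B hA hB hu hu'
    · rw [if_neg h, if_neg h, mul_zero, mul_zero, EF_zero]
      simp
  | succ m ih =>
    intro L hL v w u u' A B hA hB hu hu'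
    rw [blk_succ, Finset.mul_sum, EF_fsum]
    have h1 : ((zs L).map fun z => (MvPolynomial.X z : MvPolynomial E ℝ)).prod * (YY z ^ (m + 1)) v w =
        ∑ t, ((zs (L ++ [(Sum.inr (z v t, a v t) : Elt E ι κ)])).map
          fun z => (MvPolynomial.X z : MvPolynomial E ℝ)).prod * (YY z ^ m) t w := by
      rw [pow_succ', Matrix.mul_apply, Finset.mul_sum]
      refine Finset.sum_congr rfl fun t _ => ?_
      have : zs (L ++ [(Sum.inr (z v t, a v t) : Elt E ι κ)]) = zs L ++ [z v t] := by
        unfold zs
        rw [List.filterMap_append]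
        congr 1
      rw [this]
      simp only [List.map_append, List.prod_append, List.map_cons, List.map_nil, List.prod_cons,
        List.prod_nil, mul_one, YY, Matrix.of_apply]
      ring
    rw [h1, map_sum, Finset.mul_sum]
    refine (Finset.abs_sum_le_sum_abs _ _).trans (Finset.sum_le_sum fun t _ => ?_)
    have h2 : prodL L * (Wp (a v t) * blk a m t w) =
        prodL (L ++ [(Sum.inr (z v t, a v t) : Elt E ι κ)]) * blk a m t w := by
      rw [← mul_assoc]
      congr 1
      simp [prodL, val]
    rw [h2]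
    refine ih _ ?_ t w u u' A B hA hB hu hu'
    intro e he
    rw [List.mem_append, List.mem_singleton] at he
    rcases he with he | rfl
    · exact hL e he
    · exact ha v t

theorem sq_single (x : κ) : sq (Pi.single x (1 : ℝ) : κ → ℝ) = 1 := by
  unfold sq
  rw [Finset.sum_eq_single x]
  · simp
  · intro y _ hy; simp [hy]
  · simp

theorem EF_single (x : κ) (P : Matrix κ κ (MvPolynomial ι ℝ)) :
    EF (Pi.single x 1) (Pi.single x 1) P = EE (P x x) := by
  unfold EF
  rw [Finset.sum_eq_single x]
  · rw [Finset.sum_eq_single x]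
    · simp
    · intro y _ hy; simp [hy]
    · simp
  · intro y _ hy; simp [hy]
  · simp

/-- the trace moments of the block matrix are dominated by those of the scalar matrix -/
theorem trace_bound (S : ι → E → Prop) (hS : ∀ i z z', S i z → S i z' → z = z')
    (a : V → V → ι → Matrix κ κ ℝ) (z : V → V → E) (ha : ∀ v w, GoodFam S (z v w) (a v w)) (m : ℕ) :
    EE (Matrix.trace (Hb a ^ m)) ≤ Fintype.card κ * EE (Matrix.trace (YY z ^ m)) := by
  have h1 : Matrix.trace (Hb a ^ m) = ∑ v, ∑ x, blk a m v v x x := by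
    simp only [Matrix.trace, Matrix.diag, Fintype.sum_prod_type, blk, Matrix.of_apply]
  rw [h1, map_sum, Matrix.trace, map_sum, Finset.mul_sum]
  refine Finset.sum_le_sum fun v _ => ?_
  rw [map_sum]
  have h2 : ∀ x : κ, EE (blk a m v v x x) ≤ EE ((YY z ^ m) v v) := by
    intro x
    have h3 := walk S hS a z ha m [] (by simp) v v (Pi.single x 1) (Pi.single x 1) 1 1 (by norm_num)
      (by norm_num) (by rw [sq_single]; norm_num) (by rw [sq_single]; norm_num)
    have h4 : prodL ([] : List (Elt E ι κ)) * blk a m v v = blk a m v v := by simp [prodL]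
    have h5 : zs ([] : List (Elt E ι κ)) = [] := rfl
    rw [h4, h5, EF_single] at h3
    simp only [List.map_nil, List.prod_nil, one_mul] at h3
    exact (le_abs_self _).trans h3
  calc ∑ x, EE (blk a m v v x x) ≤ ∑ _x : κ, EE ((YY z ^ m) v v) := Finset.sum_le_sum fun x _ => h2 x
    _ = Fintype.card κ * EE ((YY z ^ m).diag v) := by
        rw [Finset.sum_const, Finset.card_univ, nsmul_eq_mul]
        rfl

end walk
end Pool.Agent.U868.KI
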