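import Mathlib
import Pool.Agent.U868.KI.C

set_option autoImplicit false
set_option linter.unusedSectionVars false
open MeasureTheory ProbabilityTheory Filter
open scoped Matrix RealInnerProductSpace

namespace Pool.Agent.U868.KI

section lin
variable {ι : Type} [Fintype ι] [DecidableEq ι]

theorem EE_mono {P Q : MvPolynomial ι ℝ}
    (h : ∀ ω : ι → ℝ, MvPolynomial.eval ω P ≤ MvPolynomial.eval ω Q) : EE P ≤ EE Q :=
  integral_mono (int_eval P) (int_eval Q) h

/-- linear form -/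
noncomputable def lf (c : ι → ℝ) : MvPolynomial ι ℝ := ∑ i, MvPolynomial.C (c i) * MvPolynomial.X i

theorem pderiv_lf (c : ι → ℝ) (i : ι) : MvPolynomial.pderiv i (lf c) = MvPolynomial.C (c i) := by
  unfold lf
  rw [map_sum, Finset.sum_eq_single i]
  · rw [Derivation.leibniz]; simp
  · intro j _ hj
    rw [Derivation.leibniz]
    simp [MvPolynomial.pderiv_X_of_ne hj]
  · simp

theorem EE_lf_succ (c : ι → ℝ) (m : ℕ) :
    EE (lf c ^ (m + 2)) = (m + 1) * sq c * EE (lf c ^ m) := by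
  have h1 : lf c ^ (m + 2) = ∑ i, c i • (MvPolynomial.X i * lf c ^ (m + 1)) := by
    rw [pow_succ' (lf c) (m + 1)]
    conv_lhs => rw [show lf c * lf c ^ (m + 1) = (∑ i, MvPolynomial.C (c i) * MvPolynomial.X i) *
      lf c ^ (m + 1) from rfl]
    rw [Finset.sum_mul]
    refine Finset.sum_congr rfl fun i _ => ?_
    rw [← MvPolynomial.C_mul']; ring
  rw [h1, map_sum]
  have h2 : ∀ i, EE (c i • (MvPolynomial.X i * lf c ^ (m + 1))) =
      (m + 1) * c i ^ 2 * EE (lf c ^ m) := by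
    intro i
    rw [map_smul, EE_stein]
    have : MvPolynomial.pderiv i (lf c ^ (m + 1)) = ((m + 1) * c i) • lf c ^ m := by
      rw [Derivation.leibniz_pow, pderiv_lf, ← MvPolynomial.C_mul']
      simp only [Nat.add_sub_cancel, smul_eq_mul, nsmul_eq_mul, map_mul, map_add, map_natCast, map_one,
        Nat.cast_add, Nat.cast_one]
      ring
    rw [this, map_smul, smul_eq_mul, smul_eq_mul]
    ring
  simp only [h2]
  rw [← Finset.sum_mul, ← Finset.mul_sum]
  rfl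

theorem EE_lf_bound (c : ι → ℝ) (K : ℝ) (Q : ℕ) (hK : sq c ≤ K) (q : ℕ) (hq : q ≤ Q) :
    EE (lf c ^ (2 * q)) ≤ (2 * Q * K) ^ q := by
  induction q with
  | zero =>
    have := EE_C (ι := ι) 1
    simp only [map_one] at this
    simp [this]
  | succ q ih =>
    have h1 := ih (by omega)
    have h0 := sq_nonneg' c
    rw [show 2 * (q + 1) = 2 * q + 2 by ring, EE_lf_succ, pow_succ']
    have h2 : (((2 * q : ℕ) : ℝ) + 1) * sq c ≤ 2 * Q * K := by
      have h3 : (((2 * q : ℕ) : ℝ) + 1) ≤ 2 * Q := by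
        have : ((q : ℝ) + 1) ≤ Q := by exact_mod_cast hq
        push_cast; linarith
      have h4 : (0 : ℝ) ≤ 2 * Q := by positivity
      exact mul_le_mul h3 hK h0 h4
    have h5 : 0 ≤ EE (lf c ^ (2 * q)) := by
      have := EE_mono (P := (0 : MvPolynomial ι ℝ)) (Q := lf c ^ (2 * q)) (fun ω => by
        rw [map_zero, map_pow, pow_mul]; positivity)
      simpa using this
    exact mul_le_mul h2 h1 h5 (by
      have : (0:ℝ) ≤ K := h0.trans hK
      positivity)
end lin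

/-- a finite net of the ball of radius 2 -/
theorem exists_net (V : Type) [Fintype V] [DecidableEq V] :
    ∃ s : Finset (EuclideanSpace ℝ V), (∀ c ∈ s, ‖c‖ ≤ 2) ∧ s.card ≤ 5 ^ Fintype.card V ∧
      ∀ x : EuclideanSpace ℝ V, ‖x‖ ≤ 2 → ∃ c ∈ s, ‖x - c‖ < 1 := by
  classical
  let F := fun s : Finset (EuclideanSpace ℝ V) => (∀ c ∈ s, ‖c‖ ≤ 2) ∧
    ∀ c ∈ s, ∀ d ∈ s, c ≠ d → 1 ≤ ‖c - d‖
  have hF : ∀ s, F s → s.card ≤ 5 ^ Fintype.card V := by
    intro s hs
    have := Besicovitch.card_le_of_separated s hs.1 hs.2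
    simpa using this
  have hex : ∃ n, ∃ s, F s ∧ s.card = n := ⟨0, ∅, ⟨by simp, by simp⟩, by simp⟩
  have hbd : ∀ n, (∃ s, F s ∧ s.card = n) → n ≤ 5 ^ Fintype.card V := by
    rintro n ⟨s, hs, rfl⟩
    exact hF s hs
  obtain ⟨n, ⟨s, hs, hsn⟩, hmax⟩ : ∃ n, (∃ s, F s ∧ s.card = n) ∧
      ∀ m, (∃ s, F s ∧ s.card = m) → m ≤ n := by
    refine ⟨Nat.findGreatest (fun n => ∃ s, F s ∧ s.card = n) (5 ^ Fintype.card V), ?_, ?_⟩
    · exact Nat.findGreatest_spec (P := fun n => ∃ s, F s ∧ s.card = n) (m := 0) (Nat.zero_le _)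
        ⟨∅, ⟨by simp, by simp⟩, by simp⟩
    · intro m hm
      exact Nat.le_findGreatest (hbd m hm) hm
  refine ⟨s, hs.1, hF s hs, fun x hx => ?_⟩
  by_contra hcon
  push Not at hcon
  have hx : x ∉ s := by
    intro hxs
    have := hcon x hxs
    simp at this
    linarith
  have h1 : F (insert x s) := by
    refine ⟨?_, ?_⟩
    · intro c hc
      rcases Finset.mem_insert.1 hc with rfl | hc
      · assumption
      · exact hs.1 c hc
    · intro c hc d hd hcd
      rcases Finset.mem_insert.1 hc with h1 | hc' <;> rcases Finset.mem_insert.1 hd with h2 | hd'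
      · exact absurd (h1.trans h2.symm) hcd
      · rw [h1]; exact hcon d hd'
      · rw [norm_sub_rev, h2]; exact hcon c hc'
      · exact hs.2 c hc' d hd' hcd
  have h2 := hmax _ ⟨_, h1, rfl⟩
  rw [Finset.card_insert_of_notMem hx] at h2
  omega

theorem norm_le_net {V : Type} [Fintype V] [DecidableEq V] (s : Finset (EuclideanSpace ℝ V))
    (h : ∀ x : EuclideanSpace ℝ V, ‖x‖ ≤ 2 → ∃ c ∈ s, ‖x - c‖ < 1)
    (T : EuclideanSpace ℝ V →L[ℝ] EuclideanSpace ℝ V) : ∃ c ∈ s, ∃ d ∈ s, ‖T‖ ≤ ⟪d, T c⟫ := by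
  have hne : s.Nonempty := by
    obtain ⟨c, hc, _⟩ := h 0 (by simp)
    exact ⟨c, hc⟩
  obtain ⟨c, hc, hmax⟩ := Finset.exists_max_image s (fun c => ‖T c‖) hne
  have h1 : ‖T‖ ≤ ‖T c‖ := by
    have h2 : ‖T‖ ≤ (‖T c‖ + ‖T‖) / 2 := by
      refine T.opNorm_le_bound (by positivity) fun x => ?_
      by_cases hx : x = 0
      · simp [hx]
      have hx0 : 0 < ‖x‖ := norm_pos_iff.2 hx
      obtain ⟨d, hd, hdx⟩ := h ((2 / ‖x‖) • x) (by
        rw [norm_smul, Real.norm_of_nonneg (by positivity)]; field_simp; rfl)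
      have h3 : ‖T ((2 / ‖x‖) • x)‖ ≤ ‖T c‖ + ‖T‖ := by
        have h4 : T ((2 / ‖x‖) • x) = T d + T ((2 / ‖x‖) • x - d) := by
          rw [← map_add]; congr 1; abel
        rw [h4]
        refine (norm_add_le _ _).trans (add_le_add (hmax d hd) ?_)
        refine (T.le_opNorm _).trans ?_
        have := norm_nonneg T
        nlinarith
      rw [map_smul, norm_smul, Real.norm_of_nonneg (by positivity)] at h3
      have h5 : ‖T x‖ = (‖x‖ / 2) * (2 / ‖x‖ * ‖T x‖) := by field_simp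
      rw [h5]
      calc ‖x‖ / 2 * (2 / ‖x‖ * ‖T x‖) ≤ ‖x‖ / 2 * (‖T c‖ + ‖T‖) :=
            mul_le_mul_of_nonneg_left h3 (by positivity)
        _ = _ := by ring
    linarith
  refine ⟨c, hc, ?_⟩
  by_cases hw : T c = 0
  · refine ⟨c, hc, ?_⟩
    rw [hw, norm_zero] at h1
    rw [hw, inner_zero_right]; exact h1
  have hw0 : 0 < ‖T c‖ := norm_pos_iff.2 hw
  obtain ⟨d, hd, hdx⟩ := h ((2 / ‖T c‖) • T c) (by
    rw [norm_smul, Real.norm_of_nonneg (by positivity)]; field_simp; rfl)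
  refine ⟨d, hd, h1.trans ?_⟩
  have h6 : ⟪d, T c⟫ = ⟪(2 / ‖T c‖) • T c, T c⟫ - ⟪(2 / ‖T c‖) • T c - d, T c⟫ := by
    rw [inner_sub_left]; ring
  have h7 : ⟪(2 / ‖T c‖) • T c, T c⟫ = 2 * ‖T c‖ := by
    rw [real_inner_smul_left, real_inner_self_eq_norm_sq]; field_simp
  have h8 : ⟪(2 / ‖T c‖) • T c - d, T c⟫ ≤ ‖T c‖ := by
    refine (real_inner_le_norm _ _).trans ?_
    nlinarith
  rw [h6, h7]; linarith

end Pool.Agent.U868.KI
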