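import Mathlib
import Pool.Agent.U868.KI.D

set_option autoImplicit false
set_option linter.unusedSectionVars false
open MeasureTheory ProbabilityTheory Filter
open scoped Matrix RealInnerProductSpace

namespace Pool.Agent.U868.KI

variable {V : Type} [Fintype V] [DecidableEq V]

/-- evaluation of the scalar comparison matrix -/
def Yw (ω : Sym2 V → ℝ) : Matrix V V ℝ := Matrix.of fun v w => ω s(v, w)

theorem eval_trace (ω : Sym2 V → ℝ) (m : ℕ) :
    MvPolynomial.eval ω (Matrix.trace (YY (fun v w : V => s(v, w)) ^ m)) = Matrix.trace (Yw ω ^ m) := by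
  have h1 : Yw ω = (MvPolynomial.eval ω).mapMatrix (YY fun v w : V => s(v, w)) := by
    refine Matrix.ext fun v w => ?_
    simp [Yw, YY]
  rw [h1, ← map_pow, Matrix.trace, Matrix.trace, map_sum]
  rfl

theorem diag_le (A : Matrix V V ℝ) (v : V) : A v v ≤ ‖Matrix.toEuclideanCLM (𝕜 := ℝ) A‖ := by
  have h1 : A v v = ⟪EuclideanSpace.single v (1 : ℝ),
      Matrix.toEuclideanCLM (𝕜 := ℝ) A (EuclideanSpace.single v (1 : ℝ))⟫ := by
    rw [EuclideanSpace.inner_single_left]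
    simp
  rw [h1]
  refine (real_inner_le_norm _ _).trans ?_
  rw [EuclideanSpace.norm_single, norm_one, one_mul]
  refine (ContinuousLinearMap.le_opNorm _ _).trans ?_
  rw [EuclideanSpace.norm_single, norm_one, mul_one]

theorem trace_le (A : Matrix V V ℝ) (m : ℕ) :
    Matrix.trace (A ^ m) ≤ Fintype.card V * ‖Matrix.toEuclideanCLM (𝕜 := ℝ) A‖ ^ m := by
  have h1 : ∀ v, (A ^ m) v v ≤ ‖Matrix.toEuclideanCLM (𝕜 := ℝ) A‖ ^ m := by
    intro v
    refine (diag_le (A ^ m) v).trans ?_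
    rw [map_pow]
    cases m with
    | zero =>
      rw [pow_zero, pow_zero]
      exact ContinuousLinearMap.norm_id_le
    | succ m => exact norm_pow_le' _ (Nat.succ_pos m)
  calc Matrix.trace (A ^ m) = ∑ v, (A ^ m) v v := rfl
    _ ≤ ∑ _v : V, ‖Matrix.toEuclideanCLM (𝕜 := ℝ) A‖ ^ m := Finset.sum_le_sum fun v _ => h1 v
    _ = _ := by rw [Finset.sum_const, Finset.card_univ, nsmul_eq_mul]

/-- coefficients of the bilinear form -/
noncomputable def cof (c d : EuclideanSpace ℝ V) (z : Sym2 V) : ℝ :=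
  ∑ p : V × V with s(p.1, p.2) = z, d p.1 * c p.2

theorem inner_eq (ω : Sym2 V → ℝ) (c d : EuclideanSpace ℝ V) :
    ⟪d, Matrix.toEuclideanCLM (𝕜 := ℝ) (Yw ω) c⟫ = MvPolynomial.eval ω (lf (cof c d)) := by
  have h1 : ⟪d, Matrix.toEuclideanCLM (𝕜 := ℝ) (Yw ω) c⟫ = ∑ p : V × V, d p.1 * c p.2 * ω s(p.1, p.2) := by
    rw [PiLp.inner_apply, Fintype.sum_prod_type]
    refine Finset.sum_congr rfl fun v _ => ?_
    simp only [RCLike.inner_apply, conj_trivial]
    have : (Matrix.toEuclideanCLM (𝕜 := ℝ) (Yw ω) c) v = ∑ w, ω s(v, w) * c w := by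
      simp [Matrix.mulVec, dotProduct, Yw]
    rw [this, Finset.sum_mul]
    refine Finset.sum_congr rfl fun w _ => by ring
  rw [h1]
  have h2 : MvPolynomial.eval ω (lf (cof c d)) = ∑ z, cof c d z * ω z := by
    simp [lf]
  rw [h2, ← Finset.sum_fiberwise (s := (Finset.univ : Finset (V × V))) (g := fun p => s(p.1, p.2))]
  refine Finset.sum_congr rfl fun z _ => ?_
  rw [cof, Finset.sum_mul]
  refine Finset.sum_congr rfl fun p hp => ?_
  rw [(Finset.mem_filter.1 hp).2]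

theorem sq_cof (c d : EuclideanSpace ℝ V) (hc : ‖c‖ ≤ 2) (hd : ‖d‖ ≤ 2) : sq (cof c d) ≤ 32 := by
  have h1 : ∀ z : Sym2 V, cof c d z ^ 2 ≤
      2 * ∑ p : V × V with s(p.1, p.2) = z, (d p.1 * c p.2) ^ 2 := by
    intro z
    have h2 : (Finset.univ.filter fun p : V × V => s(p.1, p.2) = z).card ≤ 2 := by
      induction z using Sym2.ind with
      | _ a b =>
        refine (Finset.card_le_card (t := {(a, b), (b, a)}) ?_).trans Finset.card_le_two
        intro p hp
        have := (Finset.mem_filter.1 hp).2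
        rw [Sym2.eq_iff] at this
        rw [Finset.mem_insert, Finset.mem_singleton]
        rcases this with ⟨h, h'⟩ | ⟨h, h'⟩
        · left; exact Prod.ext h h'
        · right; exact Prod.ext h h'
    have h3 := sq_sum_le_card_mul_sum_sq (s := Finset.univ.filter fun p : V × V => s(p.1, p.2) = z)
      (f := fun p => d p.1 * c p.2)
    refine h3.trans ?_
    refine mul_le_mul_of_nonneg_right (by exact_mod_cast h2) (Finset.sum_nonneg fun _ _ => sq_nonneg _)
  have h4 : sq (cof c d) ≤ 2 * ∑ p : V × V, (d p.1 * c p.2) ^ 2 := by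
    unfold sq
    refine (Finset.sum_le_sum fun z _ => h1 z).trans (le_of_eq ?_)
    rw [← Finset.mul_sum, Finset.sum_fiberwise]
  have h5 : ∑ p : V × V, (d p.1 * c p.2) ^ 2 = ‖d‖ ^ 2 * ‖c‖ ^ 2 := by
    rw [EuclideanSpace.norm_sq_eq, EuclideanSpace.norm_sq_eq, Fintype.sum_prod_type, Finset.sum_mul]
    refine Finset.sum_congr rfl fun v _ => ?_
    rw [Finset.mul_sum]
    refine Finset.sum_congr rfl fun w _ => ?_
    rw [Real.norm_eq_abs, Real.norm_eq_abs, sq_abs, sq_abs]; ring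
  rw [h5] at h4
  have h6 : ‖d‖ ^ 2 ≤ 4 := by nlinarith [norm_nonneg d]
  have h7 : ‖c‖ ^ 2 ≤ 4 := by nlinarith [norm_nonneg c]
  have h8 : ‖d‖ ^ 2 * ‖c‖ ^ 2 ≤ 4 * 4 := mul_le_mul h6 h7 (by positivity) (by norm_num)
  linarith

/-- trace moments of the symmetric Gaussian matrix -/
theorem trace_YY (q : ℕ) : EE (Matrix.trace (YY (fun v w : V => s(v, w)) ^ (2 * q))) ≤
    Fintype.card V * 25 ^ Fintype.card V * (64 * q) ^ q := by
  obtain ⟨s, hs2, hscard, hs⟩ := exists_net V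
  set R : MvPolynomial (Sym2 V) ℝ :=
    (Fintype.card V : ℝ) • ∑ c ∈ s, ∑ d ∈ s, lf (cof c d) ^ (2 * q) with hR
  have h1 : EE (Matrix.trace (YY (fun v w : V => s(v, w)) ^ (2 * q))) ≤ EE R := by
    refine EE_mono fun ω => ?_
    rw [eval_trace, hR, MvPolynomial.smul_eval]
    refine (trace_le _ _).trans ?_
    refine mul_le_mul_of_nonneg_left ?_ (by positivity)
    obtain ⟨c, hc, d, hd, hcd⟩ := norm_le_net s hs (Matrix.toEuclideanCLM (𝕜 := ℝ) (Yw ω))
    calc ‖Matrix.toEuclideanCLM (𝕜 := ℝ) (Yw ω)‖ ^ (2 * q)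
        ≤ ⟪d, Matrix.toEuclideanCLM (𝕜 := ℝ) (Yw ω) c⟫ ^ (2 * q) :=
          pow_le_pow_left₀ (norm_nonneg _) hcd _
      _ = (MvPolynomial.eval ω (lf (cof c d))) ^ (2 * q) := by rw [inner_eq]
      _ ≤ ∑ d ∈ s, (MvPolynomial.eval ω (lf (cof c d))) ^ (2 * q) :=
          Finset.single_le_sum (f := fun d => (MvPolynomial.eval ω (lf (cof c d))) ^ (2 * q))
            (fun d _ => by simp only [pow_mul]; positivity) hd
      _ ≤ ∑ c ∈ s, ∑ d ∈ s, (MvPolynomial.eval ω (lf (cof c d))) ^ (2 * q) :=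
          Finset.single_le_sum (f := fun c => ∑ d ∈ s, (MvPolynomial.eval ω (lf (cof c d))) ^ (2 * q))
            (fun c _ => Finset.sum_nonneg fun d _ => by simp only [pow_mul]; positivity) hc
      _ = MvPolynomial.eval ω (∑ c ∈ s, ∑ d ∈ s, lf (cof c d) ^ (2 * q)) := by
          simp only [map_sum, map_pow]
  refine h1.trans ?_
  rw [hR, map_smul, smul_eq_mul]
  have h2 : EE (∑ c ∈ s, ∑ d ∈ s, lf (cof c d) ^ (2 * q)) ≤ 25 ^ Fintype.card V * (64 * q) ^ q := by
    simp only [map_sum]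
    have h3 : ∀ c ∈ s, ∀ d ∈ s, EE (lf (cof c d) ^ (2 * q)) ≤ (64 * q) ^ q := by
      intro c hc d hd
      refine (EE_lf_bound (cof c d) 32 q (sq_cof c d (hs2 c hc) (hs2 d hd)) q le_rfl).trans (le_of_eq ?_)
      congr 1; ring
    calc ∑ c ∈ s, ∑ d ∈ s, EE (lf (cof c d) ^ (2 * q)) ≤ ∑ c ∈ s, ∑ d ∈ s, (64 * (q : ℝ)) ^ q :=
          Finset.sum_le_sum fun c hc => Finset.sum_le_sum fun d hd => h3 c hc d hd
      _ = (s.card : ℝ) * s.card * (64 * (q : ℝ)) ^ q := by
          rw [Finset.sum_const, Finset.sum_const, nsmul_eq_mul, nsmul_eq_mul]; ring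
      _ ≤ 5 ^ Fintype.card V * 5 ^ Fintype.card V * (64 * (q : ℝ)) ^ q := by
          have : (s.card : ℝ) ≤ 5 ^ Fintype.card V := by exact_mod_cast hscard
          gcongr
      _ = _ := by rw [← mul_pow]; norm_num
  calc (Fintype.card V : ℝ) * EE (∑ c ∈ s, ∑ d ∈ s, lf (cof c d) ^ (2 * q)) ≤
      Fintype.card V * (25 ^ Fintype.card V * (64 * q) ^ q) := mul_le_mul_of_nonneg_left h2 (by positivity)
    _ = _ := by ring

end Pool.Agent.U868.KI
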