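import Mathlib
import Pool.Agent.U868.KI.K

set_option autoImplicit false
set_option linter.unusedSectionVars false
open MeasureTheory ProbabilityTheory Filter
open scoped Matrix

namespace Pool.Agent.U868.KI

section pfam
open Classical in
/-- matrix of a relation -/
noncomputable def relM {κ : Type} (P : κ → κ → Prop) : Matrix κ κ ℝ :=
  Matrix.of fun K K' => if P K K' then 1 else 0

variable {ι κ : Type} [Fintype ι] [Fintype κ] [DecidableEq κ]

open Classical in
theorem relM_mulVec (P : κ → κ → Prop) (h1 : ∀ K K1 K2, P K K1 → P K K2 → K1 = K2) (f : κ → ℝ)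
    (K : κ) : (relM P *ᵥ f) K ^ 2 = ∑ K', (if P K K' then f K' ^ 2 else 0) := by
  have e : (relM P *ᵥ f) K = ∑ K', (if P K K' then f K' else 0) := by
    simp only [Matrix.mulVec, dotProduct, relM, Matrix.of_apply, ite_mul, one_mul, zero_mul]
  rw [e]
  by_cases h : ∃ K1, P K K1
  · obtain ⟨K1, hK1⟩ := h
    rw [Finset.sum_eq_single K1, Finset.sum_eq_single K1]
    · simp [hK1]
    · intro K2 _ h2
      rw [if_neg fun h' => h2 (h1 K _ _ h' hK1)]
    · simp
    · intro K2 _ h2
      rw [if_neg fun h' => h2 (h1 K _ _ h' hK1)]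
    · simp
  · push Not at h
    simp [h]

theorem relM_transpose (P : κ → κ → Prop) : (relM P)ᵀ = relM fun K K' => P K' K := by
  refine Matrix.ext fun K K' => ?_
  simp [relM]

open Classical in
theorem pfam_col (P : ι → κ → κ → Prop) (N : ℝ)
    (h1 : ∀ i K K1 K2, P i K K1 → P i K K2 → K1 = K2)
    (h3 : ∀ K', ((Finset.univ.filter fun p : ι × κ => P p.1 p.2 K').card : ℝ) ≤ N) (f : κ → ℝ) :
    ∑ i, sq (relM (P i) *ᵥ f) ≤ N * sq f := by
  unfold sq
  have e1 : ∑ i, ∑ K, (relM (P i) *ᵥ f) K ^ 2 =
      ∑ K', ((Finset.univ.filter fun p : ι × κ => P p.1 p.2 K').card : ℝ) * f K' ^ 2 := by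
    have e2 : ∑ i, ∑ K, (relM (P i) *ᵥ f) K ^ 2 =
        ∑ p : ι × κ, ∑ K', (if P p.1 p.2 K' then f K' ^ 2 else 0) := by
      rw [Fintype.sum_prod_type]
      refine Finset.sum_congr rfl fun i _ => Finset.sum_congr rfl fun K _ => ?_
      exact relM_mulVec (P i) (h1 i) f K
    rw [e2, Finset.sum_comm]
    refine Finset.sum_congr rfl fun K' _ => ?_
    rw [← Finset.sum_filter, Finset.sum_const, nsmul_eq_mul]
  rw [e1, Finset.mul_sum]
  exact Finset.sum_le_sum fun K' _ => mul_le_mul_of_nonneg_right (h3 K') (sq_nonneg _)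

open Classical in
theorem pfam_row (P : ι → κ → κ → Prop) (N : ℝ)
    (h2 : ∀ i K' K1 K2, P i K1 K' → P i K2 K' → K1 = K2)
    (h4 : ∀ K, ((Finset.univ.filter fun p : ι × κ => P p.1 K p.2).card : ℝ) ≤ N) (u : κ → ℝ) :
    ∑ i, sq (u ᵥ* relM (P i)) ≤ N * sq u := by
  have e : ∀ i, u ᵥ* relM (P i) = relM (fun K K' => P i K' K) *ᵥ u := by
    intro i
    rw [show relM (fun K K' => P i K' K) = (relM (P i))ᵀ from (relM_transpose _).symm,
      Matrix.mulVec_transpose]
  simp only [e]
  exact pfam_col (fun i K K' => P i K' K) N (fun i K K1 K2 a b => h2 i K K1 K2 a b) h4 u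

end pfam

section comb
variable {n : ℕ}

/-- an injective code for the `k`-subsets of a set -/
noncomputable def code (k : ℕ) (S A : Finset (Fin n)) : ℕ :=
  if h : A ∈ S.powersetCard k then ((S.powersetCard k).equivFin ⟨A, h⟩ : ℕ) else 0

theorem code_lt {k : ℕ} {S A : Finset (Fin n)} (hS : S.card = 2 * k) (h : A ∈ S.powersetCard k) :
    code k S A < (2 * k).choose k := by
  unfold code
  rw [dif_pos h]
  have h1 := ((S.powersetCard k).equivFin ⟨A, h⟩).2
  exact h1.trans_eq (by rw [Finset.card_powersetCard, hS])

theorem code_inj {k : ℕ} {S A B : Finset (Fin n)} (hA : A ∈ S.powersetCard k)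
    (hB : B ∈ S.powersetCard k) (h : code k S A = code k S B) : A = B := by
  unfold code at h
  rw [dif_pos hA, dif_pos hB] at h
  have h1 := (S.powersetCard k).equivFin.injective (Fin.ext h)
  exact congrArg Subtype.val h1

theorem card_sdiff_of {k : ℕ} {I J : Finset (Fin n)} (hIJ : I.card = J.card)
    (h : (symmDiff I J).card = 2 * k) : (I \ J).card = k ∧ (J \ I).card = k := by
  have h1 : (symmDiff I J).card = (I \ J).card + (J \ I).card := by
    rw [symmDiff_def, Finset.sup_eq_union, Finset.card_union_of_disjoint]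
    exact (disjoint_sdiff_sdiff : Disjoint (I \ J) (J \ I))
  have h2 : (I \ J).card + (I ∩ J).card = I.card := Finset.card_sdiff_add_card_inter I J
  have h3 : (J \ I).card + (J ∩ I).card = J.card := Finset.card_sdiff_add_card_inter J I
  rw [Finset.inter_comm J I] at h3
  omega

theorem sdiff_mem {k : ℕ} {I J : Finset (Fin n)} (hIJ : I.card = J.card)
    (h : (symmDiff I J).card = 2 * k) : I \ J ∈ (symmDiff I J).powersetCard k := by
  rw [Finset.mem_powersetCard]
  refine ⟨?_, (card_sdiff_of hIJ h).1⟩
  rw [symmDiff_def, Finset.sup_eq_union]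
  exact Finset.subset_union_left

/-- the conditions -/
structure Cond (k l j : ℕ) (v w : Fin n) (S K K' : Finset (Fin n)) : Prop where
  hv : v ∉ K
  hw : w ∉ K'
  hK : K.card + 1 = l
  hK' : K'.card + 1 = l
  hS : symmDiff (insert v K) (insert w K') = S
  hc : S.card = 2 * k
  hj : code k S (insert v K \ insert w K') = j
  hmv : (insert v K \ insert w K').min = (v : WithTop (Fin n))
  hmw : (insert w K' \ insert v K).min = (w : WithTop (Fin n))

variable {k l j : ℕ} {v w : Fin n}

theorem Cond.card_eq {S K K' : Finset (Fin n)} (h : Cond k l j v w S K K') :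
    (insert v K).card = (insert w K').card := by
  rw [Finset.card_insert_of_notMem h.hv, Finset.card_insert_of_notMem h.hw, h.hK, h.hK']

theorem Cond.cards {S K K' : Finset (Fin n)} (h : Cond k l j v w S K K') :
    (insert v K \ insert w K').card = k ∧ (insert w K' \ insert v K).card = k :=
  card_sdiff_of h.card_eq (by rw [h.hS, h.hc])

theorem Cond.right_unique {S K K1 K2 : Finset (Fin n)} (h1 : Cond k l j v w S K K1)
    (h2 : Cond k l j v w S K K2) : K1 = K2 := by
  have e : symmDiff (insert v K) (insert w K1) = symmDiff (insert v K) (insert w K2) := by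
    rw [h1.hS, h2.hS]
  have e2 : insert w K1 = insert w K2 := symmDiff_right_injective _ e
  have := congrArg (fun T => T.erase w) e2
  simpa [Finset.erase_insert h1.hw, Finset.erase_insert h2.hw] using this

theorem Cond.left_unique {S K' K1 K2 : Finset (Fin n)} (h1 : Cond k l j v w S K1 K')
    (h2 : Cond k l j v w S K2 K') : K1 = K2 := by
  have e : symmDiff (insert v K1) (insert w K') = symmDiff (insert v K2) (insert w K') := by
    rw [h1.hS, h2.hS]
  have e2 : insert v K1 = insert v K2 := symmDiff_left_injective _ e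
  have := congrArg (fun T => T.erase v) e2
  simpa [Finset.erase_insert h1.hv, Finset.erase_insert h2.hv] using this

theorem Cond.v_mem {S K K' : Finset (Fin n)} (h : Cond k l j v w S K K') :
    v ∈ insert v K \ insert w K' := Finset.mem_of_min h.hmv

theorem Cond.w_mem {S K K' : Finset (Fin n)} (h : Cond k l j v w S K K') :
    w ∈ insert w K' \ insert v K := Finset.mem_of_min h.hmw

theorem recover {I J I2 : Finset (Fin n)} (h1 : I \ J = I2 \ J) (h2 : J \ I = J \ I2) : I = I2 := by
  ext x
  have a := Finset.ext_iff.1 h1 x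
  have b := Finset.ext_iff.1 h2 x
  simp only [Finset.mem_sdiff] at a b
  tauto

open Classical in
theorem count_left (K' : Finset (Fin n)) :
    (Finset.univ.filter fun p : Finset (Fin n) × Finset (Fin n) => Cond k l j v w p.1 p.2 K').card ≤
      n.choose (k - 1) * (l - 1).choose (k - 1) := by
  by_cases hK' : K'.card + 1 = l
  swap
  · rw [Finset.filter_eq_empty_iff.2]
    · simp
    · intro p _ hp
      exact hK' hp.hK'
  have hcard : ((Finset.univ : Finset (Fin n)).powersetCard (k - 1) ×ˢ K'.powersetCard (k - 1)).card =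
      n.choose (k - 1) * (l - 1).choose (k - 1) := by
    rw [Finset.card_product, Finset.card_powersetCard, Finset.card_powersetCard, Finset.card_univ,
      Fintype.card_fin]
    congr 2; omega
  rw [← hcard]
  refine Finset.card_le_card_of_injOn
    (fun p => ((insert v p.2 \ insert w K').erase v, (insert w K' \ insert v p.2).erase w)) ?_ ?_
  · intro p hp
    have h := (Finset.mem_filter.1 (Finset.mem_coe.1 hp)).2
    rw [Finset.mem_coe, Finset.mem_product, Finset.mem_powersetCard, Finset.mem_powersetCard]
    refine ⟨⟨Finset.subset_univ _, ?_⟩, ?_, ?_⟩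
    · rw [Finset.card_erase_of_mem h.v_mem, h.cards.1]
    · intro x hx
      rw [Finset.mem_erase, Finset.mem_sdiff, Finset.mem_insert] at hx
      rcases hx.2.1 with h' | h'
      · exact absurd h' hx.1
      · exact h'
    · rw [Finset.card_erase_of_mem h.w_mem, h.cards.2]
  · intro p hp p' hp' he
    have h := (Finset.mem_filter.1 (Finset.mem_coe.1 hp)).2
    have h' := (Finset.mem_filter.1 (Finset.mem_coe.1 hp')).2
    rw [Prod.ext_iff] at he
    obtain ⟨he1, he2⟩ := he
    simp only at he1 he2
    have e1 : insert v p.2 \ insert w K' = insert v p'.2 \ insert w K' := by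
      rw [← Finset.insert_erase h.v_mem, ← Finset.insert_erase h'.v_mem, he1]
    have e2 : insert w K' \ insert v p.2 = insert w K' \ insert v p'.2 := by
      rw [← Finset.insert_erase h.w_mem, ← Finset.insert_erase h'.w_mem, he2]
    have e3 : insert v p.2 = insert v p'.2 := recover e1 e2
    have e4 : p.2 = p'.2 := by
      have := congrArg (fun T => T.erase v) e3
      simpa [Finset.erase_insert h.hv, Finset.erase_insert h'.hv] using this
    refine Prod.ext ?_ e4
    rw [← h.hS, ← h'.hS, e3]

open Classical in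
theorem count_right (K : Finset (Fin n)) :
    (Finset.univ.filter fun p : Finset (Fin n) × Finset (Fin n) => Cond k l j v w p.1 K p.2).card ≤
      n.choose (k - 1) * (l - 1).choose (k - 1) := by
  by_cases hK : K.card + 1 = l
  swap
  · rw [Finset.filter_eq_empty_iff.2]
    · simp
    · intro p _ hp
      exact hK hp.hK
  have hcard : ((Finset.univ : Finset (Fin n)).powersetCard (k - 1) ×ˢ K.powersetCard (k - 1)).card =
      n.choose (k - 1) * (l - 1).choose (k - 1) := by
    rw [Finset.card_product, Finset.card_powersetCard, Finset.card_powersetCard, Finset.card_univ,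
      Fintype.card_fin]
    congr 2; omega
  rw [← hcard]
  refine Finset.card_le_card_of_injOn
    (fun p => ((insert w p.2 \ insert v K).erase w, (insert v K \ insert w p.2).erase v)) ?_ ?_
  · intro p hp
    have h := (Finset.mem_filter.1 (Finset.mem_coe.1 hp)).2
    rw [Finset.mem_coe, Finset.mem_product, Finset.mem_powersetCard, Finset.mem_powersetCard]
    refine ⟨⟨Finset.subset_univ _, ?_⟩, ?_, ?_⟩
    · rw [Finset.card_erase_of_mem h.w_mem, h.cards.2]
    · intro x hx
      rw [Finset.mem_erase, Finset.mem_sdiff, Finset.mem_insert] at hx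
      rcases hx.2.1 with h' | h'
      · exact absurd h' hx.1
      · exact h'
    · rw [Finset.card_erase_of_mem h.v_mem, h.cards.1]
  · intro p hp p' hp' he
    have h := (Finset.mem_filter.1 (Finset.mem_coe.1 hp)).2
    have h' := (Finset.mem_filter.1 (Finset.mem_coe.1 hp')).2
    rw [Prod.ext_iff] at he
    obtain ⟨he1, he2⟩ := he
    simp only at he1 he2
    have e1 : insert w p.2 \ insert v K = insert w p'.2 \ insert v K := by
      rw [← Finset.insert_erase h.w_mem, ← Finset.insert_erase h'.w_mem, he1]
    have e2 : insert v K \ insert w p.2 = insert v K \ insert w p'.2 := by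
      rw [← Finset.insert_erase h.v_mem, ← Finset.insert_erase h'.v_mem, he2]
    have e3 : insert w p.2 = insert w p'.2 := recover e1 e2
    have e4 : p.2 = p'.2 := by
      have := congrArg (fun T => T.erase w) e3
      simpa [Finset.erase_insert h.hw, Finset.erase_insert h'.hw] using this
    refine Prod.ext ?_ e4
    rw [← h.hS, ← h'.hS, e3]

theorem Cond.vw_unique {v' w' : Fin n} {S K K' K2 K2' : Finset (Fin n)}
    (h : Cond k l j v w S K K') (h' : Cond k l j v' w' S K2 K2') : v = v' ∧ w = w' := by
  have m1 := sdiff_mem h.card_eq (by rw [h.hS, h.hc])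
  have m2 := sdiff_mem h'.card_eq (by rw [h'.hS, h'.hc])
  rw [h.hS] at m1
  rw [h'.hS] at m2
  have e1 := code_inj m1 m2 (h.hj.trans h'.hj.symm)
  have e2 : insert w K' \ insert v K = insert w' K2' \ insert v' K2 := by
    have a : ∀ I J : Finset (Fin n), J \ I = symmDiff I J \ (I \ J) := by
      intro I J
      ext x
      simp only [Finset.mem_sdiff, Finset.mem_symmDiff]
      tauto
    rw [a, a (insert v' K2), h.hS, h'.hS, e1]
  have f1 := h.hmv
  rw [e1, h'.hmv] at f1
  have f2 := h.hmw
  rw [e2, h'.hmw] at f2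
  exact ⟨(WithTop.coe_injective f1).symm, (WithTop.coe_injective f2).symm⟩

end comb
end Pool.Agent.U868.KI
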