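import Mathlib
import Pool.Agent.U868.KI.D2
import Pool.Agent.U868.KI.P

set_option autoImplicit false
set_option linter.unusedSectionVars false
open MeasureTheory ProbabilityTheory Filter
open scoped Matrix

namespace Pool.Agent.U868.KI

section cs
variable {κ : Type} [Fintype κ] [DecidableEq κ]

theorem sq_eq_dot (f : κ → ℝ) : sq f = f ⬝ᵥ f := by
  unfold sq dotProduct
  exact Finset.sum_congr rfl fun x _ => pow_two _

theorem dot_sq_le (f g : κ → ℝ) : (f ⬝ᵥ g) ^ 2 ≤ sq f * sq g := by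
  unfold sq dotProduct
  exact Finset.sum_mul_sq_le_sq_mul_sq _ _ _

theorem cs_step (H : Matrix κ κ ℝ) (hH : Hᵀ = H) (f : κ → ℝ) :
    (f ⬝ᵥ H *ᵥ f) ^ 2 ≤ sq f * (f ⬝ᵥ (H ^ 2) *ᵥ f) := by
  have h1 : f ⬝ᵥ (H ^ 2) *ᵥ f = sq (H *ᵥ f) := by
    rw [sq_eq_dot, pow_two, ← Matrix.mulVec_mulVec, Matrix.dotProduct_mulVec]
    congr 1
    rw [← Matrix.mulVec_transpose, hH]
  rw [h1]
  exact dot_sq_le _ _

theorem cs_iter (m : ℕ) : ∀ (H : Matrix κ κ ℝ), Hᵀ = H → ∀ f : κ → ℝ,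
    (f ⬝ᵥ H *ᵥ f) ^ (2 ^ m) ≤ sq f ^ (2 ^ m - 1) * (f ⬝ᵥ (H ^ (2 ^ m)) *ᵥ f) := by
  induction m with
  | zero => intro H _ f; simp
  | succ m ih =>
    intro H hH f
    have hH2 : (H ^ 2)ᵀ = H ^ 2 := by rw [Matrix.transpose_pow, hH]
    have h1 := ih (H ^ 2) hH2 f
    have h2 := cs_step H hH f
    have h0 := sq_nonneg' f
    calc (f ⬝ᵥ H *ᵥ f) ^ (2 ^ (m + 1)) = ((f ⬝ᵥ H *ᵥ f) ^ 2) ^ (2 ^ m) := by
          rw [← pow_mul, pow_succ' 2 m]
      _ ≤ (sq f * (f ⬝ᵥ (H ^ 2) *ᵥ f)) ^ (2 ^ m) := pow_le_pow_left₀ (sq_nonneg _) h2 _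
      _ = sq f ^ (2 ^ m) * (f ⬝ᵥ (H ^ 2) *ᵥ f) ^ (2 ^ m) := mul_pow _ _ _
      _ ≤ sq f ^ (2 ^ m) * (sq f ^ (2 ^ m - 1) * (f ⬝ᵥ ((H ^ 2) ^ (2 ^ m)) *ᵥ f)) :=
          mul_le_mul_of_nonneg_left h1 (by positivity)
      _ = sq f ^ (2 ^ (m + 1) - 1) * (f ⬝ᵥ (H ^ (2 ^ (m + 1))) *ᵥ f) := by
          rw [← mul_assoc, ← pow_add, ← pow_mul, pow_succ' 2 m]
          congr 2
          have : 1 ≤ 2 ^ m := Nat.one_le_two_pow
          omega

theorem sq_mulVec_le (G : Matrix κ κ ℝ) (hG : Gᵀ = G) (f : κ → ℝ) :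
    sq (G *ᵥ f) ≤ Matrix.trace (G ^ 2) * sq f := by
  have h1 : Matrix.trace (G ^ 2) = ∑ x, ∑ y, G x y ^ 2 := by
    simp only [Matrix.trace, Matrix.diag, pow_two, Matrix.mul_apply]
    refine Finset.sum_congr rfl fun x _ => Finset.sum_congr rfl fun y _ => ?_
    have : G y x = G x y := by
      conv_lhs => rw [← hG]
      rfl
    rw [this]
  rw [h1, Finset.sum_mul]
  unfold sq
  refine Finset.sum_le_sum fun x _ => ?_
  exact Finset.sum_mul_sq_le_sq_mul_sq _ _ _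

theorem quad_le_trace (m : ℕ) (hm : 1 ≤ m) (H : Matrix κ κ ℝ) (hH : Hᵀ = H) (f : κ → ℝ) :
    (f ⬝ᵥ H *ᵥ f) ^ (2 ^ m) ≤ sq f ^ (2 ^ m) * Matrix.trace (H ^ (2 ^ m)) := by
  have h0 := sq_nonneg' f
  have h1 := cs_iter m H hH f
  obtain ⟨m, rfl⟩ : ∃ m', m = m' + 1 := ⟨m - 1, by omega⟩
  have hG : (H ^ (2 ^ m))ᵀ = H ^ (2 ^ m) := by rw [Matrix.transpose_pow, hH]
  have e1 : H ^ (2 ^ (m + 1)) = (H ^ (2 ^ m)) ^ 2 := by rw [← pow_mul, pow_succ]
  have h2 : f ⬝ᵥ (H ^ (2 ^ (m + 1))) *ᵥ f ≤ Matrix.trace (H ^ (2 ^ (m + 1))) * sq f := by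
    rw [e1]
    have : f ⬝ᵥ ((H ^ (2 ^ m)) ^ 2) *ᵥ f = sq ((H ^ (2 ^ m)) *ᵥ f) := by
      rw [sq_eq_dot, pow_two, ← Matrix.mulVec_mulVec, Matrix.dotProduct_mulVec]
      congr 1
      rw [← Matrix.mulVec_transpose, hG]
    rw [this]
    exact sq_mulVec_le _ hG f
  calc (f ⬝ᵥ H *ᵥ f) ^ (2 ^ (m + 1)) ≤ sq f ^ (2 ^ (m + 1) - 1) * (f ⬝ᵥ (H ^ (2 ^ (m + 1))) *ᵥ f) := h1
    _ ≤ sq f ^ (2 ^ (m + 1) - 1) * (Matrix.trace (H ^ (2 ^ (m + 1))) * sq f) :=
        mul_le_mul_of_nonneg_left h2 (by positivity)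
    _ = sq f ^ (2 ^ (m + 1) - 1 + 1) * Matrix.trace (H ^ (2 ^ (m + 1))) := by
        rw [pow_succ]; ring
    _ = _ := by
        congr 2
        have : 1 ≤ 2 ^ (m + 1) := Nat.one_le_two_pow
        omega

end cs

section fam
variable {n : ℕ}

/-- the families -/
noncomputable def fam (k l j : ℕ) (s : ℝ) (v w : Fin n) (S : Finset (Fin n)) :
    Matrix (Finset (Fin n)) (Finset (Fin n)) ℝ :=
  s • (relM (fun K K' => Cond k l j v w S K K') + (relM fun K K' => Cond k l j w v S K K')ᵀ)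

/-- label relation -/
def Srel (k l j : ℕ) (S : Finset (Fin n)) (z : Sym2 (Fin n)) : Prop :=
  ∃ v w K K', z = s(v, w) ∧ Cond k l j v w S K K'

theorem Srel_fun (k l j : ℕ) (S : Finset (Fin n)) (z z' : Sym2 (Fin n)) (h : Srel k l j S z)
    (h' : Srel k l j S z') : z = z' := by
  obtain ⟨v, w, K, K', rfl, hC⟩ := h
  obtain ⟨v', w', K2, K2', rfl, hC'⟩ := h'
  obtain ⟨rfl, rfl⟩ := hC.vw_unique hC'
  rfl

theorem sq_add_le {κ : Type} [Fintype κ] (f g : κ → ℝ) : sq (f + g) ≤ 2 * sq f + 2 * sq g := by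
  unfold sq
  rw [Finset.mul_sum, Finset.mul_sum, ← Finset.sum_add_distrib]
  refine Finset.sum_le_sum fun x _ => ?_
  simp only [Pi.add_apply]
  nlinarith [sq_nonneg (f x - g x)]

theorem sq_smul' {κ : Type} [Fintype κ] (s : ℝ) (f : κ → ℝ) : sq (s • f) = s ^ 2 * sq f := by
  unfold sq
  rw [Finset.mul_sum]
  refine Finset.sum_congr rfl fun x _ => ?_
  simp only [Pi.smul_apply, smul_eq_mul]; ring

theorem good_fam (k l j : ℕ) (s : ℝ)
    (hs : s ^ 2 * (4 * ((n.choose (k - 1) * (l - 1).choose (k - 1) : ℕ) : ℝ)) ≤ 1) (v w : Fin n) :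
    GoodFam (Srel k l j) s(v, w) (fam k l j s v w) := by
  classical
  set N : ℝ := ((n.choose (k - 1) * (l - 1).choose (k - 1) : ℕ) : ℝ) with hN
  have c1 : ∀ v w : Fin n, ∀ f : Finset (Fin n) → ℝ,
      ∑ S, sq (relM (fun K K' => Cond k l j v w S K K') *ᵥ f) ≤ N * sq f := by
    intro v w f
    refine pfam_col (fun S K K' => Cond k l j v w S K K') N
      (fun i K K1 K2 h1 h2 => h1.right_unique h2) (fun K' => ?_) f
    rw [hN]
    exact_mod_cast count_left (k := k) (l := l) (j := j) (v := v) (w := w) K'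
  have c2 : ∀ v w : Fin n, ∀ u : Finset (Fin n) → ℝ,
      ∑ S, sq (u ᵥ* relM (fun K K' => Cond k l j v w S K K')) ≤ N * sq u := by
    intro v w u
    refine pfam_row (fun S K K' => Cond k l j v w S K K') N
      (fun i K' K1 K2 h1 h2 => h1.left_unique h2) (fun K => ?_) u
    rw [hN]
    exact_mod_cast count_right (k := k) (l := l) (j := j) (v := v) (w := w) K
  refine ⟨fun u => ?_, fun u => ?_, fun S hne => ?_⟩
  · have h1 : ∀ S, sq (u ᵥ* fam k l j s v w S) ≤ s ^ 2 *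
        (2 * sq (u ᵥ* relM (fun K K' => Cond k l j v w S K K')) +
          2 * sq (relM (fun K K' => Cond k l j w v S K K') *ᵥ u)) := by
      intro S
      unfold fam
      rw [Matrix.vecMul_smul, sq_smul', Matrix.vecMul_add, Matrix.vecMul_transpose]
      exact mul_le_mul_of_nonneg_left (sq_add_le _ _) (sq_nonneg _)
    calc ∑ S, sq (u ᵥ* fam k l j s v w S) ≤ ∑ S, s ^ 2 *
        (2 * sq (u ᵥ* relM (fun K K' => Cond k l j v w S K K')) +
          2 * sq (relM (fun K K' => Cond k l j w v S K K') *ᵥ u)) :=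
          Finset.sum_le_sum fun S _ => h1 S
      _ = s ^ 2 * (2 * ∑ S, sq (u ᵥ* relM (fun K K' => Cond k l j v w S K K')) +
          2 * ∑ S, sq (relM (fun K K' => Cond k l j w v S K K') *ᵥ u)) := by
          rw [← Finset.mul_sum, Finset.sum_add_distrib, ← Finset.mul_sum, ← Finset.mul_sum]
      _ ≤ s ^ 2 * (2 * (N * sq u) + 2 * (N * sq u)) := by
          refine mul_le_mul_of_nonneg_left ?_ (sq_nonneg _)
          have := c1 w v u
          have := c2 v w u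
          linarith
      _ = (s ^ 2 * (4 * N)) * sq u := by ring
      _ ≤ 1 * sq u := mul_le_mul_of_nonneg_right hs (sq_nonneg' u)
      _ = sq u := one_mul _
  · have h1 : ∀ S, sq (fam k l j s v w S *ᵥ u) ≤ s ^ 2 *
        (2 * sq (relM (fun K K' => Cond k l j v w S K K') *ᵥ u) +
          2 * sq (u ᵥ* relM (fun K K' => Cond k l j w v S K K'))) := by
      intro S
      unfold fam
      rw [Matrix.smul_mulVec, sq_smul', Matrix.add_mulVec, Matrix.mulVec_transpose]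
      exact mul_le_mul_of_nonneg_left (sq_add_le _ _) (sq_nonneg _)
    calc ∑ S, sq (fam k l j s v w S *ᵥ u) ≤ ∑ S, s ^ 2 *
        (2 * sq (relM (fun K K' => Cond k l j v w S K K') *ᵥ u) +
          2 * sq (u ᵥ* relM (fun K K' => Cond k l j w v S K K'))) :=
          Finset.sum_le_sum fun S _ => h1 S
      _ = s ^ 2 * (2 * ∑ S, sq (relM (fun K K' => Cond k l j v w S K K') *ᵥ u) +
          2 * ∑ S, sq (u ᵥ* relM (fun K K' => Cond k l j w v S K K'))) := by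
          rw [← Finset.mul_sum, Finset.sum_add_distrib, ← Finset.mul_sum, ← Finset.mul_sum]
      _ ≤ s ^ 2 * (2 * (N * sq u) + 2 * (N * sq u)) := by
          refine mul_le_mul_of_nonneg_left ?_ (sq_nonneg _)
          have := c1 v w u
          have := c2 w v u
          linarith
      _ = (s ^ 2 * (4 * N)) * sq u := by ring
      _ ≤ 1 * sq u := mul_le_mul_of_nonneg_right hs (sq_nonneg' u)
      _ = sq u := one_mul _
  · by_contra hcon
    apply hne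
    refine Matrix.ext fun K K' => ?_
    have h1 : ¬ Cond k l j v w S K K' := fun h => hcon ⟨v, w, K, K', rfl, h⟩
    have h2 : ¬ Cond k l j w v S K' K := fun h => hcon ⟨w, v, K', K, Sym2.eq_swap, h⟩
    simp [fam, relM, h1, h2]

end fam
end Pool.Agent.U868.KI
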