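import Mathlib
import Pool.Agent.U868.KI.Q

set_option autoImplicit false
set_option linter.unusedSectionVars false
open MeasureTheory ProbabilityTheory Filter
open scoped Matrix

namespace Pool.Agent.U868.KI

variable {n : ℕ}

/-- conditions on a pair of `l`-sets -/
def PC (k l j : ℕ) (I J : Finset (Fin n)) : Prop :=
  I.card = l ∧ J.card = l ∧ (symmDiff I J).card = 2 * k ∧ code k (symmDiff I J) (I \ J) = j

/-- the lifted vector -/
def Psi (ψ : Finset (Fin n) → ℝ) (p : Fin n × Finset (Fin n)) : ℝ :=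
  if p.1 ∈ p.2 then 0 else ψ (insert p.1 p.2)

theorem sq_Psi (l : ℕ) (ψ : Finset (Fin n) → ℝ) (hψ : ∀ I, I.card ≠ l → ψ I = 0) :
    sq (Psi ψ) = l * sq ψ := by
  classical
  have h1 : sq (Psi ψ) = ∑ p ∈ Finset.univ.filter (fun p : Fin n × Finset (Fin n) => p.1 ∉ p.2),
      ψ (insert p.1 p.2) ^ 2 := by
    unfold sq Psi
    rw [Finset.sum_filter]
    refine Finset.sum_congr rfl fun p _ => ?_
    by_cases h : p.1 ∈ p.2 <;> simp [h]
  have h2 : ∑ p ∈ Finset.univ.filter (fun p : Fin n × Finset (Fin n) => p.1 ∉ p.2),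
      ψ (insert p.1 p.2) ^ 2 =
      ∑ p ∈ Finset.univ.filter (fun p : Fin n × Finset (Fin n) => p.1 ∈ p.2), ψ p.2 ^ 2 := by
    refine Finset.sum_bij' (fun p _ => (p.1, insert p.1 p.2)) (fun p _ => (p.1, p.2.erase p.1))
      ?_ ?_ ?_ ?_ ?_
    · intro p hp; simp
    · intro p hp; simp
    · intro p hp
      have := (Finset.mem_filter.1 hp).2
      simp [Finset.erase_insert this]
    · intro p hp
      have := (Finset.mem_filter.1 hp).2
      simp [Finset.insert_erase this]
    · intro p hp; rfl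
  rw [h1, h2, Finset.sum_filter, Fintype.sum_prod_type, Finset.sum_comm]
  unfold sq
  rw [Finset.mul_sum]
  refine Finset.sum_congr rfl fun I _ => ?_
  simp only
  rw [← Finset.sum_filter, Finset.sum_const, nsmul_eq_mul]
  by_cases hI : I.card = l
  · rw [← hI]
    congr 2
    congr 1
    ext x; simp
  · rw [hψ I hI]; simp

open Classical in
theorem quadT (k l j : ℕ) (hk : 1 ≤ k) (Z : Finset (Fin n) → ℝ) (ψ : Finset (Fin n) → ℝ) :
    ∑ p : Fin n × Finset (Fin n), ∑ q : Fin n × Finset (Fin n),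
      Psi ψ p * (∑ S, Z S * (if Cond k l j p.1 q.1 S p.2 q.2 then 1 else 0)) * Psi ψ q =
    ∑ I, ∑ J, if PC k l j I J then Z (symmDiff I J) * ψ I * ψ J else 0 := by
  have h1 : ∀ p q : Fin n × Finset (Fin n),
      Psi ψ p * (∑ S, Z S * (if Cond k l j p.1 q.1 S p.2 q.2 then 1 else 0)) * Psi ψ q =
      if Cond k l j p.1 q.1 (symmDiff (insert p.1 p.2) (insert q.1 q.2)) p.2 q.2 then
        Z (symmDiff (insert p.1 p.2) (insert q.1 q.2)) * ψ (insert p.1 p.2) * ψ (insert q.1 q.2)
      else 0 := by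
    intro p q
    have h2 : (∑ S, Z S * (if Cond k l j p.1 q.1 S p.2 q.2 then (1:ℝ) else 0)) =
        if Cond k l j p.1 q.1 (symmDiff (insert p.1 p.2) (insert q.1 q.2)) p.2 q.2 then
          Z (symmDiff (insert p.1 p.2) (insert q.1 q.2)) else 0 := by
      rw [Finset.sum_eq_single (symmDiff (insert p.1 p.2) (insert q.1 q.2))]
      · split_ifs <;> simp
      · intro S _ hS
        rw [if_neg fun h => hS h.hS.symm, mul_zero]
      · simp
    rw [h2]
    by_cases hC : Cond k l j p.1 q.1 (symmDiff (insert p.1 p.2) (insert q.1 q.2)) p.2 q.2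
    · rw [if_pos hC, if_pos hC]
      simp only [Psi, if_neg hC.hv, if_neg hC.hw]
      ring
    · rw [if_neg hC, if_neg hC]; ring
  simp only [h1]
  rw [← Fintype.sum_prod_type' (f := fun (p q : Fin n × Finset (Fin n)) =>
      if Cond k l j p.1 q.1 (symmDiff (insert p.1 p.2) (insert q.1 q.2)) p.2 q.2 then
        Z (symmDiff (insert p.1 p.2) (insert q.1 q.2)) * ψ (insert p.1 p.2) * ψ (insert q.1 q.2)
      else 0),
    ← Fintype.sum_prod_type' (f := fun (I J : Finset (Fin n)) =>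
      if PC k l j I J then Z (symmDiff I J) * ψ I * ψ J else 0)]
  rw [← Finset.sum_filter, ← Finset.sum_filter]
  refine Finset.sum_bij (fun x _ => (insert x.1.1 x.1.2, insert x.2.1 x.2.2)) ?_ ?_ ?_ ?_
  · intro x hx
    have h := (Finset.mem_filter.1 hx).2
    refine Finset.mem_filter.2 ⟨Finset.mem_univ _, ?_, ?_, h.hc, h.hj⟩
    · change (insert x.1.1 x.1.2).card = l
      rw [Finset.card_insert_of_notMem h.hv, h.hK]
    · change (insert x.2.1 x.2.2).card = l
      rw [Finset.card_insert_of_notMem h.hw, h.hK']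
  · intro x hx y hy hxy
    have h := (Finset.mem_filter.1 hx).2
    have h' := (Finset.mem_filter.1 hy).2
    rw [Prod.ext_iff] at hxy
    obtain ⟨e1, e2⟩ := hxy
    simp only at e1 e2
    have f1 : x.1.1 = y.1.1 := by
      have a := h.hmv
      have b := h'.hmv
      rw [e1, e2, b] at a
      exact (WithTop.coe_injective a).symm
    have f2 : x.2.1 = y.2.1 := by
      have a := h.hmw
      have b := h'.hmw
      rw [e1, e2, b] at a
      exact (WithTop.coe_injective a).symm
    have g1 : x.1.2 = y.1.2 := by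
      rw [← Finset.erase_insert h.hv, ← Finset.erase_insert h'.hv, e1, f1]
    have g2 : x.2.2 = y.2.2 := by
      rw [← Finset.erase_insert h.hw, ← Finset.erase_insert h'.hw, e2, f2]
    exact Prod.ext (Prod.ext f1 g1) (Prod.ext f2 g2)
  · intro y hy
    obtain ⟨I, J⟩ := y
    obtain ⟨c1, c2, c3, c4⟩ : PC k l j I J := (Finset.mem_filter.1 hy).2
    have hcard := card_sdiff_of (c1.trans c2.symm) c3
    have n1 : (I \ J).Nonempty := by rw [← Finset.card_pos, hcard.1]; omega
    have n2 : (J \ I).Nonempty := by rw [← Finset.card_pos, hcard.2]; omega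
    obtain ⟨v, hv⟩ := Finset.min_of_nonempty n1
    obtain ⟨w, hw⟩ := Finset.min_of_nonempty n2
    have mv : v ∈ I := (Finset.mem_sdiff.1 (Finset.mem_of_min hv)).1
    have mw : w ∈ J := (Finset.mem_sdiff.1 (Finset.mem_of_min hw)).1
    have e1 : insert v (I.erase v) = I := Finset.insert_erase mv
    have e2 : insert w (J.erase w) = J := Finset.insert_erase mw
    refine ⟨((v, I.erase v), (w, J.erase w)), Finset.mem_filter.2 ⟨Finset.mem_univ _, ?_⟩, ?_⟩
    · simp only
      rw [e1, e2]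
      refine ⟨by simp, by simp, ?_, ?_, ?_, c3, ?_, ?_, ?_⟩
      · rw [Finset.card_erase_add_one mv, c1]
      · rw [Finset.card_erase_add_one mw, c2]
      · rw [e1, e2]
      · rw [e1, e2]; exact c4
      · rw [e1, e2]; exact hv
      · rw [e1, e2]; exact hw
    · simp only [e1, e2]
  · intro x _; rfl

open Classical in
/-- the full quadratic form is the sum of the pieces -/
theorem quadM (k l : ℕ) (Z : Finset (Fin n) → ℝ) (ψ : Finset (Fin n) → ℝ) :
    ∑ j ∈ Finset.range ((2 * k).choose k),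
      ∑ I, ∑ J, (if PC k l j I J then Z (symmDiff I J) * ψ I * ψ J else 0) =
    ∑ I : Finset (Fin n), ∑ J : Finset (Fin n),
      if I.card = l ∧ J.card = l ∧ (symmDiff I J).card = 2 * k then Z (symmDiff I J) * ψ I * ψ J else 0 := by
  rw [Finset.sum_comm]
  refine Finset.sum_congr rfl fun I _ => ?_
  rw [Finset.sum_comm]
  refine Finset.sum_congr rfl fun J _ => ?_
  by_cases h : I.card = l ∧ J.card = l ∧ (symmDiff I J).card = 2 * k
  · rw [if_pos h]
    obtain ⟨h1, h2, h3⟩ := h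
    rw [Finset.sum_eq_single (code k (symmDiff I J) (I \ J))]
    · rw [if_pos ⟨h1, h2, h3, rfl⟩]
    · intro j _ hj
      rw [if_neg fun h => hj h.2.2.2.symm]
    · intro hc
      exact absurd (Finset.mem_range.2 (code_lt h3 (sdiff_mem (h1.trans h2.symm) h3))) hc
  · rw [if_neg h]
    refine Finset.sum_eq_zero fun j _ => ?_
    rw [if_neg fun hh => h ⟨hh.1, hh.2.1, hh.2.2.1⟩]

/-- evaluation of the block matrix -/
noncomputable def Hw (k l j : ℕ) (s : ℝ) (Z : Finset (Fin n) → ℝ) :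
    Matrix (Fin n × Finset (Fin n)) (Fin n × Finset (Fin n)) ℝ :=
  (MvPolynomial.eval Z).mapMatrix (Hb (fam k l j s))

open Classical in
theorem Hw_apply (k l j : ℕ) (s : ℝ) (Z : Finset (Fin n) → ℝ) (p q : Fin n × Finset (Fin n)) :
    Hw k l j s Z p q = s * ((∑ S, Z S * (if Cond k l j p.1 q.1 S p.2 q.2 then 1 else 0)) +
      ∑ S, Z S * (if Cond k l j q.1 p.1 S q.2 p.2 then 1 else 0)) := by
  simp only [Hw, Hb, Wp, fam, relM, RingHom.mapMatrix_apply, Matrix.map_apply, Matrix.of_apply,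
    map_sum, map_mul, MvPolynomial.eval_X, MvPolynomial.eval_C, Matrix.smul_apply, Matrix.add_apply,
    Matrix.transpose_apply, smul_eq_mul]
  rw [← Finset.sum_add_distrib, Finset.mul_sum]
  refine Finset.sum_congr rfl fun S _ => ?_
  ring

theorem Hw_symm (k l j : ℕ) (s : ℝ) (Z : Finset (Fin n) → ℝ) : (Hw k l j s Z)ᵀ = Hw k l j s Z := by
  classical
  refine Matrix.ext fun p q => ?_
  rw [Matrix.transpose_apply, Hw_apply, Hw_apply, add_comm]

theorem Hw_trace (k l j : ℕ) (s : ℝ) (Z : Finset (Fin n) → ℝ) (m : ℕ) :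
    Matrix.trace (Hw k l j s Z ^ m) = MvPolynomial.eval Z (Matrix.trace (Hb (fam k l j s) ^ m)) := by
  rw [Hw, ← map_pow, Matrix.trace, Matrix.trace, map_sum]
  rfl

open Classical in
theorem quadH (k l j : ℕ) (hk : 1 ≤ k) (s : ℝ) (Z : Finset (Fin n) → ℝ) (ψ : Finset (Fin n) → ℝ) :
    Psi ψ ⬝ᵥ Hw k l j s Z *ᵥ Psi ψ =
      2 * s * ∑ I, ∑ J, if PC k l j I J then Z (symmDiff I J) * ψ I * ψ J else 0 := by
  rw [← quadT k l j hk Z ψ]
  set A : (Fin n × Finset (Fin n)) → (Fin n × Finset (Fin n)) → ℝ := fun p q =>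
    ∑ S, Z S * (if Cond k l j p.1 q.1 S p.2 q.2 then 1 else 0) with hA
  have h1 : Psi ψ ⬝ᵥ Hw k l j s Z *ᵥ Psi ψ =
      ∑ p, ∑ q, (s * (Psi ψ p * A p q * Psi ψ q) + s * (Psi ψ q * A q p * Psi ψ p)) := by
    simp only [dotProduct, Matrix.mulVec, Finset.mul_sum]
    refine Finset.sum_congr rfl fun p _ => Finset.sum_congr rfl fun q _ => ?_
    rw [Hw_apply]
    simp only [hA]
    ring
  rw [h1]
  simp only [Finset.sum_add_distrib]
  have h2 : ∑ p, ∑ q, s * (Psi ψ q * A q p * Psi ψ p) = ∑ p, ∑ q, s * (Psi ψ p * A p q * Psi ψ q) :=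
    Finset.sum_comm
  rw [h2]
  simp only [← Finset.mul_sum]
  ring

end Pool.Agent.U868.KI
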