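import Mathlib
import Pool.Agent.U868.KI.R

set_option autoImplicit false
set_option linter.unusedSectionVars false
open MeasureTheory ProbabilityTheory Filter
open scoped Matrix

namespace Pool.Agent.U868.KI

theorem exists_pow2 (n : ℕ) (hn : 1 ≤ n) : ∃ a : ℕ, n ≤ 2 ^ a ∧ 2 ^ a ≤ 2 * n := by
  refine ⟨Nat.clog 2 n, Nat.le_pow_clog (by norm_num) n, ?_⟩
  rcases Nat.lt_or_ge 1 n with h | h
  · have h1 := Nat.pow_pred_clog_lt_self (b := 2) (by norm_num) h
    have h2 : 0 < Nat.clog 2 n := Nat.clog_pos (by norm_num) h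
    have h3 : 2 ^ Nat.clog 2 n = 2 * 2 ^ (Nat.clog 2 n - 1) := by
      rw [← pow_succ']; congr 1; omega
    rw [h3]
    have : 2 ^ (Nat.clog 2 n - 1) < n := h1
    omega
  · have : n = 1 := by omega
    subst this; simp

variable {n : ℕ}

theorem trace_fam (k l j : ℕ) (s : ℝ) (hn : 1 ≤ n)
    (hs : s ^ 2 * (4 * ((n.choose (k - 1) * (l - 1).choose (k - 1) : ℕ) : ℝ)) ≤ 1)
    (a : ℕ) (ha : n ≤ 2 ^ a) (ha2 : 2 ^ a ≤ 2 * n) :
    EE (Matrix.trace (Hb (fam (n := n) k l j s) ^ (2 ^ (a + 1)))) ≤ (12800 * n : ℝ) ^ (2 ^ a) := by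
  have h1 := trace_bound (Srel (n := n) k l j) (fun S z z' => Srel_fun k l j S z z')
    (fam (n := n) k l j s) (fun v w => s(v, w)) (fun v w => good_fam k l j s hs v w) (2 ^ (a + 1))
  have h2 := trace_YY (V := Fin n) (2 ^ a)
  rw [← pow_succ'] at h2
  have hF : (Fintype.card (Finset (Fin n)) : ℝ) = 2 ^ n := by
    rw [Fintype.card_finset, Fintype.card_fin]; push_cast; rfl
  have hV : (Fintype.card (Fin n) : ℝ) = n := by rw [Fintype.card_fin]
  rw [hF] at h1
  rw [hV, Fintype.card_fin] at h2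
  have h3 : (n : ℝ) ≤ 2 ^ n := by exact_mod_cast Nat.lt_two_pow_self.le
  have hq : (((2 ^ a : ℕ) : ℝ)) ≤ 2 * n := by exact_mod_cast ha2
  calc EE (Matrix.trace (Hb (fam (n := n) k l j s) ^ (2 ^ (a + 1))))
      ≤ 2 ^ n * EE (Matrix.trace (YY (fun v w : Fin n => s(v, w)) ^ (2 ^ (a + 1)))) := h1
    _ ≤ 2 ^ n * ((n : ℝ) * 25 ^ n * (64 * ((2 ^ a : ℕ) : ℝ)) ^ (2 ^ a)) :=
        mul_le_mul_of_nonneg_left h2 (by positivity)
    _ ≤ 2 ^ n * ((2 : ℝ) ^ n * 25 ^ n * (64 * (2 * n)) ^ (2 ^ a)) := by gcongr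
    _ = 100 ^ n * (128 * (n : ℝ)) ^ (2 ^ a) := by
        have e1 : (64 * (2 * (n : ℝ))) = 128 * n := by ring
        have e2 : (100 : ℝ) ^ n = 2 ^ n * 2 ^ n * 25 ^ n := by
          rw [show (100 : ℝ) = 2 * 2 * 25 by norm_num, mul_pow, mul_pow]
        rw [e1, e2]; ring
    _ ≤ 100 ^ (2 ^ a) * (128 * (n : ℝ)) ^ (2 ^ a) := by
        gcongr
        norm_num
    _ = (12800 * n : ℝ) ^ (2 ^ a) := by rw [← mul_pow]; ring

open Classical in
/-- **Norm bound.** The top of the pure noise Kikuchi matrix is dominated by a polynomial in the noise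
with a small mean. -/
theorem norm_bound (k l : ℕ) (hk : 1 ≤ k) (hkl : k ≤ l) (hln : l ≤ n) :
    ∃ B : MvPolynomial (Finset (Fin n)) ℝ,
      (∀ (Z ψ : Finset (Fin n) → ℝ), (∀ I, I.card ≠ l → ψ I = 0) → sq ψ = 1 →
        (∑ I : Finset (Fin n), ∑ J : Finset (Fin n),
          if I.card = l ∧ J.card = l ∧ (symmDiff I J).card = 2 * k then
            Z (symmDiff I J) * ψ I * ψ J else 0) ≤ MvPolynomial.eval Z B) ∧
      EE B ≤ l * (2 * k).choose k *
        Real.sqrt (51200 * (n * ((n.choose (k - 1) * (l - 1).choose (k - 1) : ℕ) : ℝ))) := by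
  have hn : 1 ≤ n := by omega
  set N : ℕ := n.choose (k - 1) * (l - 1).choose (k - 1) with hN
  have hN1 : 1 ≤ N := Nat.mul_pos (Nat.choose_pos (by omega)) (Nat.choose_pos (by omega))
  have hN1' : (0 : ℝ) < N := by exact_mod_cast hN1
  set r : ℝ := Real.sqrt N with hr
  have hr0 : 0 < r := Real.sqrt_pos.2 hN1'
  have hr2 : r ^ 2 = N := Real.sq_sqrt hN1'.le
  set s : ℝ := 1 / (2 * r) with hs
  have hs1 : s ^ 2 * (4 * (N : ℝ)) ≤ 1 := by
    rw [hs, ← hr2]
    apply le_of_eq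
    field_simp
    norm_num
  obtain ⟨a, ha, ha2⟩ := exists_pow2 n hn
  have hn' : (0 : ℝ) < n := by exact_mod_cast hn
  set T : ℝ := Real.sqrt (12800 * n) with hT
  have hT0 : 0 < T := Real.sqrt_pos.2 (by positivity)
  have hT2 : T ^ 2 = 12800 * n := Real.sq_sqrt (by positivity)
  have hTp : T ^ (2 ^ (a + 1)) = (12800 * n : ℝ) ^ (2 ^ a) := by
    rw [pow_succ', pow_mul, hT2]
  set P : ℕ → MvPolynomial (Finset (Fin n)) ℝ := fun j =>
    Matrix.trace (Hb (fam (n := n) k l j s) ^ (2 ^ (a + 1))) with hP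
  have hl0 : (0 : ℝ) < l := by
    have : 0 < l := by omega
    exact_mod_cast this
  refine ⟨(r * l * T) • ∑ j ∈ Finset.range ((2 * k).choose k),
    (1 + (T ^ (2 ^ (a + 1)))⁻¹ • P j), ?_, ?_⟩
  · intro Z ψ hψ hψ1
    rw [← quadM k l Z ψ]
    have hb : ∀ j, (∑ I, ∑ J, (if PC k l j I J then Z (symmDiff I J) * ψ I * ψ J else 0)) ≤
        (r * l * T) * (1 + (T ^ (2 ^ (a + 1)))⁻¹ * MvPolynomial.eval Z (P j)) := by
      intro j
      have h1 := quadH k l j hk s Z ψ
      set x : ℝ := Psi ψ ⬝ᵥ Hw k l j s Z *ᵥ Psi ψ with hx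
      have h2 : (∑ I, ∑ J, (if PC k l j I J then Z (symmDiff I J) * ψ I * ψ J else 0)) = r * x := by
        rw [h1, hs]
        field_simp
      rw [h2]
      have h3 := quad_le_trace (a + 1) (by omega) (Hw k l j s Z) (Hw_symm k l j s Z) (Psi ψ)
      rw [sq_Psi l ψ hψ, hψ1, mul_one, Hw_trace] at h3
      have h3' : x ^ (2 ^ (a + 1)) ≤ (l : ℝ) ^ (2 ^ (a + 1)) * MvPolynomial.eval Z (P j) := h3
      have hPnn : 0 ≤ MvPolynomial.eval Z (P j) := by
        have h4 : 0 ≤ x ^ (2 ^ (a + 1)) := by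
          rw [pow_succ' 2 a, pow_mul]; positivity
        have h5 := h4.trans h3'
        exact nonneg_of_mul_nonneg_right h5 (by positivity)
      have h6 : x ≤ l * T * (1 + (T ^ (2 ^ (a + 1)))⁻¹ * MvPolynomial.eval Z (P j)) := by
        by_cases hxT : x ≤ l * T
        · refine hxT.trans ?_
          have : 0 ≤ (T ^ (2 ^ (a + 1)))⁻¹ * MvPolynomial.eval Z (P j) := by positivity
          have h7 : 0 < (l : ℝ) * T := by positivity
          nlinarith
        · push Not at hxT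
          have h7 : 0 < (l : ℝ) * T := by positivity
          have h8 : 1 ≤ x / (l * T) := by rw [le_div_iff₀ h7]; linarith
          have h9 : x / (l * T) ≤ (x / (l * T)) ^ (2 ^ (a + 1)) :=
            le_self_pow₀ h8 (by positivity)
          have h10 : (x / (l * T)) ^ (2 ^ (a + 1)) ≤ (T ^ (2 ^ (a + 1)))⁻¹ * MvPolynomial.eval Z (P j) := by
            rw [div_pow, mul_pow, div_le_iff₀ (by positivity)]
            calc x ^ (2 ^ (a + 1)) ≤ (l : ℝ) ^ (2 ^ (a + 1)) * MvPolynomial.eval Z (P j) := h3'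
              _ = _ := by field_simp
          have h11 : x = l * T * (x / (l * T)) := by field_simp
          rw [h11]
          refine mul_le_mul_of_nonneg_left ?_ h7.le
          linarith [h9.trans h10]
      calc r * x ≤ r * (l * T * (1 + (T ^ (2 ^ (a + 1)))⁻¹ * MvPolynomial.eval Z (P j))) :=
            mul_le_mul_of_nonneg_left h6 hr0.le
        _ = _ := by ring
    have e : MvPolynomial.eval Z ((r * l * T) • ∑ j ∈ Finset.range ((2 * k).choose k),
        (1 + (T ^ (2 ^ (a + 1)))⁻¹ • P j)) = ∑ j ∈ Finset.range ((2 * k).choose k),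
        (r * l * T) * (1 + (T ^ (2 ^ (a + 1)))⁻¹ * MvPolynomial.eval Z (P j)) := by
      rw [MvPolynomial.smul_eval, map_sum, Finset.mul_sum]
      refine Finset.sum_congr rfl fun j _ => ?_
      rw [map_add, map_one, MvPolynomial.smul_eval]
    rw [e]
    exact Finset.sum_le_sum fun j _ => hb j
  · rw [map_smul, map_sum, smul_eq_mul]
    have h1 : ∀ j ∈ Finset.range ((2 * k).choose k),
        EE (1 + (T ^ (2 ^ (a + 1)))⁻¹ • P j) ≤ 2 := by
      intro j _
      rw [map_add, map_smul, smul_eq_mul]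
      have h2 : EE (1 : MvPolynomial (Finset (Fin n)) ℝ) = 1 := by
        have := EE_C (ι := Finset (Fin n)) 1
        simpa using this
      have h3 : EE (P j) ≤ T ^ (2 ^ (a + 1)) := by
        rw [hTp]
        exact trace_fam k l j s hn hs1 a ha ha2
      have h4 : (T ^ (2 ^ (a + 1)))⁻¹ * EE (P j) ≤ 1 := by
        rw [inv_mul_le_iff₀ (by positivity)]
        linarith
      rw [h2]; linarith
    have h5 : ∑ j ∈ Finset.range ((2 * k).choose k), EE (1 + (T ^ (2 ^ (a + 1)))⁻¹ • P j) ≤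
        (2 * k).choose k * 2 := by
      refine (Finset.sum_le_sum h1).trans (le_of_eq ?_)
      rw [Finset.sum_const, Finset.card_range, nsmul_eq_mul]
    refine (mul_le_mul_of_nonneg_left h5 (by positivity)).trans (le_of_eq ?_)
    have h6 : Real.sqrt (51200 * (n * (N : ℝ))) = 2 * r * T := by
      rw [Real.sqrt_eq_iff_mul_self_eq (by positivity) (by positivity)]
      symm
      calc 2 * r * T * (2 * r * T) = 4 * r ^ 2 * T ^ 2 := by ring
        _ = 51200 * (n * (N : ℝ)) := by rw [hr2, hT2]; ring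
    rw [h6]; ring

end Pool.Agent.U868.KI
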