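import Mathlib
import Pool.Agent.U868.KI.S

set_option autoImplicit false
set_option linter.unusedSectionVars false
open MeasureTheory ProbabilityTheory Filter
open scoped Matrix

namespace Pool.Agent.U868.KI

section lam
variable {m : Type} [Fintype m] [DecidableEq m]

/-- the set of values of the quadratic form on the unit sphere -/
def QS (A : Matrix m m ℝ) : Set ℝ := {t : ℝ | ∃ v : m → ℝ, dotProduct v v = 1 ∧
  t = dotProduct v (Matrix.mulVec A v)}

/-- the largest eigenvalue -/
noncomputable def lm (A : Matrix m m ℝ) : ℝ := sSup (QS A)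

theorem abs_le_one {v : m → ℝ} (hv : v ⬝ᵥ v = 1) (i : m) : |v i| ≤ 1 := by
  have h1 : v i ^ 2 ≤ 1 := by
    rw [← hv, dotProduct]
    calc v i ^ 2 = v i * v i := pow_two _
      _ ≤ ∑ j, v j * v j := Finset.single_le_sum (f := fun j => v j * v j)
          (fun j _ => mul_self_nonneg _) (Finset.mem_univ i)
  exact abs_le_one_iff_mul_self_le_one.2 (by nlinarith)

theorem quad_diff (A B : Matrix m m ℝ) {v : m → ℝ} (hv : v ⬝ᵥ v = 1) :
    v ⬝ᵥ A *ᵥ v ≤ v ⬝ᵥ B *ᵥ v + ∑ i, ∑ j, |A i j - B i j| := by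
  have h1 : v ⬝ᵥ A *ᵥ v = v ⬝ᵥ B *ᵥ v + ∑ i, ∑ j, v i * (A i j - B i j) * v j := by
    simp only [dotProduct, Matrix.mulVec, Finset.mul_sum]
    rw [← Finset.sum_add_distrib]
    refine Finset.sum_congr rfl fun i _ => ?_
    rw [← Finset.sum_add_distrib]
    refine Finset.sum_congr rfl fun j _ => ?_
    ring
  rw [h1]
  refine add_le_add le_rfl (Finset.sum_le_sum fun i _ => Finset.sum_le_sum fun j _ => ?_)
  refine (le_abs_self _).trans ?_
  rw [abs_mul, abs_mul]
  have a := abs_le_one hv i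
  have b := abs_le_one hv j
  have c := abs_nonneg (v i)
  have d := abs_nonneg (v j)
  have e := abs_nonneg (A i j - B i j)
  calc |v i| * |A i j - B i j| * |v j| ≤ 1 * |A i j - B i j| * 1 := by gcongr
    _ = _ := by ring

theorem QS_nonempty [Nonempty m] (A : Matrix m m ℝ) : (QS A).Nonempty := by
  obtain ⟨i⟩ := ‹Nonempty m›
  exact ⟨_, Pi.single i 1, by simp, rfl⟩

theorem QS_bdd (A : Matrix m m ℝ) : BddAbove (QS A) := by
  refine ⟨∑ i, ∑ j, |A i j - (0 : Matrix m m ℝ) i j|, ?_⟩
  rintro t ⟨v, hv, rfl⟩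
  have := quad_diff A 0 hv
  simpa using this

theorem le_lm (A : Matrix m m ℝ) {v : m → ℝ} (hv : v ⬝ᵥ v = 1) : v ⬝ᵥ A *ᵥ v ≤ lm A :=
  le_csSup (QS_bdd A) ⟨v, hv, rfl⟩

theorem lm_le [Nonempty m] (A : Matrix m m ℝ) {c : ℝ} (h : ∀ v : m → ℝ, v ⬝ᵥ v = 1 → v ⬝ᵥ A *ᵥ v ≤ c) :
    lm A ≤ c := by
  refine csSup_le (QS_nonempty A) ?_
  rintro t ⟨v, hv, rfl⟩
  exact h v hv

theorem lm_diff [Nonempty m] (A B : Matrix m m ℝ) : lm A ≤ lm B + ∑ i, ∑ j, |A i j - B i j| := by
  refine lm_le A fun v hv => (quad_diff A B hv).trans ?_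
  exact add_le_add (le_lm B hv) le_rfl

theorem lm_abs [Nonempty m] (A B : Matrix m m ℝ) : |lm A - lm B| ≤ ∑ i, ∑ j, |A i j - B i j| := by
  rw [abs_le]
  have h1 := lm_diff A B
  have h2 := lm_diff B A
  have h3 : ∑ i, ∑ j, |B i j - A i j| = ∑ i, ∑ j, |A i j - B i j| :=
    Finset.sum_congr rfl fun i _ => Finset.sum_congr rfl fun j _ => abs_sub_comm _ _
  rw [h3] at h2
  constructor <;> linarith

theorem lm_zero [Nonempty m] : lm (0 : Matrix m m ℝ) = 0 := by
  apply le_antisymm
  · exact lm_le _ fun v _ => by simp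
  · obtain ⟨i⟩ := ‹Nonempty m›
    have := le_lm (0 : Matrix m m ℝ) (v := Pi.single i 1) (by simp)
    simpa using this

theorem lm_abs_le [Nonempty m] (A : Matrix m m ℝ) : |lm A| ≤ ∑ i, ∑ j, |A i j| := by
  have := lm_abs A 0
  simpa [lm_zero] using this

end lam

section kik
variable (n r l : ℕ)

/-- the Kikuchi matrix -/
def kik (lam : ℝ) (Z : Finset (Fin n) → ℝ) :
    Matrix {K : Finset (Fin n) // K.card = l} {K : Finset (Fin n) // K.card = l} ℝ :=
  Matrix.of fun I J => if (symmDiff I.1 J.1).card = r then lam + Z (symmDiff I.1 J.1) else 0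

/-- the mean largest eigenvalue -/
noncomputable def mt (lam : ℝ) : ℝ := ∫ Z, lm (kik n r l lam Z) ∂(gam (Finset (Fin n)))

variable {n r l}

theorem nonempty_idx (h : l ≤ n) : Nonempty {K : Finset (Fin n) // K.card = l} := by
  obtain ⟨t, _, ht⟩ := Finset.exists_subset_card_eq (s := (Finset.univ : Finset (Fin n))) (n := l)
    (by simpa using h)
  exact ⟨⟨t, ht⟩⟩

theorem int_abs_coord (S : Finset (Fin n)) :
    Integrable (fun Z : Finset (Fin n) → ℝ => |Z S|) (gam (Finset (Fin n))) := by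
  have := int_eval (ι := Finset (Fin n)) (MvPolynomial.X S)
  simpa using this.abs

theorem lm_kik_continuous (h : l ≤ n) (lam : ℝ) :
    Continuous fun Z : Finset (Fin n) → ℝ => lm (kik n r l lam Z) := by
  have := nonempty_idx (l := l) h
  rw [continuous_iff_continuousAt]
  intro Z0
  rw [ContinuousAt, tendsto_iff_norm_sub_tendsto_zero]
  have h1 : ∀ Z : Finset (Fin n) → ℝ, ‖lm (kik n r l lam Z) - lm (kik n r l lam Z0)‖ ≤
      ∑ I : {K : Finset (Fin n) // K.card = l}, ∑ J : {K : Finset (Fin n) // K.card = l},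
        |kik n r l lam Z I J - kik n r l lam Z0 I J| := fun Z => by
    rw [Real.norm_eq_abs]; exact lm_abs _ _
  refine squeeze_zero (fun _ => norm_nonneg _) h1 ?_
  have h2 : Continuous fun Z : Finset (Fin n) → ℝ =>
      ∑ I : {K : Finset (Fin n) // K.card = l}, ∑ J : {K : Finset (Fin n) // K.card = l},
        |kik n r l lam Z I J - kik n r l lam Z0 I J| := by
    refine continuous_finsetSum _ fun I _ => continuous_finsetSum _ fun J _ => ?_
    unfold kik
    simp only [Matrix.of_apply]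
    split_ifs
    · fun_prop
    · fun_prop
  have h3 := h2.tendsto Z0
  simpa using h3

theorem lm_kik_integrable (h : l ≤ n) (lam : ℝ) :
    Integrable (fun Z : Finset (Fin n) → ℝ => lm (kik n r l lam Z)) (gam (Finset (Fin n))) := by
  have := nonempty_idx (l := l) h
  have h1 : Integrable (fun Z : Finset (Fin n) → ℝ =>
      ∑ I : {K : Finset (Fin n) // K.card = l}, ∑ J : {K : Finset (Fin n) // K.card = l},
        (|lam| + |Z (symmDiff I.1 J.1)|)) (gam (Finset (Fin n))) := by
    refine integrable_finsetSum _ fun I _ => integrable_finsetSum _ fun J _ => ?_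
    exact (integrable_const _).add (int_abs_coord _)
  refine h1.mono' (lm_kik_continuous h lam).aestronglyMeasurable (Eventually.of_forall fun Z => ?_)
  rw [Real.norm_eq_abs]
  refine (lm_abs_le _).trans (Finset.sum_le_sum fun I _ => Finset.sum_le_sum fun J _ => ?_)
  unfold kik
  simp only [Matrix.of_apply]
  split_ifs
  · exact abs_add_le _ _
  · rw [abs_zero]; positivity

theorem EE_X (S : Finset (Fin n)) : EE (MvPolynomial.X S : MvPolynomial (Finset (Fin n)) ℝ) = 0 := by
  have := EE_stein (ι := Finset (Fin n)) S 1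
  rw [mul_one] at this
  rw [this]; simp

/-- lower bound of the mean with signal -/
theorem mt_lower (h : l ≤ n) (lam : ℝ) (d : ℝ) (hlam : 0 ≤ lam)
    (hd : ∀ I : {K : Finset (Fin n) // K.card = l},
      d ≤ ((Finset.univ.filter fun J : {K : Finset (Fin n) // K.card = l} =>
        (symmDiff I.1 J.1).card = r).card : ℝ)) : lam * d ≤ mt n r l lam := by
  have := nonempty_idx (l := l) h
  set D : ℝ := (Fintype.card {K : Finset (Fin n) // K.card = l} : ℝ) with hD
  have hD0 : 0 < D := by rw [hD]; exact_mod_cast Fintype.card_pos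
  set v : {K : Finset (Fin n) // K.card = l} → ℝ := fun _ => (Real.sqrt D)⁻¹ with hv
  have hvv : v ⬝ᵥ v = 1 := by
    simp only [hv, dotProduct, Finset.sum_const, Finset.card_univ, nsmul_eq_mul]
    rw [← hD, ← mul_inv, Real.mul_self_sqrt hD0.le]
    exact mul_inv_cancel₀ hD0.ne'
  set P : MvPolynomial (Finset (Fin n)) ℝ := D⁻¹ • ∑ I : {K : Finset (Fin n) // K.card = l},
    ∑ J : {K : Finset (Fin n) // K.card = l},
      if (symmDiff I.1 J.1).card = r then MvPolynomial.C lam + MvPolynomial.X (symmDiff I.1 J.1) else 0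
    with hP
  have h1 : ∀ Z : Finset (Fin n) → ℝ, MvPolynomial.eval Z P = v ⬝ᵥ kik n r l lam Z *ᵥ v := by
    intro Z
    have e1 : v ⬝ᵥ kik n r l lam Z *ᵥ v = D⁻¹ * ∑ I, ∑ J, kik n r l lam Z I J := by
      simp only [dotProduct, Matrix.mulVec, hv, Finset.mul_sum]
      refine Finset.sum_congr rfl fun I _ => Finset.sum_congr rfl fun J _ => ?_
      have : (Real.sqrt D)⁻¹ * (Real.sqrt D)⁻¹ = D⁻¹ := by
        rw [← mul_inv, Real.mul_self_sqrt hD0.le]
      calc (Real.sqrt D)⁻¹ * (kik n r l lam Z I J * (Real.sqrt D)⁻¹)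
          = ((Real.sqrt D)⁻¹ * (Real.sqrt D)⁻¹) * kik n r l lam Z I J := by ring
        _ = _ := by rw [this]
    rw [e1, hP, MvPolynomial.smul_eval, map_sum]
    congr 1
    refine Finset.sum_congr rfl fun I _ => ?_
    rw [map_sum]
    refine Finset.sum_congr rfl fun J _ => ?_
    simp only [kik, Matrix.of_apply]
    split_ifs <;> simp
  have h2 : EE P ≤ mt n r l lam := by
    refine integral_mono (int_eval P) (lm_kik_integrable h lam) fun Z => ?_
    simp only
    rw [h1]
    exact le_lm _ hvv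
  refine le_trans ?_ h2
  have h3 : EE P = D⁻¹ * ∑ I : {K : Finset (Fin n) // K.card = l},
      (lam * ((Finset.univ.filter fun J : {K : Finset (Fin n) // K.card = l} =>
        (symmDiff I.1 J.1).card = r).card : ℝ)) := by
    rw [hP, map_smul, map_sum, smul_eq_mul]
    congr 1
    refine Finset.sum_congr rfl fun I _ => ?_
    rw [map_sum, Finset.card_filter]
    push_cast
    rw [Finset.mul_sum]
    refine Finset.sum_congr rfl fun J _ => ?_
    split_ifs
    · rw [map_add, EE_C, EE_X]; ring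
    · simp
  rw [h3]
  have h4 : ∑ _I : {K : Finset (Fin n) // K.card = l}, lam * d ≤
      ∑ I : {K : Finset (Fin n) // K.card = l},
      (lam * ((Finset.univ.filter fun J : {K : Finset (Fin n) // K.card = l} =>
        (symmDiff I.1 J.1).card = r).card : ℝ)) :=
    Finset.sum_le_sum fun I _ => mul_le_mul_of_nonneg_left (hd I) hlam
  rw [Finset.sum_const, Finset.card_univ, nsmul_eq_mul, ← hD] at h4
  calc lam * d = D⁻¹ * (D * (lam * d)) := by field_simp
    _ ≤ _ := mul_le_mul_of_nonneg_left h4 (by positivity)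

/-- number of neighbours -/
theorem degree_lower (k : ℕ) (hkl : k ≤ l) (I : {K : Finset (Fin n) // K.card = l}) :
    l.choose k * (n - l).choose k ≤ (Finset.univ.filter fun J : {K : Finset (Fin n) // K.card = l} =>
        (symmDiff I.1 J.1).card = 2 * k).card := by
  classical
  obtain ⟨I, hI⟩ := I
  have h1 : (I.powersetCard k ×ˢ Iᶜ.powersetCard k).card = l.choose k * (n - l).choose k := by
    rw [Finset.card_product, Finset.card_powersetCard, Finset.card_powersetCard, Finset.card_compl,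
      Fintype.card_fin, hI]
  rw [← h1]
  have key : ∀ x ∈ I.powersetCard k ×ˢ Iᶜ.powersetCard k,
      I \ ((I \ x.1) ∪ x.2) = x.1 ∧ ((I \ x.1) ∪ x.2) \ I = x.2 ∧ ((I \ x.1) ∪ x.2).card = l := by
    intro x hx
    obtain ⟨h2, h3⟩ := Finset.mem_product.1 hx
    obtain ⟨a1, a2⟩ := Finset.mem_powersetCard.1 h2
    obtain ⟨b1, b2⟩ := Finset.mem_powersetCard.1 h3
    have b3 : ∀ y ∈ x.2, y ∉ I := fun y hy => Finset.mem_compl.1 (b1 hy)
    refine ⟨?_, ?_, ?_⟩
    · ext y
      simp only [Finset.mem_sdiff, Finset.mem_union]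
      constructor
      · rintro ⟨c1, c2⟩
        push Not at c2
        by_contra hc
        exact (c2.1 c1 |> fun h => hc h)
      · intro hy
        refine ⟨a1 hy, ?_⟩
        rintro (⟨_, h⟩ | h)
        · exact h hy
        · exact b3 y h (a1 hy)
    · ext y
      simp only [Finset.mem_sdiff, Finset.mem_union]
      constructor
      · rintro ⟨(⟨c1, _⟩ | c1), c2⟩
        · exact absurd c1 c2
        · exact c1
      · intro hy
        exact ⟨Or.inr hy, b3 y hy⟩
    · rw [Finset.card_union_of_disjoint, Finset.card_sdiff_of_subset a1, a2, b2, hI]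
      · omega
      · rw [Finset.disjoint_left]
        intro y hy hy2
        exact b3 y hy2 (Finset.mem_sdiff.1 hy).1
  refine Finset.card_le_card_of_injOn
    (fun x => if h : ((I \ x.1) ∪ x.2).card = l then ⟨(I \ x.1) ∪ x.2, h⟩ else ⟨I, hI⟩) ?_ ?_
  · intro x hx
    obtain ⟨k1, k2, k3⟩ := key x (Finset.mem_coe.1 hx)
    obtain ⟨h2, h3⟩ := Finset.mem_product.1 (Finset.mem_coe.1 hx)
    simp only [dif_pos k3]
    rw [Finset.mem_coe, Finset.mem_filter]
    refine ⟨Finset.mem_univ _, ?_⟩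
    simp only
    rw [symmDiff_def, Finset.sup_eq_union, Finset.card_union_of_disjoint, k1, k2,
      (Finset.mem_powersetCard.1 h2).2, (Finset.mem_powersetCard.1 h3).2]
    · ring
    · exact disjoint_sdiff_sdiff
  · intro x hx y hy hxy
    obtain ⟨k1, k2, k3⟩ := key x (Finset.mem_coe.1 hx)
    obtain ⟨k1', k2', k3'⟩ := key y (Finset.mem_coe.1 hy)
    simp only [dif_pos k3, dif_pos k3', Subtype.mk.injEq] at hxy
    refine Prod.ext ?_ ?_
    · rw [← k1, ← k1', hxy]
    · rw [← k2, ← k2', hxy]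

end kik
end Pool.Agent.U868.KI
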