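import Mathlib
import Pool.Agent.U868.KI.T

set_option autoImplicit false
set_option linter.unusedSectionVars false
open MeasureTheory ProbabilityTheory Filter
open scoped Matrix

namespace Pool.Agent.U868.KI

variable {n r l : ℕ}

theorem sum_sub (g : Finset (Fin n) → ℝ) (hg : ∀ I, I.card ≠ l → g I = 0) :
    ∑ I, g I = ∑ I : {K : Finset (Fin n) // K.card = l}, g I.1 := by
  rw [← Finset.sum_subtype (Finset.univ.filter fun K : Finset (Fin n) => K.card = l) (by simp) g,
    Finset.sum_filter]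
  refine Finset.sum_congr rfl fun I _ => ?_
  by_cases h : I.card = l
  · rw [if_pos h]
  · rw [if_neg h, hg I h]

/-- extension by zero -/
noncomputable def ext0 (v : {K : Finset (Fin n) // K.card = l} → ℝ) (I : Finset (Fin n)) : ℝ :=
  if h : I.card = l then v ⟨I, h⟩ else 0

theorem ext0_val (v : {K : Finset (Fin n) // K.card = l} → ℝ) (I : {K : Finset (Fin n) // K.card = l}) :
    ext0 v I.1 = v I := by
  unfold ext0
  rw [dif_pos I.2]

theorem ext0_ne (v : {K : Finset (Fin n) // K.card = l} → ℝ) (I : Finset (Fin n)) (h : I.card ≠ l) :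
    ext0 v I = 0 := by
  unfold ext0
  rw [dif_neg h]

theorem quad_ext (k : ℕ) (Z : Finset (Fin n) → ℝ) (v : {K : Finset (Fin n) // K.card = l} → ℝ) :
    v ⬝ᵥ kik n (2 * k) l 0 Z *ᵥ v = ∑ I : Finset (Fin n), ∑ J : Finset (Fin n),
      if I.card = l ∧ J.card = l ∧ (symmDiff I J).card = 2 * k then
        Z (symmDiff I J) * ext0 v I * ext0 v J else 0 := by
  rw [sum_sub (l := l)]
  · simp only [dotProduct, Matrix.mulVec, Finset.mul_sum]
    refine Finset.sum_congr rfl fun I _ => ?_
    rw [sum_sub (l := l)]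
    · refine Finset.sum_congr rfl fun J _ => ?_
      simp only [ext0_val, kik, Matrix.of_apply, I.2, J.2, true_and, zero_add]
      split_ifs
      · ring
      · ring
    · intro J hJ
      rw [if_neg fun h => hJ h.2.1]
  · intro I hI
    refine Finset.sum_eq_zero fun J _ => ?_
    rw [if_neg fun h => hI h.1]

theorem mt_upper (k : ℕ) (hk : 1 ≤ k) (hkl : k ≤ l) (hln : l ≤ n) :
    mt n (2 * k) l 0 ≤ l * (2 * k).choose k *
      Real.sqrt (51200 * (n * ((n.choose (k - 1) * (l - 1).choose (k - 1) : ℕ) : ℝ))) := by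
  obtain ⟨B, hB, hE⟩ := norm_bound (n := n) k l hk hkl hln
  have := nonempty_idx (l := l) hln
  refine le_trans ?_ hE
  refine integral_mono (lm_kik_integrable hln 0) (int_eval B) fun Z => ?_
  refine lm_le _ fun v hv => ?_
  rw [quad_ext]
  refine hB Z (ext0 v) (ext0_ne v) ?_
  unfold sq
  rw [sum_sub (l := l)]
  · rw [← hv, dotProduct]
    refine Finset.sum_congr rfl fun I _ => ?_
    rw [ext0_val]; ring
  · intro I hI
    rw [ext0_ne v I hI]; norm_num

theorem EE_X_sq (S : Finset (Fin n)) :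
    EE (MvPolynomial.X S ^ 2 : MvPolynomial (Finset (Fin n)) ℝ) = 1 := by
  have := EE_stein (ι := Finset (Fin n)) S (MvPolynomial.X S)
  rw [← pow_two] at this
  rw [this, MvPolynomial.pderiv_X_self]
  have := EE_C (ι := Finset (Fin n)) 1
  simpa using this

theorem EE_X_four (S : Finset (Fin n)) :
    EE (MvPolynomial.X S ^ 4 : MvPolynomial (Finset (Fin n)) ℝ) = 3 := by
  have := EE_stein (ι := Finset (Fin n)) S (MvPolynomial.X S ^ 3)
  rw [← pow_succ'] at this
  rw [this, Derivation.leibniz_pow, MvPolynomial.pderiv_X_self]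
  simp only [Nat.add_one_sub_one, smul_eq_mul, mul_one, map_nsmul]
  rw [EE_X_sq]; norm_num

/-- the pure noise mean is positive -/
theorem mt_pos (k : ℕ) (hk : 1 ≤ k) (hkl : k ≤ l) (hln : l + k ≤ n) : 0 < mt n (2 * k) l 0 := by
  have hln' : l ≤ n := by omega
  have hne := nonempty_idx (l := l) hln'
  obtain ⟨I⟩ := hne
  have hdeg := degree_lower (n := n) (l := l) k hkl I
  have hpos : 0 < l.choose k * (n - l).choose k :=
    Nat.mul_pos (Nat.choose_pos hkl) (Nat.choose_pos (by omega))
  obtain ⟨J, hJ⟩ := Finset.card_pos.1 (lt_of_lt_of_le hpos hdeg)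
  have hJ' := (Finset.mem_filter.1 hJ).2
  have hIJ : I ≠ J := by
    rintro rfl
    simp at hJ'
    omega
  set S := symmDiff I.1 J.1 with hS
  have hdiag : ∀ (Z : Finset (Fin n) → ℝ) (K : {K : Finset (Fin n) // K.card = l}),
      kik n (2 * k) l 0 Z K K = 0 := by
    intro Z K
    simp only [kik, Matrix.of_apply, symmDiff_self]
    rw [if_neg]
    simp only [Finset.bot_eq_empty, Finset.card_empty]
    omega
  have hIJv : ∀ Z : Finset (Fin n) → ℝ, kik n (2 * k) l 0 Z I J = Z S := by
    intro Z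
    simp only [kik, Matrix.of_apply]
    rw [if_pos hJ', zero_add]
  have hJIv : ∀ Z : Finset (Fin n) → ℝ, kik n (2 * k) l 0 Z J I = Z S := by
    intro Z
    simp only [kik, Matrix.of_apply]
    rw [symmDiff_comm J.1 I.1, if_pos hJ', zero_add]
  -- test vectors
  have test : ∀ (Z : Finset (Fin n) → ℝ) (a : ℝ), a ^ 2 = 1 → a * Z S ≤ lm (kik n (2 * k) l 0 Z) := by
    intro Z a ha
    set v : {K : Finset (Fin n) // K.card = l} → ℝ :=
      (Real.sqrt 2)⁻¹ • (Pi.single I 1 + Pi.single J a) with hv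
    have h2 : (Real.sqrt 2)⁻¹ * (Real.sqrt 2)⁻¹ = 1 / 2 := by
      rw [← mul_inv, Real.mul_self_sqrt (by norm_num)]; norm_num
    have hvv : v ⬝ᵥ v = 1 := by
      rw [hv, dotProduct_smul, smul_dotProduct, smul_smul, h2, dotProduct_add, add_dotProduct,
        add_dotProduct]
      simp only [dotProduct_single, Pi.single_apply, if_pos, smul_eq_mul, if_neg hIJ, if_neg (Ne.symm hIJ)]
      nlinarith
    have hq : v ⬝ᵥ kik n (2 * k) l 0 Z *ᵥ v = a * Z S := by
      rw [hv, Matrix.mulVec_smul, dotProduct_smul, smul_dotProduct, smul_smul, h2, Matrix.mulVec_add,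
        dotProduct_add, add_dotProduct, add_dotProduct, Matrix.mulVec_single, Matrix.mulVec_single]
      simp only [single_dotProduct, Matrix.col, Pi.smul_apply, Matrix.transpose_apply, hdiag, hIJv, hJIv,
        MulOpposite.smul_eq_mul_unop, MulOpposite.unop_op, smul_eq_mul]
      ring
    rw [← hq]
    exact le_lm _ hvv
  have hlow : (1 : ℝ) / 4 ≤ mt n (2 * k) l 0 := by
    set P : MvPolynomial (Finset (Fin n)) ℝ :=
      MvPolynomial.X S ^ 2 - (1 / 4 : ℝ) • MvPolynomial.X S ^ 4 with hP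
    have h1 : EE P = 1 / 4 := by
      rw [hP, map_sub, map_smul, EE_X_sq, EE_X_four]; norm_num
    rw [← h1]
    refine integral_mono (int_eval P) (lm_kik_integrable hln' 0) fun Z => ?_
    have h2 : MvPolynomial.eval Z P = Z S ^ 2 - 1 / 4 * Z S ^ 4 := by
      rw [hP, map_sub, MvPolynomial.smul_eval, map_pow, map_pow, MvPolynomial.eval_X]
    simp only
    rw [h2]
    have h3 : |Z S| ≤ lm (kik n (2 * k) l 0 Z) := by
      rw [abs_le']
      have a := test Z 1 (by norm_num)
      have b := test Z (-1) (by norm_num)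
      constructor <;> linarith
    refine le_trans ?_ h3
    set x := |Z S| with hx
    have hx0 : 0 ≤ x := abs_nonneg _
    have e2 : Z S ^ 2 = x ^ 2 := (sq_abs _).symm
    have e4 : Z S ^ 4 = x ^ 4 := by
      calc Z S ^ 4 = (Z S ^ 2) ^ 2 := by ring
        _ = x ^ 4 := by rw [e2]; ring
    rw [e2, e4]
    nlinarith [mul_nonneg hx0 (sq_nonneg (x - 1)), mul_nonneg hx0 (sq_nonneg (x ^ 2 - 1)),
      mul_nonneg hx0 (mul_nonneg hx0 (sq_nonneg (x - 1))), sq_nonneg (x ^ 2 - x), sq_nonneg (x - 1),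
      mul_nonneg hx0 (sq_nonneg (x - 2))]
  linarith

end Pool.Agent.U868.KI
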