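import Mathlib
import Pool.Agent.U868.KI.W

set_option autoImplicit false
set_option linter.unusedSectionVars false
open MeasureTheory ProbabilityTheory Filter
open scoped Matrix

namespace Pool.Agent.U868.KI

variable {n l : ℕ}

/-- existence of a maximiser -/
theorem exists_top {m : Type} [Fintype m] [DecidableEq m] [Nonempty m] (A : Matrix m m ℝ) :
    ∃ v : m → ℝ, v ⬝ᵥ v = 1 ∧ v ⬝ᵥ A *ᵥ v = lm A := by
  have hcl : IsClosed {v : m → ℝ | v ⬝ᵥ v = 1} := by
    refine isClosed_eq ?_ continuous_const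
    unfold dotProduct
    fun_prop
  have hbd : Bornology.IsBounded {v : m → ℝ | v ⬝ᵥ v = 1} := by
    rw [isBounded_iff_forall_norm_le]
    refine ⟨1, fun v hv => ?_⟩
    rw [pi_norm_le_iff_of_nonneg zero_le_one]
    intro i
    exact abs_le_one hv i
  have hco : IsCompact {v : m → ℝ | v ⬝ᵥ v = 1} := Metric.isCompact_of_isClosed_isBounded hcl hbd
  obtain ⟨i⟩ := ‹Nonempty m›
  have hne : {v : m → ℝ | v ⬝ᵥ v = 1}.Nonempty := ⟨Pi.single i 1, by simp⟩
  obtain ⟨v, hv, hmax⟩ := hco.exists_isMaxOn hne (f := fun v => v ⬝ᵥ A *ᵥ v) (by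
    refine Continuous.continuousOn ?_
    unfold dotProduct Matrix.mulVec dotProduct
    fun_prop)
  refine ⟨v, hv, le_antisymm (le_lm A hv) ?_⟩
  have : Nonempty m := ⟨i⟩
  exact lm_le A fun w hw => hmax hw

/-- occupation numbers -/
noncomputable def occ (ψ : Finset (Fin n) → ℝ) (i : Fin n) : ℝ :=
  ∑ I : Finset (Fin n) with i ∈ I, ψ I ^ 2

theorem occ_nonneg (ψ : Finset (Fin n) → ℝ) (i : Fin n) : 0 ≤ occ ψ i :=
  Finset.sum_nonneg fun _ _ => sq_nonneg _

theorem sum_occ (ψ : Finset (Fin n) → ℝ) (hψ : ∀ I, I.card ≠ l → ψ I = 0) :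
    ∑ i, occ ψ i = l * sq ψ := by
  unfold occ sq
  have h1 : ∀ i : Fin n, ∑ I : Finset (Fin n) with i ∈ I, ψ I ^ 2 =
      ∑ I : Finset (Fin n), if i ∈ I then ψ I ^ 2 else 0 := fun i => by rw [Finset.sum_filter]
  simp only [h1]
  rw [Finset.sum_comm, Finset.mul_sum]
  refine Finset.sum_congr rfl fun I _ => ?_
  rw [← Finset.sum_filter, Finset.sum_const, nsmul_eq_mul]
  by_cases hI : I.card = l
  · rw [← hI]; congr 2; congr 1; ext x; simp
  · rw [hψ I hI]; simp

/-- coefficient of `Z_S` in the quadratic form -/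
noncomputable def qS (ψ : Finset (Fin n) → ℝ) (S : Finset (Fin n)) : ℝ := ∑ I, ψ I * ψ (symmDiff I S)

theorem card_symm_pair {i j : Fin n} (hij : i ≠ j) (I : Finset (Fin n)) (h : (symmDiff I {i, j}).card = I.card) :
    (i ∈ I ∧ j ∉ I) ∨ (j ∈ I ∧ i ∉ I) := by
  by_contra hcon
  push Not at hcon
  by_cases hi : i ∈ I
  · have hj : j ∈ I := hcon.1 hi
    have hsub : ({i, j} : Finset (Fin n)) ⊆ I := by
      intro x hx
      rw [Finset.mem_insert, Finset.mem_singleton] at hx
      rcases hx with rfl | rfl <;> assumption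
    have e : symmDiff I {i, j} = I \ {i, j} := by
      ext x
      simp only [Finset.mem_symmDiff, Finset.mem_sdiff]
      constructor
      · rintro (h | ⟨h, h'⟩)
        · exact h
        · exact absurd (hsub h) h'
      · intro h; exact Or.inl h
    have h2 := Finset.card_sdiff_of_subset hsub
    rw [e, h2, Finset.card_pair hij] at h
    have h3 := Finset.card_le_card hsub
    rw [Finset.card_pair hij] at h3
    omega
  · have hj : j ∉ I := fun hj => hi (hcon.2 hj)
    have hd : Disjoint I {i, j} := by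
      rw [Finset.disjoint_right]
      intro x hx
      rw [Finset.mem_insert, Finset.mem_singleton] at hx
      rcases hx with rfl | rfl <;> assumption
    have e : symmDiff I {i, j} = I ∪ {i, j} := by
      ext x
      simp only [Finset.mem_symmDiff, Finset.mem_union]
      constructor
      · rintro (⟨h, _⟩ | ⟨h, _⟩)
        · exact Or.inl h
        · exact Or.inr h
      · rintro (h | h)
        · exact Or.inl ⟨h, Finset.disjoint_left.1 hd h⟩
        · exact Or.inr ⟨h, Finset.disjoint_right.1 hd h⟩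
    rw [e, Finset.card_union_of_disjoint hd, Finset.card_pair hij] at h
    omega

theorem half_le (ψ : Finset (Fin n) → ℝ) (i j : Fin n) (hij : i ≠ j) :
    (∑ I : Finset (Fin n) with (i ∈ I ∧ j ∉ I), ψ I * ψ (symmDiff I {i, j})) ^ 2 ≤
      occ ψ i * occ ψ j := by
  refine (Finset.sum_mul_sq_le_sq_mul_sq _ _ _).trans ?_
  refine mul_le_mul ?_ ?_ (Finset.sum_nonneg fun _ _ => sq_nonneg _) (occ_nonneg _ _)
  · refine Finset.sum_le_sum_of_subset_of_nonneg ?_ fun _ _ _ => sq_nonneg _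
    intro I hI
    rw [Finset.mem_filter] at hI ⊢
    exact ⟨hI.1, hI.2.1⟩
  · have h1 : ∑ I : Finset (Fin n) with (i ∈ I ∧ j ∉ I), ψ (symmDiff I {i, j}) ^ 2 =
        ∑ I ∈ (Finset.univ.filter fun I : Finset (Fin n) => i ∈ I ∧ j ∉ I).image
          (fun I => symmDiff I {i, j}), ψ I ^ 2 := by
      rw [Finset.sum_image]
      intro I _ J _ hIJ
      exact symmDiff_left_injective _ hIJ
    rw [h1]
    refine Finset.sum_le_sum_of_subset_of_nonneg ?_ fun _ _ _ => sq_nonneg _
    intro I hI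
    rw [Finset.mem_image] at hI
    obtain ⟨J, hJ, rfl⟩ := hI
    have hJ' := (Finset.mem_filter.1 hJ).2
    rw [Finset.mem_filter]
    refine ⟨Finset.mem_univ _, ?_⟩
    rw [Finset.mem_symmDiff]
    right
    exact ⟨by simp, hJ'.2⟩

theorem qS_sq_le (ψ : Finset (Fin n) → ℝ) (hψ : ∀ I, I.card ≠ l → ψ I = 0) (i j : Fin n) (hij : i ≠ j) :
    qS ψ {i, j} ^ 2 ≤ 4 * (occ ψ i * occ ψ j) := by
  classical
  have h1 : qS ψ {i, j} = (∑ I : Finset (Fin n) with (i ∈ I ∧ j ∉ I), ψ I * ψ (symmDiff I {i, j})) +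
      ∑ I : Finset (Fin n) with (j ∈ I ∧ i ∉ I), ψ I * ψ (symmDiff I {j, i}) := by
    unfold qS
    rw [Finset.sum_filter, Finset.sum_filter, ← Finset.sum_add_distrib]
    refine Finset.sum_congr rfl fun I _ => ?_
    have hc : ({j, i} : Finset (Fin n)) = {i, j} := Finset.pair_comm j i
    rw [hc]
    by_cases h0 : ψ I * ψ (symmDiff I {i, j}) = 0
    · rw [h0]; simp
    · have a1 : I.card = l := by
        by_contra h; exact h0 (by rw [hψ I h, zero_mul])
      have a2 : (symmDiff I {i, j}).card = l := by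
        by_contra h; exact h0 (by rw [hψ _ h, mul_zero])
      rcases card_symm_pair hij I (a2.trans a1.symm) with h | h
      · rw [if_pos h, if_neg (fun h' => h.2 h'.1), add_zero]
      · rw [if_pos h, if_neg (fun h' => h.2 h'.1), zero_add]
  have h2 := half_le ψ i j hij
  have h3 := half_le ψ j i (Ne.symm hij)
  rw [h1]
  nlinarith [sq_nonneg ((∑ I : Finset (Fin n) with (i ∈ I ∧ j ∉ I), ψ I * ψ (symmDiff I {i, j})) -
      ∑ I : Finset (Fin n) with (j ∈ I ∧ i ∉ I), ψ I * ψ (symmDiff I {j, i})),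
      mul_comm (occ ψ i) (occ ψ j)]

theorem sum_qS_le (ψ : Finset (Fin n) → ℝ) (hψ : ∀ I, I.card ≠ l → ψ I = 0) (h1 : sq ψ = 1) :
    ∑ S ∈ (Finset.univ : Finset (Fin n)).powersetCard 2, qS ψ S ^ 2 ≤ 4 * (l : ℝ) ^ 2 := by
  have hmap : ∀ p ∈ (Finset.univ : Finset (Fin n)).offDiag,
      ({p.1, p.2} : Finset (Fin n)) ∈ (Finset.univ : Finset (Fin n)).powersetCard 2 := by
    intro p hp
    rw [Finset.mem_powersetCard]
    exact ⟨Finset.subset_univ _, Finset.card_pair (Finset.mem_offDiag.1 hp).2.2⟩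
  have h2 : ∑ S ∈ (Finset.univ : Finset (Fin n)).powersetCard 2, qS ψ S ^ 2 ≤
      ∑ p ∈ (Finset.univ : Finset (Fin n)).offDiag, qS ψ {p.1, p.2} ^ 2 := by
    rw [← Finset.sum_fiberwise_of_maps_to hmap]
    refine Finset.sum_le_sum fun S hS => ?_
    obtain ⟨i, j, hij, rfl⟩ := Finset.card_eq_two.1 (Finset.mem_powersetCard.1 hS).2
    refine le_trans ?_ (Finset.single_le_sum (f := fun p : Fin n × Fin n => qS ψ {p.1, p.2} ^ 2)
      (fun _ _ => sq_nonneg _) (a := (i, j)) ?_)
    · exact le_rfl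
    · rw [Finset.mem_filter]
      exact ⟨Finset.mem_offDiag.2 ⟨Finset.mem_univ i, Finset.mem_univ j, hij⟩, rfl⟩
  refine h2.trans ?_
  have h3 : ∑ p ∈ (Finset.univ : Finset (Fin n)).offDiag, qS ψ {p.1, p.2} ^ 2 ≤
      ∑ p ∈ (Finset.univ : Finset (Fin n)).offDiag, 4 * (occ ψ p.1 * occ ψ p.2) :=
    Finset.sum_le_sum fun p hp => qS_sq_le ψ hψ p.1 p.2 (Finset.mem_offDiag.1 hp).2.2
  refine h3.trans ?_
  have h4 : ∑ p ∈ (Finset.univ : Finset (Fin n)).offDiag, 4 * (occ ψ p.1 * occ ψ p.2) ≤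
      ∑ p : Fin n × Fin n, 4 * (occ ψ p.1 * occ ψ p.2) := by
    refine Finset.sum_le_sum_of_subset_of_nonneg (Finset.subset_univ _) fun p _ _ => ?_
    have := occ_nonneg ψ p.1
    have := occ_nonneg ψ p.2
    positivity
  refine h4.trans (le_of_eq ?_)
  rw [Fintype.sum_prod_type]
  have h5 : ∀ x, ∑ y, 4 * (occ ψ x * occ ψ y) = 4 * occ ψ x * l := by
    intro x
    have := sum_occ (l := l) ψ hψ
    rw [h1, mul_one] at this
    rw [← this, Finset.mul_sum]
    refine Finset.sum_congr rfl fun y _ => by ring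
  simp only [h5]
  rw [← Finset.sum_mul, ← Finset.mul_sum, sum_occ (l := l) ψ hψ, h1]
  ring

/-- the quadratic form in terms of `qS` -/
theorem quad_qS (Z : Finset (Fin n) → ℝ) (v : {K : Finset (Fin n) // K.card = l} → ℝ) :
    v ⬝ᵥ kik n 2 l 0 Z *ᵥ v = ∑ S ∈ (Finset.univ : Finset (Fin n)).powersetCard 2, Z S * qS (ext0 v) S := by
  classical
  have h1 := quad_ext (n := n) (l := l) 1 Z v
  rw [mul_one] at h1
  rw [h1]
  have h2 : ∑ S ∈ (Finset.univ : Finset (Fin n)).powersetCard 2, Z S * qS (ext0 v) S =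
      ∑ S : Finset (Fin n), if S.card = 2 then Z S * qS (ext0 v) S else 0 := by
    rw [← Finset.sum_filter]
    refine Finset.sum_congr ?_ fun _ _ => rfl
    ext S
    simp [Finset.mem_powersetCard]
  rw [h2]
  have h3 : ∀ S : Finset (Fin n), (if S.card = 2 then Z S * qS (ext0 v) S else 0) =
      ∑ I, (if S.card = 2 then Z S * (ext0 v I * ext0 v (symmDiff I S)) else 0) := by
    intro S
    split_ifs
    · rw [qS, Finset.mul_sum]
    · simp
  simp only [h3]
  conv_rhs => rw [Finset.sum_comm]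
  refine Finset.sum_congr rfl fun I _ => ?_
  -- substitute J = I ∆ S
  have h4 := Equiv.sum_comp (⟨fun S => symmDiff I S, fun S => symmDiff I S,
    fun S => by simp, fun S => by simp⟩ : Finset (Fin n) ≃ Finset (Fin n))
    (fun J => if I.card = l ∧ J.card = l ∧ (symmDiff I J).card = 2 then
      Z (symmDiff I J) * ext0 v I * ext0 v J else 0)
  rw [← h4]
  refine Finset.sum_congr rfl fun S _ => ?_
  simp only [Equiv.coe_fn_mk, symmDiff_symmDiff_cancel_left]
  by_cases hS : S.card = 2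
  · rw [if_pos hS]
    by_cases hI : I.card = l
    · by_cases hJ : (symmDiff I S).card = l
      · rw [if_pos ⟨hI, hJ, hS⟩]; ring
      · rw [if_neg (fun h => hJ h.2.1), ext0_ne v _ hJ]; ring
    · rw [if_neg (fun h => hI h.1), ext0_ne v _ hI]; ring
  · rw [if_neg hS, if_neg (fun h => hS h.2.2)]

theorem sq_ext0 (v : {K : Finset (Fin n) // K.card = l} → ℝ) : sq (ext0 v) = v ⬝ᵥ v := by
  unfold sq
  rw [sum_sub (l := l)]
  · rw [dotProduct]
    refine Finset.sum_congr rfl fun I _ => ?_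
    rw [ext0_val]; ring
  · intro I hI
    rw [ext0_ne v I hI]; norm_num

/-- pointwise bound for the Efron-Stein sum -/
theorem es_pointwise (hln : l ≤ n) (x y : Finset (Fin n) → ℝ) (K : ℝ) (hK : 0 < K) :
    ∑ j, (max (lm (kik n 2 l 0 x) - lm (kik n 2 l 0 (Function.update x j (y j)))) 0) ^ 2 ≤
      4 * (l : ℝ) ^ 2 * (K + (∑ j ∈ (Finset.univ : Finset (Fin n)).powersetCard 2,
        (x j - y j) ^ 8) / K ^ 3) := by
  classical
  have := nonempty_idx (l := l) hln
  obtain ⟨v, hv, hvm⟩ := exists_top (kik n 2 l 0 x)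
  set ψ := ext0 v with hψ
  have hψ1 : sq ψ = 1 := by rw [hψ, sq_ext0, hv]
  have hψ0 : ∀ I, I.card ≠ l → ψ I = 0 := ext0_ne v
  set P2 := (Finset.univ : Finset (Fin n)).powersetCard 2 with hP2
  set R := K + (∑ j ∈ P2, (x j - y j) ^ 8) / K ^ 3 with hR
  have hpos8 : ∀ j, 0 ≤ (x j - y j) ^ 8 := fun j => by
    have : (x j - y j) ^ 8 = ((x j - y j) ^ 4) ^ 2 := by ring
    rw [this]; positivity
  have hdiff : ∀ j, lm (kik n 2 l 0 x) - lm (kik n 2 l 0 (Function.update x j (y j))) ≤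
      if j ∈ P2 then (x j - y j) * qS ψ j else 0 := by
    intro j
    have h1 : v ⬝ᵥ kik n 2 l 0 (Function.update x j (y j)) *ᵥ v ≤
        lm (kik n 2 l 0 (Function.update x j (y j))) := le_lm _ hv
    have h2 : v ⬝ᵥ kik n 2 l 0 x *ᵥ v - v ⬝ᵥ kik n 2 l 0 (Function.update x j (y j)) *ᵥ v =
        if j ∈ P2 then (x j - y j) * qS ψ j else 0 := by
      rw [quad_qS, quad_qS, ← Finset.sum_sub_distrib]
      by_cases hj : j ∈ P2
      · rw [if_pos hj, Finset.sum_eq_single j]
        · rw [Function.update_self]; ring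
        · intro S _ hS
          rw [Function.update_of_ne hS]; ring
        · intro h; exact absurd hj h
      · rw [if_neg hj]
        refine Finset.sum_eq_zero fun S hS => ?_
        rw [Function.update_of_ne (fun h : S = j => hj (h ▸ hS))]; ring
    rw [← hvm]; linarith
  have hterm : ∀ j, (max (lm (kik n 2 l 0 x) - lm (kik n 2 l 0 (Function.update x j (y j)))) 0) ^ 2 ≤
      if j ∈ P2 then R * qS ψ j ^ 2 else 0 := by
    intro j
    have h1 := hdiff j
    by_cases hj : j ∈ P2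
    · rw [if_pos hj] at h1 ⊢
      have h2 : (max (lm (kik n 2 l 0 x) - lm (kik n 2 l 0 (Function.update x j (y j)))) 0) ^ 2 ≤
          ((x j - y j) * qS ψ j) ^ 2 := by
        rcases le_total (lm (kik n 2 l 0 x) - lm (kik n 2 l 0 (Function.update x j (y j)))) 0 with h | h
        · rw [max_eq_right h, zero_pow two_ne_zero]; exact sq_nonneg _
        · rw [max_eq_left h]; exact pow_le_pow_left₀ h h1 2
      refine h2.trans ?_
      rw [mul_pow]
      refine mul_le_mul_of_nonneg_right ?_ (sq_nonneg _)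
      -- t ≤ K + t^4 / K^3
      set t := (x j - y j) ^ 2 with ht
      have ht0 : 0 ≤ t := sq_nonneg _
      have h3 : t ≤ K + t ^ 4 / K ^ 3 := by
        rcases le_total t K with h | h
        · have : 0 ≤ t ^ 4 / K ^ 3 := by positivity
          linarith
        · have h4 : t ≤ t ^ 4 / K ^ 3 := by
            rw [le_div_iff₀ (by positivity)]
            calc t * K ^ 3 ≤ t * t ^ 3 := by gcongr
              _ = t ^ 4 := by ring
          linarith
      refine h3.trans ?_
      rw [hR]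
      have h5 : t ^ 4 = (x j - y j) ^ 8 := by rw [ht]; ring
      rw [h5]
      have h6 : (x j - y j) ^ 8 ≤ ∑ j ∈ P2, (x j - y j) ^ 8 :=
        Finset.single_le_sum (f := fun j => (x j - y j) ^ 8) (fun j _ => hpos8 j) hj
      have h7 : (x j - y j) ^ 8 / K ^ 3 ≤ (∑ j ∈ P2, (x j - y j) ^ 8) / K ^ 3 := by gcongr
      linarith
    · rw [if_neg hj] at h1 ⊢
      rw [max_eq_right h1]; norm_num
  have hR0 : 0 ≤ R := by
    rw [hR]
    have : 0 ≤ ∑ j ∈ P2, (x j - y j) ^ 8 := Finset.sum_nonneg fun j _ => hpos8 j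
    positivity
  calc ∑ j, (max (lm (kik n 2 l 0 x) - lm (kik n 2 l 0 (Function.update x j (y j)))) 0) ^ 2
      ≤ ∑ j, (if j ∈ P2 then R * qS ψ j ^ 2 else 0) := Finset.sum_le_sum fun j _ => hterm j
    _ = ∑ j ∈ P2, R * qS ψ j ^ 2 := by rw [← Finset.sum_filter, Finset.filter_mem_eq_inter,
        Finset.univ_inter]
    _ = R * ∑ j ∈ P2, qS ψ j ^ 2 := by rw [Finset.mul_sum]
    _ ≤ R * (4 * (l : ℝ) ^ 2) := mul_le_mul_of_nonneg_left (sum_qS_le ψ hψ0 hψ1) hR0
    _ = _ := by ring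

end Pool.Agent.U868.KI
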