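import Mathlib
import Pool.Agent.U868.KI.N1
import Pool.Agent.U868.KI.N2

set_option autoImplicit false
set_option linter.unusedSectionVars false
open MeasureTheory ProbabilityTheory Filter
open scoped Matrix
open Pool.Agent.H4R2.AE.Conc

namespace Pool.Agent.U868.KI

variable {n l : ℕ}

theorem mom8 : ∫ t, t ^ 8 ∂(gaussianReal 0 1) = 105 := by
  have h1 := mom_rec 7
  have h2 := mom_rec 5
  have h3 := mom_rec 3
  have h4 := mom_rec 1
  norm_num at h1 h2 h3 h4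
  rw [h1, h2, h3, h4]; norm_num

/-- the function of the noise -/
noncomputable def GG (n l : ℕ) (Z : Finset (Fin n) → ℝ) : ℝ := lm (kik n 2 l 0 Z)

theorem GG_cont (hln : l ≤ n) : Continuous (GG n l) := lm_kik_continuous hln 0

theorem memLp_coord (S : Finset (Fin n)) (p : NNReal) :
    MemLp (fun Z : Finset (Fin n) → ℝ => Z S) p (gam (Finset (Fin n))) := by
  have h := memLp_id_gaussianReal (μ := 0) (v := 1) p
  exact h.comp_measurePreserving (measurePreserving_eval (fun _ : Finset (Fin n) => gaussianReal 0 1) S)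

theorem GG_memLp (hln : l ≤ n) : MemLp (GG n l) 2 (gam (Finset (Fin n))) := by
  have hne := nonempty_idx (l := l) hln
  have h1 : MemLp (fun Z : Finset (Fin n) → ℝ =>
      ∑ I : {K : Finset (Fin n) // K.card = l}, ∑ J : {K : Finset (Fin n) // K.card = l},
        |Z (symmDiff I.1 J.1)|) 2 (gam (Finset (Fin n))) := by
    refine memLp_finsetSum _ fun I _ => memLp_finsetSum _ fun J _ => ?_
    exact (memLp_coord (symmDiff I.1 J.1) 2).norm
  refine h1.mono (GG_cont hln).aestronglyMeasurable (Eventually.of_forall fun Z => ?_)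
  rw [Real.norm_eq_abs]
  refine le_trans ?_ (le_abs_self _)
  refine (lm_abs_le _).trans (Finset.sum_le_sum fun I _ => Finset.sum_le_sum fun J _ => ?_)
  unfold kik
  simp only [Matrix.of_apply]
  split_ifs
  · rw [zero_add]
  · rw [abs_zero]; positivity

theorem pow8_diff (a b : ℝ) : (a - b) ^ 8 ≤ 128 * (a ^ 8 + b ^ 8) := by
  have h1 : (a - b) ^ 2 ≤ 2 * (a ^ 2 + b ^ 2) := by nlinarith [sq_nonneg (a + b)]
  have h2 : ((a - b) ^ 2) ^ 4 ≤ (2 * (a ^ 2 + b ^ 2)) ^ 4 := pow_le_pow_left₀ (sq_nonneg _) h1 4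
  have h3 : ∀ x y : ℝ, (x + y) ^ 2 ≤ 2 * (x ^ 2 + y ^ 2) := fun x y => by nlinarith [sq_nonneg (x - y)]
  have h4 : (a ^ 2 + b ^ 2) ^ 4 ≤ 8 * (a ^ 8 + b ^ 8) := by
    calc (a ^ 2 + b ^ 2) ^ 4 = ((a ^ 2 + b ^ 2) ^ 2) ^ 2 := by ring
      _ ≤ (2 * ((a ^ 2) ^ 2 + (b ^ 2) ^ 2)) ^ 2 := pow_le_pow_left₀ (sq_nonneg _) (h3 _ _) 2
      _ = 4 * ((a ^ 4 + b ^ 4) ^ 2) := by ring
      _ ≤ 4 * (2 * ((a ^ 4) ^ 2 + (b ^ 4) ^ 2)) := by
          have := h3 (a ^ 4) (b ^ 4)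
          linarith
      _ = 8 * (a ^ 8 + b ^ 8) := by ring
  calc (a - b) ^ 8 = ((a - b) ^ 2) ^ 4 := by ring
    _ ≤ (2 * (a ^ 2 + b ^ 2)) ^ 4 := h2
    _ = 16 * (a ^ 2 + b ^ 2) ^ 4 := by ring
    _ ≤ 16 * (8 * (a ^ 8 + b ^ 8)) := by linarith
    _ = _ := by ring

theorem int8 (S : Finset (Finset (Fin n))) (j : Finset (Fin n)) :
    Integrable (fun θ : Finset (Fin n) → ℝ × ℝ => (sel S θ j) ^ 8) (QQ (Finset (Fin n)) (gaussianReal 0 1)) ∧
    ∫ θ, (sel S θ j) ^ 8 ∂(QQ (Finset (Fin n)) (gaussianReal 0 1)) = 105 := by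
  have hmp := (measurePreserving_eval (fun _ : Finset (Fin n) => gaussianReal 0 1) j).comp
    (mp_sel (ι := Finset (Fin n)) (gaussianReal 0 1) S)
  refine ⟨?_, ?_⟩
  · exact hmp.integrable_comp_of_integrable (g := fun t : ℝ => t ^ 8) (int_pow 8)
  · rw [← mom8]
    exact int_mp hmp (g := fun t : ℝ => t ^ 8) (by fun_prop)

/-- variance bound -/
theorem var_bound (hln : l ≤ n) (hn : 1 ≤ n) :
    ∫ Z, GG n l Z ^ 2 ∂(gam (Finset (Fin n))) - (∫ Z, GG n l Z ∂(gam (Finset (Fin n)))) ^ 2 ≤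
      107524 * (l : ℝ) ^ 2 * Real.sqrt n := by
  have hn0 : (0 : ℝ) < n := by exact_mod_cast hn
  set K : ℝ := Real.sqrt n with hK
  have hK0 : 0 < K := Real.sqrt_pos.2 hn0
  have hK2 : K ^ 2 = n := Real.sq_sqrt hn0.le
  set P2 := (Finset.univ : Finset (Fin n)).powersetCard 2 with hP2
  have h1 := efron_pos (μ := gaussianReal 0 1) (GG n l) (GG_cont hln).measurable (GG_memLp hln)
  refine h1.trans ?_
  have i8 : ∀ j, Integrable (fun θ : Finset (Fin n) → ℝ × ℝ =>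
      (128 : ℝ) * ((sel ∅ θ j) ^ 8 + (sel Finset.univ θ j) ^ 8))
      (QQ (Finset (Fin n)) (gaussianReal 0 1)) := fun j =>
    ((int8 ∅ j).1.add (int8 Finset.univ j).1).const_mul 128
  have iR : Integrable (fun θ : Finset (Fin n) → ℝ × ℝ => 4 * (l : ℝ) ^ 2 * (K +
      (∑ j ∈ P2, (128 : ℝ) * ((sel ∅ θ j) ^ 8 + (sel Finset.univ θ j) ^ 8)) / K ^ 3))
      (QQ (Finset (Fin n)) (gaussianReal 0 1)) := by
    refine Integrable.const_mul ?_ _
    refine (integrable_const _).add ?_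
    exact (integrable_finsetSum _ fun j _ => i8 j).div_const _
  have h2 : ∫ θ, ∑ j, (max (GG n l (sel ∅ θ) - GG n l (sel {j} θ)) 0) ^ 2
      ∂(QQ (Finset (Fin n)) (gaussianReal 0 1)) ≤
      ∫ θ, 4 * (l : ℝ) ^ 2 * (K +
      (∑ j ∈ P2, (128 : ℝ) * ((sel ∅ θ j) ^ 8 + (sel Finset.univ θ j) ^ 8)) / K ^ 3)
      ∂(QQ (Finset (Fin n)) (gaussianReal 0 1)) := by
    refine integral_mono_of_nonneg (Eventually.of_forall fun θ =>
      Finset.sum_nonneg fun j _ => sq_nonneg _) iR (Eventually.of_forall fun θ => ?_)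
    simp only
    have h3 := es_pointwise (n := n) (l := l) hln (sel ∅ θ) (sel Finset.univ θ) K hK0
    simp only [sel_single]
    refine h3.trans ?_
    have h4 : ∑ j ∈ P2, (sel ∅ θ j - sel Finset.univ θ j) ^ 8 ≤
        ∑ j ∈ P2, (128 : ℝ) * ((sel ∅ θ j) ^ 8 + (sel Finset.univ θ j) ^ 8) :=
      Finset.sum_le_sum fun j _ => pow8_diff _ _
    gcongr
  refine h2.trans ?_
  rw [integral_const_mul, integral_add (integrable_const _)
    ((integrable_finsetSum _ fun j _ => i8 j).div_const _), integral_div,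
    integral_finsetSum _ fun j _ => i8 j]
  have h5 : ∀ j, ∫ θ, (128 : ℝ) * ((sel ∅ θ j) ^ 8 + (sel Finset.univ θ j) ^ 8)
      ∂(QQ (Finset (Fin n)) (gaussianReal 0 1)) = 26880 := by
    intro j
    rw [integral_const_mul, integral_add (int8 ∅ j).1 (int8 Finset.univ j).1, (int8 ∅ j).2,
      (int8 Finset.univ j).2]
    norm_num
  simp only [h5]
  rw [Finset.sum_const, nsmul_eq_mul]
  have hcard : (P2.card : ℝ) ≤ (n : ℝ) ^ 2 := by
    rw [hP2, Finset.card_powersetCard, Finset.card_univ, Fintype.card_fin]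
    exact_mod_cast Nat.choose_le_pow n 2
  have h6 : (P2.card : ℝ) * 26880 / K ^ 3 ≤ 26880 * K := by
    rw [div_le_iff₀ (by positivity)]
    calc (P2.card : ℝ) * 26880 ≤ (n : ℝ) ^ 2 * 26880 := by gcongr
      _ = 26880 * K * K ^ 3 := by rw [← hK2]; ring
  have h7 : ∫ _θ : Finset (Fin n) → ℝ × ℝ, K ∂(QQ (Finset (Fin n)) (gaussianReal 0 1)) = K := by simp
  rw [h7]
  calc 4 * (l : ℝ) ^ 2 * (K + (P2.card : ℝ) * 26880 / K ^ 3) ≤ 4 * (l : ℝ) ^ 2 * (K + 26880 * K) := by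
        gcongr
    _ = 107524 * (l : ℝ) ^ 2 * K := by ring

end Pool.Agent.U868.KI
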