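import Mathlib
import Pool.Agent.U868.KI.N3

set_option autoImplicit false
set_option linter.unusedSectionVars false
open MeasureTheory ProbabilityTheory Filter
open scoped Matrix
open Pool.Agent.H4R2.AE.Conc

namespace Pool.Agent.U868.KI

theorem gauss_sign (s : ℝ) (hs : s = 1 ∨ s = -1) :
    MeasurePreserving (fun t : ℝ => s * t) (gaussianReal 0 1) (gaussianReal 0 1) := by
  refine ⟨by fun_prop, ?_⟩
  rw [gaussianReal_map_const_mul]
  rcases hs with rfl | rfl
  · congr 1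
    · simp
    · ext; simp
  · congr 1
    · simp
    · ext; simp

theorem mp_sign {ι : Type} [Fintype ι] (s : ι → ℝ) (hs : ∀ i, s i = 1 ∨ s i = -1) :
    MeasurePreserving (fun (Z : ι → ℝ) i => s i * Z i) (gam ι) (gam ι) :=
  measurePreserving_pi (fun _ : ι => gaussianReal 0 1) (fun _ : ι => gaussianReal 0 1)
    (fun i => gauss_sign (s i) (hs i))

section lam
variable {m : Type} [Fintype m] [DecidableEq m]

theorem lm_scale [Nonempty m] (A : Matrix m m ℝ) (z : m → ℝ) : z ⬝ᵥ A *ᵥ z ≤ lm A * (z ⬝ᵥ z) := by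
  have h0 : 0 ≤ z ⬝ᵥ z := by
    rw [← sq_eq_dot]; exact sq_nonneg' z
  rcases h0.eq_or_lt with h | h
  · have hz : z = 0 := by
      rw [eq_comm, ← sq_eq_dot] at h
      unfold sq at h
      rw [Finset.sum_eq_zero_iff_of_nonneg (fun _ _ => sq_nonneg _)] at h
      funext i
      have := h i (Finset.mem_univ i)
      simpa using this
    subst hz; simp
  · set c := Real.sqrt (z ⬝ᵥ z) with hc
    have hc0 : 0 < c := Real.sqrt_pos.2 h
    have hc2 : c * c = z ⬝ᵥ z := Real.mul_self_sqrt h.le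
    have h1 : (c⁻¹ • z) ⬝ᵥ (c⁻¹ • z) = 1 := by
      rw [dotProduct_smul, smul_dotProduct, smul_eq_mul, smul_eq_mul, ← hc2]
      field_simp
    have h2 := le_lm A h1
    rw [Matrix.mulVec_smul, dotProduct_smul, smul_dotProduct, smul_eq_mul, smul_eq_mul] at h2
    have h3 : z ⬝ᵥ A *ᵥ z = (c * c) * (c⁻¹ * (c⁻¹ * (z ⬝ᵥ A *ᵥ z))) := by field_simp
    rw [h3, ← hc2, mul_comm (lm A)]
    exact mul_le_mul_of_nonneg_left h2 (by positivity)

theorem row_bound [Nonempty m] (A : Matrix m m ℝ) (hA : Aᵀ = A) (i : m) (hd : A i i = 0) :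
    ∑ j, A j i ^ 2 ≤ lm A ^ 2 + lm (-A) ^ 2 := by
  have hG : 0 ≤ lm A := by
    have := le_lm A (v := Pi.single i 1) (by simp)
    simpa [hd] using this
  have hG' : 0 ≤ lm (-A) := by
    have := le_lm (-A) (v := Pi.single i 1) (by simp)
    simpa [hd] using this
  set v : m → ℝ := Pi.single i 1 with hv
  set w : m → ℝ := A *ᵥ v with hw
  have hwj : ∀ j, w j = A j i := by
    intro j; rw [hw, hv]; simp
  have hsum : ∑ j, A j i ^ 2 = w ⬝ᵥ w := by
    rw [dotProduct]
    refine Finset.sum_congr rfl fun j _ => ?_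
    rw [hwj]; ring
  rw [hsum]
  have h0 : 0 ≤ w ⬝ᵥ w := by rw [← sq_eq_dot]; exact sq_nonneg' w
  rcases h0.eq_or_lt with h | h
  · rw [← h]; positivity
  · set R := Real.sqrt (w ⬝ᵥ w) with hR
    have hR0 : 0 < R := Real.sqrt_pos.2 h
    have hR2 : R * R = w ⬝ᵥ w := Real.mul_self_sqrt h.le
    -- polarisation with z = R v ± w
    have hvv : v ⬝ᵥ v = 1 := by rw [hv]; simp
    have a1 := lm_scale A (R • v + w)
    have a2 := lm_scale (-A) (R • v - w)
    have sym : w ⬝ᵥ A *ᵥ v = v ⬝ᵥ A *ᵥ w := by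
      rw [Matrix.dotProduct_mulVec, ← Matrix.mulVec_transpose, hA, dotProduct_comm]
    have e1 : (R • v + w) ⬝ᵥ A *ᵥ (R • v + w) =
        R * R * (v ⬝ᵥ A *ᵥ v) + 2 * R * (v ⬝ᵥ A *ᵥ w) + w ⬝ᵥ A *ᵥ w := by
      simp only [Matrix.mulVec_add, Matrix.mulVec_smul, dotProduct_add, add_dotProduct, dotProduct_smul,
        smul_dotProduct, smul_eq_mul]
      rw [sym]; ring
    have e2 : (R • v - w) ⬝ᵥ (-A) *ᵥ (R • v - w) =
        -(R * R * (v ⬝ᵥ A *ᵥ v) - 2 * R * (v ⬝ᵥ A *ᵥ w) + w ⬝ᵥ A *ᵥ w) := by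
      simp only [Matrix.neg_mulVec, Matrix.mulVec_sub, Matrix.mulVec_smul, dotProduct_sub, sub_dotProduct,
        dotProduct_smul, smul_dotProduct, smul_eq_mul, dotProduct_neg]
      rw [sym]; ring
    have e3 : (R • v + w) ⬝ᵥ (R • v + w) = 2 * (R * R) + 2 * R * (v ⬝ᵥ w) := by
      simp only [dotProduct_add, add_dotProduct, dotProduct_smul, smul_dotProduct, smul_eq_mul]
      rw [hvv, ← hR2, dotProduct_comm w v]; ring
    have e4 : (R • v - w) ⬝ᵥ (R • v - w) = 2 * (R * R) - 2 * R * (v ⬝ᵥ w) := by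
      simp only [dotProduct_sub, sub_dotProduct, dotProduct_smul, smul_dotProduct, smul_eq_mul]
      rw [hvv, ← hR2, dotProduct_comm w v]; ring
    have e5 : v ⬝ᵥ A *ᵥ w = R * R := by
      rw [← sym, ← hw, hR2]
    have e6 : v ⬝ᵥ w = 0 := by
      rw [hv]; simp [hwj, hd]
    rw [e1, e3, e6, e5] at a1
    rw [e2, e4, e6, e5] at a2
    -- adding
    have h5 : 4 * R * (R * R) ≤ (lm A + lm (-A)) * (2 * (R * R)) := by nlinarith
    have h6 : 2 * R ≤ lm A + lm (-A) := by
      have h7 : 0 < 2 * (R * R) := by positivity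
      have h8 : 2 * R * (2 * (R * R)) ≤ (lm A + lm (-A)) * (2 * (R * R)) := by nlinarith
      exact le_of_mul_le_mul_right h8 h7
    rw [← hR2]
    nlinarith [sq_nonneg (lm A - lm (-A)), sq_nonneg (lm A + lm (-A))]

end lam

variable {n l : ℕ}

theorem kik_symm (r : ℕ) (lam : ℝ) (Z : Finset (Fin n) → ℝ) : (kik n r l lam Z)ᵀ = kik n r l lam Z := by
  refine Matrix.ext fun I J => ?_
  simp only [Matrix.transpose_apply, kik, Matrix.of_apply, symmDiff_comm]

theorem second_moment (hl : 1 ≤ l) (hln : l ≤ n) :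
    (l : ℝ) * ((n - l : ℕ) : ℝ) / 2 ≤ ∫ Z, GG n l Z ^ 2 ∂(gam (Finset (Fin n))) := by
  have hne := nonempty_idx (l := l) hln
  obtain ⟨I⟩ := hne
  have hne : Nonempty {K : Finset (Fin n) // K.card = l} := ⟨I⟩
  have h1 : ∀ Z : Finset (Fin n) → ℝ, ∑ J, kik n 2 l 0 Z J I ^ 2 ≤
      GG n l Z ^ 2 + GG n l (fun S => (-1) * Z S) ^ 2 := by
    intro Z
    have h2 := row_bound (kik n 2 l 0 Z) (kik_symm 2 0 Z) I (by
      simp only [kik, Matrix.of_apply, symmDiff_self]
      rw [if_neg (by simp)])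
    have h3 : -kik n 2 l 0 Z = kik n 2 l 0 (fun S => (-1) * Z S) := by
      refine Matrix.ext fun A B => ?_
      simp only [kik, Matrix.neg_apply, Matrix.of_apply]
      split_ifs <;> ring
    rw [h3] at h2
    exact h2
  have hsq : Integrable (fun Z => GG n l Z ^ 2) (gam (Finset (Fin n))) := (GG_memLp hln).integrable_sq
  have hmp := mp_sign (ι := Finset (Fin n)) (fun _ => -1) (fun _ => Or.inr rfl)
  have hsq' : Integrable (fun Z : Finset (Fin n) → ℝ => GG n l (fun S => (-1) * Z S) ^ 2)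
      (gam (Finset (Fin n))) := hmp.integrable_comp_of_integrable hsq
  have hint' : ∫ Z : Finset (Fin n) → ℝ, GG n l (fun S => (-1) * Z S) ^ 2 ∂(gam (Finset (Fin n))) =
      ∫ Z, GG n l Z ^ 2 ∂(gam (Finset (Fin n))) :=
    int_mp hmp (g := fun Z => GG n l Z ^ 2) ((GG_cont hln).measurable.pow_const 2)
  set P : MvPolynomial (Finset (Fin n)) ℝ := ∑ J : {K : Finset (Fin n) // K.card = l},
    if (symmDiff J.1 I.1).card = 2 then MvPolynomial.X (symmDiff J.1 I.1) ^ 2 else 0 with hP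
  have hPe : ∀ Z, MvPolynomial.eval Z P = ∑ J, kik n 2 l 0 Z J I ^ 2 := by
    intro Z
    rw [hP, map_sum]
    refine Finset.sum_congr rfl fun J _ => ?_
    simp only [kik, Matrix.of_apply]
    split_ifs <;> simp
  have hEP : (l : ℝ) * ((n - l : ℕ) : ℝ) ≤ EE P := by
    have hdeg := degree_lower (n := n) (l := l) 1 hl I
    rw [Nat.choose_one_right, Nat.choose_one_right, mul_one] at hdeg
    have e : EE P = ((Finset.univ.filter fun J : {K : Finset (Fin n) // K.card = l} =>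
        (symmDiff I.1 J.1).card = 2).card : ℝ) := by
      rw [hP, map_sum, Finset.card_filter]
      push_cast
      refine Finset.sum_congr rfl fun J _ => ?_
      rw [symmDiff_comm J.1 I.1]
      split_ifs
      · exact EE_X_sq _
      · simp
    rw [e]
    exact_mod_cast hdeg
  have h4 : EE P ≤ ∫ Z : Finset (Fin n) → ℝ, (GG n l Z ^ 2 + GG n l (fun S => (-1) * Z S) ^ 2)
      ∂(gam (Finset (Fin n))) := by
    rw [EE_apply]
    refine integral_mono (int_eval P) (hsq.add hsq') fun Z => ?_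
    simp only
    rw [hPe]
    exact h1 Z
  rw [integral_add hsq hsq', hint'] at h4
  linarith

end Pool.Agent.U868.KI
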