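import Mathlib
import Pool.Agent.U868.KI.N4
import Pool.Agent.H988R2.Gauss

set_option autoImplicit false
set_option linter.unusedSectionVars false
open MeasureTheory ProbabilityTheory Filter
open scoped Matrix
open Pool.Agent.H4R2.AE.Conc

namespace Pool.Agent.U868.KI

section cm
variable {ι : Type} [Fintype ι]

theorem int_std (f : (ι → ℝ) → ℝ) :
    ∫ x : EuclideanSpace ℝ ι, f (WithLp.ofLp x) ∂(stdGaussian (EuclideanSpace ℝ ι)) =
      ∫ Z, f Z ∂(gam ι) := by
  rw [← map_pi_eq_stdGaussian]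
  have h := integral_map_equiv (μ := gam ι) (MeasurableEquiv.toLp 2 (ι → ℝ))
    (fun x : EuclideanSpace ℝ ι => f (WithLp.ofLp x))
  exact h

/-- Cameron-Martin -/
theorem cm (f : (ι → ℝ) → ℝ) (a : ι → ℝ) :
    ∫ Z, f (Z + a) ∂(gam ι) = Real.exp (-(∑ i, a i ^ 2) / 2) *
      ∫ Z, Real.exp (∑ i, a i * Z i) * f Z ∂(gam ι) := by
  have h := H988R2.integral_stdGaussian_add ι (fun x => f (WithLp.ofLp x)) (WithLp.toLp 2 a)
  have e1 : ∫ x : EuclideanSpace ℝ ι, f (WithLp.ofLp (x + WithLp.toLp 2 a))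
      ∂(stdGaussian (EuclideanSpace ℝ ι)) = ∫ Z, f (Z + a) ∂(gam ι) :=
    int_std (fun Z => f (Z + a))
  have e2 : ∫ x : EuclideanSpace ℝ ι, Real.exp (inner ℝ x (WithLp.toLp 2 a)) * f (WithLp.ofLp x)
      ∂(stdGaussian (EuclideanSpace ℝ ι)) = ∫ Z, Real.exp (∑ i, a i * Z i) * f Z ∂(gam ι) := by
    rw [← int_std (fun Z => Real.exp (∑ i, a i * Z i) * f Z)]
    refine integral_congr_ae (Eventually.of_forall fun x => ?_)
    simp only
    congr 2
  rw [e1, e2] at h
  rw [h]
  congr 3
  rw [EuclideanSpace.norm_sq_eq]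
  simp

/-- the moment generating function -/
theorem mgf_gam (a : ι → ℝ) :
    ∫ Z, Real.exp (∑ i, a i * Z i) ∂(gam ι) = Real.exp ((∑ i, a i ^ 2) / 2) := by
  have h := cm (fun _ => (1 : ℝ)) a
  simp only [mul_one] at h
  rw [integral_const] at h
  simp only [probReal_univ, smul_eq_mul, mul_one] at h
  have h2 : Real.exp ((∑ i, a i ^ 2) / 2) * Real.exp (-(∑ i, a i ^ 2) / 2) = 1 := by
    rw [← Real.exp_add, ← Real.exp_zero]; congr 1; ring
  calc ∫ Z, Real.exp (∑ i, a i * Z i) ∂(gam ι)
      = (Real.exp ((∑ i, a i ^ 2) / 2) * Real.exp (-(∑ i, a i ^ 2) / 2)) *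
        ∫ Z, Real.exp (∑ i, a i * Z i) ∂(gam ι) := by rw [h2, one_mul]
    _ = Real.exp ((∑ i, a i ^ 2) / 2) * 1 := by rw [mul_assoc, ← h]
    _ = _ := mul_one _

theorem int_exp_lin (a : ι → ℝ) : Integrable (fun Z : ι → ℝ => Real.exp (∑ i, a i * Z i)) (gam ι) := by
  have h : (fun Z : ι → ℝ => Real.exp (∑ i, a i * Z i)) = fun Z => ∏ i, Real.exp (a i * Z i) := by
    funext Z; rw [Real.exp_sum]
  rw [h]
  exact Integrable.fintype_prod (f := fun i (t : ℝ) => Real.exp (a i * t)) fun i =>
    integrable_exp_mul_gaussianReal (a i)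

end cm

theorem cs_int {α : Type} [MeasurableSpace α] {μ : Measure α} {f g : α → ℝ} (hf : MemLp f 2 μ)
    (hg : MemLp g 2 μ) : (∫ x, f x * g x ∂μ) ^ 2 ≤ (∫ x, f x ^ 2 ∂μ) * ∫ x, g x ^ 2 ∂μ := by
  have hfg : Integrable (fun x => f x * g x) μ := hf.integrable_mul hg
  have h1 : ∀ c : ℝ, 0 ≤ (∫ x, g x ^ 2 ∂μ) * (c * c) + (-2 * ∫ x, f x * g x ∂μ) * c + ∫ x, f x ^ 2 ∂μ := by
    intro c
    have h2 : 0 ≤ ∫ x, (f x - c * g x) ^ 2 ∂μ := integral_nonneg fun x => sq_nonneg _
    have h3 : ∫ x, (f x - c * g x) ^ 2 ∂μ = (∫ x, g x ^ 2 ∂μ) * (c * c) +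
        (-2 * ∫ x, f x * g x ∂μ) * c + ∫ x, f x ^ 2 ∂μ := by
      have e : (fun x => (f x - c * g x) ^ 2) = fun x =>
          ((c * c) * g x ^ 2 + (-2 * c) * (f x * g x)) + f x ^ 2 := by
        funext x; ring
      have i1 : Integrable (fun x => (c * c) * g x ^ 2) μ := hg.integrable_sq.const_mul _
      have i2 : Integrable (fun x => (-2 * c) * (f x * g x)) μ := hfg.const_mul _
      have i3 : Integrable (fun x => (c * c) * g x ^ 2 + (-2 * c) * (f x * g x)) μ := i1.add i2
      rw [e, integral_add i3 hf.integrable_sq, integral_add i1 i2, integral_const_mul,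
        integral_const_mul]
      ring
    linarith
  have h4 := discrim_le_zero h1
  unfold discrim at h4
  nlinarith

/-- signs -/
def eps (b : Bool) : ℝ := if b then 1 else -1

theorem eps_mul (b c : Bool) : eps b * eps c = eps (b == c) := by
  cases b <;> cases c <;> simp [eps]

theorem eps_sq (b : Bool) : eps b * eps b = 1 := by cases b <;> simp [eps]

theorem eps_or (b : Bool) : eps b = 1 ∨ eps b = -1 := by cases b <;> simp [eps]

variable {n l : ℕ}

/-- product of signs -/
def sg (d : Fin n → Bool) (S : Finset (Fin n)) : ℝ := ∏ i ∈ S, eps (d i)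

theorem sg_or (d : Fin n → Bool) (S : Finset (Fin n)) : sg d S = 1 ∨ sg d S = -1 := by
  unfold sg
  induction S using Finset.induction_on with
  | empty => simp
  | insert a S ha ih =>
    rw [Finset.prod_insert ha]
    rcases ih with h | h <;> rcases eps_or (d a) with h' | h' <;> rw [h, h'] <;> simp

theorem sg_sq (d : Fin n → Bool) (S : Finset (Fin n)) : sg d S * sg d S = 1 := by
  rcases sg_or d S with h | h <;> rw [h] <;> norm_num

theorem sg_symmDiff (d : Fin n → Bool) (I J : Finset (Fin n)) :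
    sg d (symmDiff I J) = sg d I * sg d J := by
  have h : ∀ S : Finset (Fin n), sg d S = ∏ i, if i ∈ S then eps (d i) else 1 := by
    intro S
    unfold sg
    rw [Finset.prod_ite_mem, Finset.univ_inter]
  rw [h, h I, h J, ← Finset.prod_mul_distrib]
  refine Finset.prod_congr rfl fun i _ => ?_
  by_cases h1 : i ∈ I <;> by_cases h2 : i ∈ J <;> simp [Finset.mem_symmDiff, h1, h2, eps_sq]

theorem lm_conj_le {m : Type} [Fintype m] [DecidableEq m] [Nonempty m] (A : Matrix m m ℝ) (s : m → ℝ)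
    (hs : ∀ i, s i * s i = 1) : lm (Matrix.of fun i j => s i * A i j * s j) ≤ lm A := by
  refine lm_le _ fun v hv => ?_
  have h1 : (fun i => s i * v i) ⬝ᵥ (fun i => s i * v i) = 1 := by
    rw [← hv, dotProduct, dotProduct]
    refine Finset.sum_congr rfl fun i _ => ?_
    calc s i * v i * (s i * v i) = (s i * s i) * (v i * v i) := by ring
      _ = v i * v i := by rw [hs, one_mul]
  have h2 := le_lm A h1
  refine le_trans (le_of_eq ?_) h2
  simp only [dotProduct, Matrix.mulVec, Matrix.of_apply, Finset.mul_sum]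
  refine Finset.sum_congr rfl fun i _ => Finset.sum_congr rfl fun j _ => ?_
  ring

theorem GG_sign (hln : l ≤ n) (d : Fin n → Bool) (Z : Finset (Fin n) → ℝ) :
    GG n l (fun S => sg d S * Z S) = GG n l Z := by
  have hne := nonempty_idx (l := l) hln
  have h1 : ∀ Z : Finset (Fin n) → ℝ, GG n l (fun S => sg d S * Z S) ≤ GG n l Z := by
    intro Z
    have e : kik n 2 l 0 (fun S => sg d S * Z S) =
        Matrix.of fun I J => sg d I.1 * kik n 2 l 0 Z I J * sg d J.1 := by
      refine Matrix.ext fun I J => ?_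
      simp only [kik, Matrix.of_apply]
      split_ifs
      · rw [sg_symmDiff]; ring
      · ring
    unfold GG
    rw [e]
    exact lm_conj_le _ _ fun I => sg_sq d I.1
  refine le_antisymm (h1 Z) ?_
  have h2 := h1 (fun S => sg d S * Z S)
  have e : (fun S => sg d S * (sg d S * Z S)) = Z := by
    funext S
    rw [← mul_assoc, sg_sq, one_mul]
  rwa [e] at h2

/-- the spike directions -/
def wd (d : Fin n → Bool) (S : Finset (Fin n)) : ℝ := if S.card = 2 then sg d S else 0

theorem int_spike (hln : l ≤ n) (t : ℝ) (d : Fin n → Bool) :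
    ∫ Z, GG n l (Z + t • wd d) ∂(gam (Finset (Fin n))) = mt n 2 l t := by
  have hmp := mp_sign (ι := Finset (Fin n)) (sg d) (sg_or d)
  have hm : Measurable fun Z : Finset (Fin n) → ℝ => GG n l (Z + t • wd d) :=
    ((GG_cont hln).comp (continuous_id.add continuous_const)).measurable
  rw [← int_mp hmp (g := fun Z => GG n l (Z + t • wd d)) hm]
  unfold mt
  refine integral_congr_ae (Eventually.of_forall fun Z => ?_)
  simp only
  have e1 : ((fun i => sg d i * Z i) + t • wd d : Finset (Fin n) → ℝ) =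
      fun S => sg d S * (Z S + t * (if S.card = 2 then 1 else 0)) := by
    funext S
    simp only [Pi.add_apply, Pi.smul_apply, smul_eq_mul, wd]
    split_ifs
    · ring
    · ring
  rw [e1, GG_sign hln d]
  unfold GG
  congr 1
  refine Matrix.ext fun I J => ?_
  simp only [kik, Matrix.of_apply]
  split_ifs <;> ring

theorem sum_wd_sq (d : Fin n → Bool) : ∑ S, wd d S ^ 2 = (n.choose 2 : ℝ) := by
  have h1 : ∀ S : Finset (Fin n), wd d S ^ 2 = if S ∈ (Finset.univ : Finset (Fin n)).powersetCard 2 then 1 else 0 := by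
    intro S
    simp only [wd, Finset.mem_powersetCard, Finset.subset_univ, true_and]
    split_ifs
    · rw [pow_two, sg_sq]
    · norm_num
  simp only [h1]
  rw [Finset.sum_ite_mem, Finset.univ_inter, Finset.sum_const, Finset.card_powersetCard,
    Finset.card_univ, Fintype.card_fin]
  simp

theorem sum_pairs (x : Fin n → ℝ) :
    2 * ∑ S ∈ (Finset.univ : Finset (Fin n)).powersetCard 2, ∏ i ∈ S, x i ≤ (∑ i, x i) ^ 2 := by
  have hmap : ∀ p ∈ (Finset.univ : Finset (Fin n)).offDiag,
      ({p.1, p.2} : Finset (Fin n)) ∈ (Finset.univ : Finset (Fin n)).powersetCard 2 := by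
    intro p hp
    rw [Finset.mem_powersetCard]
    exact ⟨Finset.subset_univ _, Finset.card_pair (Finset.mem_offDiag.1 hp).2.2⟩
  have h1 : ∑ p ∈ (Finset.univ : Finset (Fin n)).offDiag, x p.1 * x p.2 =
      2 * ∑ S ∈ (Finset.univ : Finset (Fin n)).powersetCard 2, ∏ i ∈ S, x i := by
    rw [← Finset.sum_fiberwise_of_maps_to hmap, Finset.mul_sum]
    refine Finset.sum_congr rfl fun S hS => ?_
    obtain ⟨i, j, hij, rfl⟩ := Finset.card_eq_two.1 (Finset.mem_powersetCard.1 hS).2
    have e : (Finset.univ : Finset (Fin n)).offDiag.filter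
        (fun p : Fin n × Fin n => ({p.1, p.2} : Finset (Fin n)) = {i, j}) = {(i, j), (j, i)} := by
      ext ⟨a, b⟩
      simp only [Finset.mem_filter, Finset.mem_offDiag, Finset.mem_univ, true_and, Finset.mem_insert,
        Finset.mem_singleton, Prod.mk.injEq]
      constructor
      · rintro ⟨hab, he⟩
        have ha : a ∈ ({i, j} : Finset (Fin n)) := by rw [← he]; simp
        have hb : b ∈ ({i, j} : Finset (Fin n)) := by rw [← he]; simp
        rw [Finset.mem_insert, Finset.mem_singleton] at ha hb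
        rcases ha with rfl | rfl <;> rcases hb with rfl | rfl
        · exact absurd rfl hab
        · left; exact ⟨rfl, rfl⟩
        · right; exact ⟨rfl, rfl⟩
        · exact absurd rfl hab
      · rintro (⟨rfl, rfl⟩ | ⟨rfl, rfl⟩)
        · exact ⟨hij, rfl⟩
        · exact ⟨Ne.symm hij, Finset.pair_comm _ _⟩
    rw [e, Finset.sum_pair (by simp [hij]), Finset.prod_pair hij]
    ring
  have h2 : (∑ i, x i) ^ 2 = ∑ p ∈ (Finset.univ : Finset (Fin n)).offDiag, x p.1 * x p.2 +
      ∑ i, x i ^ 2 := by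
    rw [pow_two, Finset.sum_mul_sum, ← Finset.sum_product', ← Finset.diag_union_offDiag,
      Finset.sum_union (Finset.disjoint_diag_offDiag _), Finset.sum_diag, add_comm]
    congr 1
    exact Finset.sum_congr rfl fun i _ => (pow_two _).symm
  rw [h2, h1]
  have : 0 ≤ ∑ i, x i ^ 2 := Finset.sum_nonneg fun _ _ => sq_nonneg _
  linarith

end Pool.Agent.U868.KI
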