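import Mathlib
import Pool.Agent.U868.KI.N5

set_option autoImplicit false
set_option linter.unusedSectionVars false
open MeasureTheory ProbabilityTheory Filter
open scoped Matrix
open Pool.Agent.H4R2.AE.Conc

namespace Pool.Agent.U868.KI

/-- the constant of the second moment -/
noncomputable def C0 (m : ℝ) : ℝ := ∫ x, Real.exp (m * x ^ 2 / 2) ∂(gaussianReal 0 1)

theorem int_C0 (m : ℝ) (hm : m < 1) :
    Integrable (fun x : ℝ => Real.exp (m * x ^ 2 / 2)) (gaussianReal 0 1) := by
  rw [gaussianReal_of_var_ne_zero 0 (by norm_num : (1 : NNReal) ≠ 0),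
    integrable_withDensity_iff_integrable_smul' (measurable_gaussianPDF 0 1)
      (Eventually.of_forall fun _ => gaussianPDF_lt_top)]
  have h1 : Integrable (fun x : ℝ => (Real.sqrt (2 * Real.pi))⁻¹ *
      Real.exp (-((1 - m) / 2) * x ^ 2)) :=
    (integrable_exp_neg_mul_sq (by linarith : (0 : ℝ) < (1 - m) / 2)).const_mul _
  refine h1.congr (Eventually.of_forall fun x => ?_)
  simp only [smul_eq_mul, toReal_gaussianPDF, gaussianPDFReal_def]
  have : Real.exp (-(x - 0) ^ 2 / (2 * ((1 : NNReal) : ℝ))) * Real.exp (m * x ^ 2 / 2) =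
      Real.exp (-((1 - m) / 2) * x ^ 2) := by
    rw [← Real.exp_add]; congr 1; simp; ring
  rw [mul_assoc, this]
  simp

theorem mgf_one (s : ℝ) : ∫ x, Real.exp (s * x) ∂(gaussianReal 0 1) = Real.exp (s ^ 2 / 2) := by
  have h := congrFun (mgf_fun_id_gaussianReal (μ := 0) (v := 1)) s
  unfold mgf at h
  rw [h]; simp

/-- the average over the signs -/
theorem avg_signs (n : ℕ) (t m : ℝ) (hm : m < 1) (ht : t ^ 2 * n ≤ m) :
    ∑ u : Fin n → Bool, Real.exp (t ^ 2 * (∑ i, eps (u i)) ^ 2 / 2) ≤ 2 ^ n * C0 m := by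
  have h1 : ∀ u : Fin n → Bool, Real.exp (t ^ 2 * (∑ i, eps (u i)) ^ 2 / 2) =
      ∫ x, Real.exp ((t * ∑ i, eps (u i)) * x) ∂(gaussianReal 0 1) := by
    intro u
    rw [mgf_one]; congr 1; ring
  simp only [h1]
  rw [← integral_finsetSum _ fun u _ => integrable_exp_mul_gaussianReal _]
  have h2 : ∀ x : ℝ, ∑ u : Fin n → Bool, Real.exp ((t * ∑ i, eps (u i)) * x) ≤
      2 ^ n * Real.exp (m * x ^ 2 / 2) := by
    intro x
    have e1 : ∀ u : Fin n → Bool, Real.exp ((t * ∑ i, eps (u i)) * x) =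
        ∏ i, Real.exp (t * x * eps (u i)) := by
      intro u
      rw [← Real.exp_sum, ← Finset.mul_sum]; congr 1; ring
    simp only [e1]
    have e2 : ∑ u : Fin n → Bool, ∏ i, Real.exp (t * x * eps (u i)) =
        ∏ _i : Fin n, ∑ b : Bool, Real.exp (t * x * eps b) := by
      rw [Finset.prod_univ_sum (fun _ : Fin n => (Finset.univ : Finset Bool))
        (fun _ b => Real.exp (t * x * eps b)), Fintype.piFinset_univ]
    rw [e2, Finset.prod_const, Finset.card_univ, Fintype.card_fin]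
    have e3 : ∑ b : Bool, Real.exp (t * x * eps b) = 2 * Real.cosh (t * x) := by
      rw [Fintype.sum_bool, Real.cosh_eq]
      simp [eps]; ring
    rw [e3, mul_pow]
    refine mul_le_mul_of_nonneg_left ?_ (by positivity)
    calc Real.cosh (t * x) ^ n ≤ (Real.exp ((t * x) ^ 2 / 2)) ^ n :=
          pow_le_pow_left₀ (Real.cosh_pos _).le (Real.cosh_le_exp_half_sq _) n
      _ = Real.exp (n * ((t * x) ^ 2 / 2)) := by rw [← Real.exp_nat_mul]
      _ ≤ Real.exp (m * x ^ 2 / 2) := by
          rw [Real.exp_le_exp]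
          have : (n : ℝ) * ((t * x) ^ 2 / 2) = (t ^ 2 * n) * (x ^ 2 / 2) := by ring
          rw [this]
          have h := mul_le_mul_of_nonneg_right ht (by positivity : 0 ≤ x ^ 2 / 2)
          linarith
  calc ∫ x, ∑ u : Fin n → Bool, Real.exp ((t * ∑ i, eps (u i)) * x) ∂(gaussianReal 0 1)
      ≤ ∫ x, 2 ^ n * Real.exp (m * x ^ 2 / 2) ∂(gaussianReal 0 1) :=
        integral_mono (integrable_finsetSum _ fun u _ => integrable_exp_mul_gaussianReal _)
          ((int_C0 m hm).const_mul _) h2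
    _ = _ := by rw [integral_const_mul]; rfl

variable {n l : ℕ}

/-- likelihood ratio for one sign vector -/
noncomputable def Ld (t : ℝ) (d : Fin n → Bool) (Z : Finset (Fin n) → ℝ) : ℝ :=
  Real.exp (-(t ^ 2 * (n.choose 2 : ℝ)) / 2) * Real.exp (∑ S, (t * wd d S) * Z S)

theorem Ld_memLp (t : ℝ) (d : Fin n → Bool) : MemLp (Ld t d) 2 (gam (Finset (Fin n))) := by
  have hm : AEStronglyMeasurable (Ld t d) (gam (Finset (Fin n))) := by
    have : Continuous (Ld t d) := by
      unfold Ld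
      fun_prop
    exact this.aestronglyMeasurable
  rw [memLp_two_iff_integrable_sq hm]
  have : (fun Z => Ld t d Z ^ 2) = fun Z => (Real.exp (-(t ^ 2 * (n.choose 2 : ℝ)) / 2)) ^ 2 *
      Real.exp (∑ S, (2 * (t * wd d S)) * Z S) := by
    funext Z
    unfold Ld
    rw [mul_pow]
    congr 1
    rw [← Real.exp_nat_mul]
    congr 1
    rw [Finset.mul_sum]
    refine Finset.sum_congr rfl fun S _ => ?_
    push_cast; ring
  rw [this]
  exact (int_exp_lin _).const_mul _

theorem int_Ld_mul (t : ℝ) (d : Fin n → Bool) (f : (Finset (Fin n) → ℝ) → ℝ) :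
    ∫ Z, f (Z + t • wd d) ∂(gam (Finset (Fin n))) = ∫ Z, Ld t d Z * f Z ∂(gam (Finset (Fin n))) := by
  rw [cm, ← integral_const_mul]
  refine integral_congr_ae (Eventually.of_forall fun Z => ?_)
  simp only [Ld, Pi.smul_apply, smul_eq_mul]
  have : ∑ i : Finset (Fin n), (t * wd d i) ^ 2 = t ^ 2 * (n.choose 2 : ℝ) := by
    rw [← sum_wd_sq d, Finset.mul_sum]
    exact Finset.sum_congr rfl fun S _ => by ring
  rw [this]; ring

theorem int_Ld (t : ℝ) (d : Fin n → Bool) : ∫ Z, Ld t d Z ∂(gam (Finset (Fin n))) = 1 := by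
  have h := int_Ld_mul t d (fun _ => 1)
  simp only [mul_one] at h
  rw [← h]; simp

theorem int_Ld_Ld (t : ℝ) (d d' : Fin n → Bool) :
    ∫ Z, Ld t d Z * Ld t d' Z ∂(gam (Finset (Fin n))) ≤
      Real.exp (t ^ 2 * (∑ i, eps (d i == d' i)) ^ 2 / 2) := by
  have h1 : (fun Z => Ld t d Z * Ld t d' Z) = fun Z => Real.exp (-(t ^ 2 * (n.choose 2 : ℝ))) *
      Real.exp (∑ S, (t * (wd d S + wd d' S)) * Z S) := by
    funext Z
    unfold Ld
    rw [show ∀ a b c e : ℝ, a * b * (c * e) = (a * c) * (b * e) from fun a b c e => by ring,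
      ← Real.exp_add, ← Real.exp_add]
    congr 2
    · ring
    · rw [← Finset.sum_add_distrib]
      exact Finset.sum_congr rfl fun S _ => by ring
  rw [h1, integral_const_mul, mgf_gam, ← Real.exp_add, Real.exp_le_exp]
  have h2 : ∑ S : Finset (Fin n), (t * (wd d S + wd d' S)) ^ 2 =
      t ^ 2 * (2 * (n.choose 2 : ℝ) + 2 * ∑ S, wd d S * wd d' S) := by
    rw [two_mul (n.choose 2 : ℝ)]
    conv_rhs => rw [← sum_wd_sq d]
    conv_rhs => rw [show (∑ S, wd d S ^ 2) + (∑ S, wd d S ^ 2) = (∑ S, wd d S ^ 2) + ∑ S, wd d' S ^ 2 by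
      rw [sum_wd_sq, sum_wd_sq]]
    rw [Finset.mul_sum, ← Finset.sum_add_distrib, ← Finset.sum_add_distrib, Finset.mul_sum]
    exact Finset.sum_congr rfl fun S _ => by ring
  have h3 : ∑ S, wd d S * wd d' S = ∑ S ∈ (Finset.univ : Finset (Fin n)).powersetCard 2,
      ∏ i ∈ S, eps (d i == d' i) := by
    have : ∀ S : Finset (Fin n), wd d S * wd d' S =
        if S ∈ (Finset.univ : Finset (Fin n)).powersetCard 2 then ∏ i ∈ S, eps (d i == d' i) else 0 := by
      intro S
      simp only [wd, Finset.mem_powersetCard, Finset.subset_univ, true_and]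
      split_ifs
      · unfold sg
        rw [← Finset.prod_mul_distrib]
        exact Finset.prod_congr rfl fun i _ => eps_mul _ _
      · ring
    simp only [this]
    rw [Finset.sum_ite_mem, Finset.univ_inter]
  have h4 := sum_pairs (fun i => eps (d i == d' i))
  rw [h2, h3]
  have ht : 0 ≤ t ^ 2 := sq_nonneg t
  nlinarith

/-- the averaged likelihood ratio -/
noncomputable def LL (n : ℕ) (t : ℝ) (Z : Finset (Fin n) → ℝ) : ℝ :=
  ((2 : ℝ) ^ n)⁻¹ * ∑ d : Fin n → Bool, Ld t d Z

theorem LL_memLp (t : ℝ) : MemLp (LL n t) 2 (gam (Finset (Fin n))) := by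
  unfold LL
  exact (memLp_finsetSum _ fun d _ => Ld_memLp t d).const_mul _

theorem card_signs (n : ℕ) : ((Fintype.card (Fin n → Bool) : ℕ) : ℝ) = 2 ^ n := by simp

theorem int_LL (t : ℝ) : ∫ Z, LL n t Z ∂(gam (Finset (Fin n))) = 1 := by
  unfold LL
  rw [integral_const_mul, integral_finsetSum _ fun d _ => (Ld_memLp t d).integrable (by norm_num)]
  simp only [int_Ld]
  rw [Finset.sum_const, Finset.card_univ, nsmul_eq_mul, card_signs, mul_one]
  exact inv_mul_cancel₀ (by positivity)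

theorem int_LL_sq (t m : ℝ) (hm : m < 1) (ht : t ^ 2 * n ≤ m) :
    ∫ Z, LL n t Z ^ 2 ∂(gam (Finset (Fin n))) ≤ C0 m := by
  have h1 : (fun Z => LL n t Z ^ 2) = fun Z => (((2 : ℝ) ^ n)⁻¹ * ((2 : ℝ) ^ n)⁻¹) *
      ∑ d : Fin n → Bool, ∑ d' : Fin n → Bool, Ld t d Z * Ld t d' Z := by
    funext Z
    unfold LL
    rw [mul_pow, pow_two (∑ d : Fin n → Bool, Ld t d Z), Finset.sum_mul_sum]
    ring
  have hi : ∀ d d' : Fin n → Bool, Integrable (fun Z => Ld t d Z * Ld t d' Z) (gam (Finset (Fin n))) :=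
    fun d d' => (Ld_memLp t d).integrable_mul (Ld_memLp t d')
  rw [h1, integral_const_mul, integral_finsetSum _ fun d _ => integrable_finsetSum _ fun d' _ => hi d d']
  have h2 : ∀ d : Fin n → Bool, ∫ Z, ∑ d' : Fin n → Bool, Ld t d Z * Ld t d' Z
      ∂(gam (Finset (Fin n))) ≤ 2 ^ n * C0 m := by
    intro d
    rw [integral_finsetSum _ fun d' _ => hi d d']
    refine (Finset.sum_le_sum fun d' _ => int_Ld_Ld t d d').trans ?_
    let e : (Fin n → Bool) ≃ (Fin n → Bool) :=
      ⟨fun d' i => (d i == d' i), fun d' i => (d i == d' i), fun d' => by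
        funext i; cases h : d i <;> cases h' : d' i <;> simp [h, h'], fun d' => by
        funext i; cases h : d i <;> cases h' : d' i <;> simp [h, h']⟩
    have h3 := Equiv.sum_comp e (fun u : Fin n → Bool => Real.exp (t ^ 2 * (∑ i, eps (u i)) ^ 2 / 2))
    exact (le_of_eq h3).trans (avg_signs n t m hm ht)
  calc (((2 : ℝ) ^ n)⁻¹ * ((2 : ℝ) ^ n)⁻¹) * ∑ d : Fin n → Bool,
        ∫ Z, ∑ d' : Fin n → Bool, Ld t d Z * Ld t d' Z ∂(gam (Finset (Fin n)))
      ≤ (((2 : ℝ) ^ n)⁻¹ * ((2 : ℝ) ^ n)⁻¹) * ∑ _d : Fin n → Bool, 2 ^ n * C0 m := by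
        refine mul_le_mul_of_nonneg_left (Finset.sum_le_sum fun d _ => h2 d) (by positivity)
    _ = C0 m := by
        rw [Finset.sum_const, Finset.card_univ, nsmul_eq_mul, card_signs]
        field_simp

/-- the means with and without signal are close -/
theorem mean_diff (hln : l ≤ n) (hn : 1 ≤ n) (t m : ℝ) (hm : m < 1) (ht : t ^ 2 * n ≤ m) :
    (mt n 2 l t - mt n 2 l 0) ^ 2 ≤ C0 m * (107524 * (l : ℝ) ^ 2 * Real.sqrt n) := by
  set a := ∫ Z, GG n l Z ∂(gam (Finset (Fin n))) with ha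
  have hG := GG_memLp (l := l) hln
  have hGi : Integrable (GG n l) (gam (Finset (Fin n))) := hG.integrable (by norm_num)
  have hL := LL_memLp (n := n) t
  have hLi : Integrable (LL n t) (gam (Finset (Fin n))) := hL.integrable (by norm_num)
  have hb : mt n 2 l t = ∫ Z, LL n t Z * GG n l Z ∂(gam (Finset (Fin n))) := by
    have h1 : ∀ d : Fin n → Bool, ∫ Z, Ld t d Z * GG n l Z ∂(gam (Finset (Fin n))) = mt n 2 l t := by
      intro d
      rw [← int_Ld_mul, int_spike hln]
    have h2 : (fun Z => LL n t Z * GG n l Z) = fun Z => ((2 : ℝ) ^ n)⁻¹ *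
        ∑ d : Fin n → Bool, Ld t d Z * GG n l Z := by
      funext Z
      unfold LL
      rw [mul_assoc, Finset.sum_mul]
    have hi : ∀ d : Fin n → Bool, Integrable (fun Z => Ld t d Z * GG n l Z) (gam (Finset (Fin n))) :=
      fun d => (Ld_memLp t d).integrable_mul hG
    rw [h2, integral_const_mul, integral_finsetSum _ fun d _ => hi d]
    simp only [h1]
    rw [Finset.sum_const, Finset.card_univ, nsmul_eq_mul, card_signs]
    field_simp
  have ha0 : mt n 2 l 0 = a := rfl
  have hc : MemLp (fun _ : Finset (Fin n) → ℝ => (1 : ℝ)) 2 (gam (Finset (Fin n))) := memLp_const 1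
  have hc2 : MemLp (fun _ : Finset (Fin n) → ℝ => a) 2 (gam (Finset (Fin n))) := memLp_const a
  have hdiff : mt n 2 l t - mt n 2 l 0 =
      ∫ Z, (LL n t Z - 1) * (GG n l Z - a) ∂(gam (Finset (Fin n))) := by
    have i1 : Integrable (fun Z => LL n t Z * GG n l Z) (gam (Finset (Fin n))) := hL.integrable_mul hG
    have i2 : Integrable (fun Z => a * LL n t Z) (gam (Finset (Fin n))) := hLi.const_mul a
    have i3 : Integrable (fun Z => LL n t Z * GG n l Z - a * LL n t Z) (gam (Finset (Fin n))) := i1.sub i2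
    have i4 : Integrable (fun Z => GG n l Z - a) (gam (Finset (Fin n))) := hGi.sub (integrable_const a)
    have e : (fun Z => (LL n t Z - 1) * (GG n l Z - a)) = fun Z =>
        (LL n t Z * GG n l Z - a * LL n t Z) - (GG n l Z - a) := by
      funext Z; ring
    rw [e, integral_sub i3 i4, integral_sub i1 i2, integral_const_mul, int_LL,
      integral_sub hGi (integrable_const a), ← hb, ha0]
    simp [ha]
  rw [hdiff]
  refine (cs_int (hL.sub hc) (hG.sub hc2)).trans ?_
  have hC0 : 0 ≤ C0 m := integral_nonneg fun x => (Real.exp_pos _).le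
  have h5 : ∫ Z, (LL n t Z - 1) ^ 2 ∂(gam (Finset (Fin n))) ≤ C0 m := by
    have e : (fun Z => (LL n t Z - 1) ^ 2) = fun Z => (LL n t Z ^ 2 - 2 * LL n t Z) + 1 := by
      funext Z; ring
    have i1 : Integrable (fun Z => LL n t Z ^ 2) (gam (Finset (Fin n))) := hL.integrable_sq
    have i2 : Integrable (fun Z => 2 * LL n t Z) (gam (Finset (Fin n))) := hLi.const_mul 2
    have i3 : Integrable (fun Z => LL n t Z ^ 2 - 2 * LL n t Z) (gam (Finset (Fin n))) := i1.sub i2
    rw [e, integral_add i3 (integrable_const 1), integral_sub i1 i2, integral_const_mul, int_LL]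
    have := int_LL_sq (n := n) t m hm ht
    simp only [integral_const, probReal_univ, smul_eq_mul, mul_one]
    linarith
  have h6 : ∫ Z, (GG n l Z - a) ^ 2 ∂(gam (Finset (Fin n))) ≤ 107524 * (l : ℝ) ^ 2 * Real.sqrt n := by
    have e : (fun Z => (GG n l Z - a) ^ 2) = fun Z => (GG n l Z ^ 2 - (2 * a) * GG n l Z) + a ^ 2 := by
      funext Z; ring
    have i1 : Integrable (fun Z => GG n l Z ^ 2) (gam (Finset (Fin n))) := hG.integrable_sq
    have i2 : Integrable (fun Z => (2 * a) * GG n l Z) (gam (Finset (Fin n))) := hGi.const_mul _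
    have i3 : Integrable (fun Z => GG n l Z ^ 2 - (2 * a) * GG n l Z) (gam (Finset (Fin n))) := i1.sub i2
    rw [e, integral_add i3 (integrable_const _), integral_sub i1 i2, integral_const_mul, ← ha]
    have := var_bound (n := n) (l := l) hln hn
    rw [← ha] at this
    simp only [integral_const, probReal_univ, smul_eq_mul, one_mul]
    linarith
  exact mul_le_mul h5 h6 (integral_nonneg fun _ => sq_nonneg _) hC0

end Pool.Agent.U868.KI
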