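import Mathlib
import Pool.Agent.U868.KI.W

set_option autoImplicit false
set_option linter.unusedSectionVars false
open MeasureTheory ProbabilityTheory Filter
open scoped Matrix

namespace Pool.Agent.U868.KI

theorem rpow_half (k : ℕ) (x : ℝ) (hx : 0 < x) :
    x ^ (-((2 * k : ℕ) : ℝ) / 4) * Real.sqrt (x ^ k) = 1 := by
  rw [Real.sqrt_eq_rpow, ← Real.rpow_natCast, ← Real.rpow_mul hx.le, ← Real.rpow_add hx]
  have : -((2 * k : ℕ) : ℝ) / 4 + (k : ℝ) * (1 / 2) = 0 := by push_cast; ring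
  rw [this, Real.rpow_zero]

/-- the constant -/
noncomputable def ck (k : ℕ) : ℝ := 1 / (227 * k * 2 ^ k * k.factorial * (2 * k).choose k)

theorem ck_pos (k : ℕ) (hk : 1 ≤ k) : 0 < ck k := by
  unfold ck
  have h1 : (0 : ℝ) < k := by exact_mod_cast hk
  have h2 : (0 : ℝ) < k.factorial := by exact_mod_cast Nat.factorial_pos k
  have h3 : (0 : ℝ) < (2 * k).choose k := by exact_mod_cast Nat.choose_pos (by omega)
  positivity

theorem ratio_lower (k l n : ℕ) (hk : 1 ≤ k) (hkl : k ≤ l) (hn : 2 * (l + k) ≤ n) (μ : ℝ) (hμ : 0 ≤ μ) :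
    ck k * μ * Real.sqrt ((l - 1).choose (k - 1) : ℝ) ≤
      mt n (2 * k) l (μ * (n : ℝ) ^ (-((2 * k : ℕ) : ℝ) / 4)) / mt n (2 * k) l 0 := by
  have hk0 : (0 : ℝ) < k := by exact_mod_cast hk
  have hn0 : (0 : ℝ) < n := by
    have : 0 < n := by omega
    exact_mod_cast this
  have hl0 : (0 : ℝ) < l := by
    have : 0 < l := by omega
    exact_mod_cast this
  have hf0 : (0 : ℝ) < k.factorial := by exact_mod_cast Nat.factorial_pos k
  have hC0 : (0 : ℝ) < (2 * k).choose k := by exact_mod_cast Nat.choose_pos (by omega)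
  set c : ℝ := ((l - 1).choose (k - 1) : ℝ) with hc
  have hc0 : 0 < c := by rw [hc]; exact_mod_cast Nat.choose_pos (by omega)
  set x : ℝ := Real.sqrt ((n : ℝ) ^ k) with hx
  have hx0 : 0 < x := Real.sqrt_pos.2 (by positivity)
  have hx2 : x ^ 2 = (n : ℝ) ^ k := Real.sq_sqrt (by positivity)
  set y : ℝ := (n : ℝ) ^ (-((2 * k : ℕ) : ℝ) / 4) with hy
  have hxy : y * x = 1 := rpow_half k n hn0
  have hy0 : 0 < y := Real.rpow_pos_of_pos hn0 _
  have hden0 := mt_pos (n := n) (l := l) k hk hkl (by omega)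
  -- denominator
  have hden : mt n (2 * k) l 0 ≤ l * (2 * k).choose k * (227 * x * Real.sqrt c) := by
    refine (mt_upper (n := n) (l := l) k hk hkl (by omega)).trans ?_
    refine mul_le_mul_of_nonneg_left ?_ (by positivity)
    rw [Real.sqrt_le_left (by positivity)]
    have h1 : (n : ℝ) * (n.choose (k - 1) : ℝ) ≤ (n : ℝ) ^ k := by
      have h2 : (n.choose (k - 1) : ℝ) ≤ (n : ℝ) ^ (k - 1) := by exact_mod_cast Nat.choose_le_pow n (k - 1)
      calc (n : ℝ) * (n.choose (k - 1) : ℝ) ≤ n * (n : ℝ) ^ (k - 1) :=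
            mul_le_mul_of_nonneg_left h2 hn0.le
        _ = (n : ℝ) ^ k := by rw [← pow_succ']; congr 1; omega
    have h3 : Real.sqrt c ^ 2 = c := Real.sq_sqrt hc0.le
    push_cast
    calc 51200 * ((n : ℝ) * ((n.choose (k - 1) : ℝ) * ((l - 1).choose (k - 1) : ℝ)))
        = 51200 * (((n : ℝ) * (n.choose (k - 1) : ℝ)) * c) := by rw [hc]; ring
      _ ≤ 51200 * ((n : ℝ) ^ k * c) := by gcongr
      _ ≤ 51529 * ((n : ℝ) ^ k * c) := by
          have : 0 ≤ (n : ℝ) ^ k * c := by positivity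
          linarith
      _ = (227 * x * Real.sqrt c) ^ 2 := by rw [mul_pow, mul_pow, hx2, h3]; ring
  -- numerator
  have hnum : μ * y * ((l.choose k : ℝ) * ((n - l).choose k : ℝ)) ≤
      mt n (2 * k) l (μ * y) := by
    refine mt_lower (by omega) (μ * y) _ (by positivity) fun I => ?_
    have := degree_lower (n := n) (l := l) k hkl I
    exact_mod_cast this
  have h4 : (x ^ 2) / (2 ^ k * k.factorial) ≤ ((n - l).choose k : ℝ) := by
    have h5 := Nat.pow_le_choose (α := ℝ) k (n - l)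
    refine le_trans ?_ h5
    have h6 : (n : ℝ) / 2 ≤ ((n - l + 1 - k : ℕ) : ℝ) := by
      have : n ≤ 2 * (n - l + 1 - k) := by omega
      have h7 : (n : ℝ) ≤ 2 * ((n - l + 1 - k : ℕ) : ℝ) := by exact_mod_cast this
      linarith
    have h8 : ((n : ℝ) / 2) ^ k ≤ ((n - l + 1 - k : ℕ) : ℝ) ^ k := pow_le_pow_left₀ (by positivity) h6 k
    rw [hx2]
    calc (n : ℝ) ^ k / (2 ^ k * k.factorial) = ((n : ℝ) / 2) ^ k / k.factorial := by
          rw [div_pow]; field_simp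
      _ ≤ _ := by gcongr
  have h9 : (l.choose k : ℝ) * k = l * c := by
    have h10 := Nat.add_one_mul_choose_eq (l - 1) (k - 1)
    have e1 : l - 1 + 1 = l := by omega
    have e2 : k - 1 + 1 = k := by omega
    rw [e1, e2] at h10
    have h11 : (l : ℝ) * ((l - 1).choose (k - 1) : ℝ) = (l.choose k : ℝ) * k := by exact_mod_cast h10
    rw [hc, h11]
  rw [le_div_iff₀ hden0]
  refine le_trans ?_ hnum
  have h12 : (l.choose k : ℝ) = l * c / k := by
    rw [← h9]; field_simp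
  have h13 : Real.sqrt c * Real.sqrt c = c := Real.mul_self_sqrt hc0.le
  calc ck k * μ * Real.sqrt c * mt n (2 * k) l 0
      ≤ ck k * μ * Real.sqrt c * (l * (2 * k).choose k * (227 * x * Real.sqrt c)) := by
        refine mul_le_mul_of_nonneg_left hden ?_
        have := ck_pos k hk
        positivity
    _ = ck k * (l * (2 * k).choose k * 227) * μ * x * (Real.sqrt c * Real.sqrt c) := by ring
    _ = μ * y * ((l * c / k) * (x ^ 2 / (2 ^ k * k.factorial))) := by
        rw [h13, ck]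
        have e3 : x = y * x ^ 2 := by
          calc x = (y * x) * x := by rw [hxy, one_mul]
            _ = _ := by ring
        conv_lhs => rw [e3]
        field_simp
    _ ≤ μ * y * ((l.choose k : ℝ) * ((n - l).choose k : ℝ)) := by
        rw [← h12]
        gcongr

/-- the second constant -/
noncomputable def dk (k : ℕ) : ℝ := ck k / Real.sqrt ((k : ℝ) ^ (k - 1) * (k - 1).factorial)

theorem dk_pos (k : ℕ) (hk : 1 ≤ k) : 0 < dk k := by
  unfold dk
  have h1 := ck_pos k hk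
  have h2 : (0 : ℝ) < k := by exact_mod_cast hk
  have h3 : (0 : ℝ) < (k - 1).factorial := by exact_mod_cast Nat.factorial_pos _
  positivity

theorem sqrt_choose (k l : ℕ) (hk : 1 ≤ k) (hkl : k ≤ l) :
    (l : ℝ) ^ ((((2 * k : ℕ) : ℝ) - 2) / 4) / Real.sqrt ((k : ℝ) ^ (k - 1) * (k - 1).factorial) ≤
      Real.sqrt ((l - 1).choose (k - 1) : ℝ) := by
  have hl0 : (0 : ℝ) < l := by
    have : 0 < l := by omega
    exact_mod_cast this
  have hk0 : (0 : ℝ) < k := by exact_mod_cast hk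
  have hf : (0 : ℝ) < (k - 1).factorial := by exact_mod_cast Nat.factorial_pos _
  have e1 : (l : ℝ) ^ ((((2 * k : ℕ) : ℝ) - 2) / 4) = Real.sqrt ((l : ℝ) ^ (k - 1)) := by
    rw [Real.sqrt_eq_rpow, ← Real.rpow_natCast, ← Real.rpow_mul hl0.le]
    congr 1
    rw [Nat.cast_sub hk]; push_cast; ring
  rw [e1, ← Real.sqrt_div (by positivity)]
  refine Real.sqrt_le_sqrt ?_
  have h5 := Nat.pow_le_choose (α := ℝ) (k - 1) (l - 1)
  refine le_trans ?_ h5
  have h6 : (l : ℝ) / k ≤ ((l - 1 + 1 - (k - 1) : ℕ) : ℝ) := by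
    rw [div_le_iff₀ hk0]
    have : l ≤ (l - 1 + 1 - (k - 1)) * k := by
      obtain ⟨k', rfl⟩ : ∃ k', k = k' + 1 := ⟨k - 1, by omega⟩
      obtain ⟨d, rfl⟩ : ∃ d, l = k' + 1 + d := ⟨l - (k' + 1), by omega⟩
      have : k' + 1 + d - 1 + 1 - (k' + 1 - 1) = d + 1 := by omega
      rw [this]; nlinarith
    exact_mod_cast this
  calc (l : ℝ) ^ (k - 1) / ((k : ℝ) ^ (k - 1) * (k - 1).factorial)
      = ((l : ℝ) / k) ^ (k - 1) / (k - 1).factorial := by rw [div_pow]; field_simp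
    _ ≤ _ := by gcongr

theorem ratio_lower' (k l n : ℕ) (hk : 1 ≤ k) (hkl : k ≤ l) (hn : 2 * (l + k) ≤ n) (μ : ℝ) (hμ : 0 ≤ μ) :
    dk k * μ * (l : ℝ) ^ ((((2 * k : ℕ) : ℝ) - 2) / 4) ≤
      mt n (2 * k) l (μ * (n : ℝ) ^ (-((2 * k : ℕ) : ℝ) / 4)) / mt n (2 * k) l 0 := by
  refine le_trans ?_ (ratio_lower k l n hk hkl hn μ hμ)
  have h1 := sqrt_choose k l hk hkl
  have h2 := ck_pos k hk
  calc dk k * μ * (l : ℝ) ^ ((((2 * k : ℕ) : ℝ) - 2) / 4)
      = ck k * μ * ((l : ℝ) ^ ((((2 * k : ℕ) : ℝ) - 2) / 4) /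
          Real.sqrt ((k : ℝ) ^ (k - 1) * (k - 1).factorial)) := by rw [dk]; ring
    _ ≤ _ := by gcongr

end Pool.Agent.U868.KI
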