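import Mathlib
import Pool.Agent.U868.KI.N6
import Pool.Agent.U868.KI.X

set_option autoImplicit false
set_option linter.unusedSectionVars false
open MeasureTheory ProbabilityTheory Filter
open scoped Matrix

namespace Pool.Agent.U868.KI

/-- for `r = 2` and `μ < 1` the signal does not move the top of the spectrum -/
theorem ratio_two (l : ℕ) (hl : 1 ≤ l) (μ : ℝ) (hμ0 : 0 ≤ μ) (hμ : μ < 1) (ε : ℝ) (hε : 0 < ε) :
    ∀ᶠ n : ℕ in atTop, mt n 2 l (μ * (n : ℝ) ^ (-((2 : ℕ) : ℝ) / 4)) / mt n 2 l 0 < 1 + ε := by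
  set m := μ ^ 2 with hm
  have hm1 : m < 1 := by rw [hm]; nlinarith
  set V : ℝ := 107524 * (l : ℝ) ^ 2 with hV
  have hV0 : 0 ≤ V := by positivity
  have hC0 : 0 ≤ C0 m := integral_nonneg fun x => (Real.exp_pos _).le
  have hl0 : (0 : ℝ) < l := by exact_mod_cast hl
  set A : ℝ := C0 m * V + ε ^ 2 * V with hA
  set B : ℝ := ε ^ 2 * l ^ 2 / 2 with hB
  set c : ℝ := ε ^ 2 * l / 2 with hc
  have hA0 : 0 ≤ A := by positivity
  have hB0 : 0 ≤ B := by positivity
  have hc0 : 0 < c := by positivity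
  have hs : Tendsto (fun n : ℕ => Real.sqrt n) atTop atTop :=
    Real.tendsto_sqrt_atTop.comp tendsto_natCast_atTop_atTop
  filter_upwards [hs.eventually_ge_atTop ((A + B + 1) / c + 1), eventually_ge_atTop (l + 1)] with n hn1 hn2
  have hn : 1 ≤ n := by omega
  have hn0 : (0 : ℝ) < n := by exact_mod_cast hn
  have hln : l ≤ n := by omega
  set s := Real.sqrt n with hsd
  have hs2 : s * s = n := Real.mul_self_sqrt hn0.le
  have hs1 : 1 ≤ s := by
    have : 0 ≤ (A + B + 1) / c := by positivity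
    linarith
  set y : ℝ := (n : ℝ) ^ (-((2 : ℕ) : ℝ) / 4) with hy
  have hy1 : y * s = 1 := by
    have := rpow_half 1 n hn0
    rw [pow_one] at this
    exact this
  have ht : (μ * y) ^ 2 * n ≤ m := by
    apply le_of_eq
    calc (μ * y) ^ 2 * n = μ ^ 2 * (y * s) ^ 2 := by rw [← hs2]; ring
      _ = m := by rw [hy1, hm]; ring
  have h1 := mean_diff (n := n) (l := l) hln hn (μ * y) m hm1 ht
  have h2 := var_bound (n := n) (l := l) hln hn
  have h3 := second_moment (n := n) (l := l) hl hln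
  have hpos := mt_pos (n := n) (l := l) 1 le_rfl hl (by omega)
  rw [mul_one] at hpos
  set a := mt n 2 l 0 with ha
  set b := mt n 2 l (μ * y) with hb
  have ha' : ∫ Z, GG n l Z ∂(gam (Finset (Fin n))) = a := rfl
  rw [ha'] at h2
  rw [div_lt_iff₀ hpos]
  by_contra hcon
  push Not at hcon
  have h4 : ε * a ≤ b - a := by linarith
  have h5 : (ε * a) ^ 2 ≤ (b - a) ^ 2 := pow_le_pow_left₀ (by positivity) h4 2
  have hnl : (((n - l : ℕ) : ℝ)) = n - l := by rw [Nat.cast_sub hln]
  rw [hnl] at h3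
  have h6 : (l : ℝ) * (n - l) / 2 - V * s ≤ a ^ 2 := by linarith
  have h7 : ε ^ 2 * ((l : ℝ) * (n - l) / 2 - V * s) ≤ C0 m * (V * s) := by
    calc ε ^ 2 * ((l : ℝ) * (n - l) / 2 - V * s) ≤ ε ^ 2 * a ^ 2 :=
          mul_le_mul_of_nonneg_left h6 (by positivity)
      _ = (ε * a) ^ 2 := by ring
      _ ≤ (b - a) ^ 2 := h5
      _ ≤ C0 m * (V * s) := h1
  have h8 : c * (s * s) ≤ A * s + B := by
    have e1 : ε ^ 2 * ((l : ℝ) * (n - l) / 2 - V * s) = c * (s * s) - B - ε ^ 2 * V * s := by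
      rw [hs2, hc, hB]; ring
    have e2 : A * s = C0 m * (V * s) + ε ^ 2 * V * s := by rw [hA]; ring
    rw [e1] at h7
    rw [e2]; linarith
  have h9 : A + B + 1 < c * s := by
    have h10 : (A + B + 1) / c < s := by linarith
    rw [div_lt_iff₀ hc0] at h10
    linarith
  have h11 : (A + B + 1) * s ≤ c * (s * s) := by
    calc (A + B + 1) * s ≤ (c * s) * s := mul_le_mul_of_nonneg_right h9.le (by linarith)
      _ = _ := by ring
  have h12 : B ≤ B * s := by
    calc B = B * 1 := (mul_one B).symm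
      _ ≤ B * s := mul_le_mul_of_nonneg_left hs1 hB0
  have h13 : (A + B + 1) * s = A * s + B * s + s := by ring
  linarith

end Pool.Agent.U868.KI
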